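import Pool.Agent.H869R3.MM

set_option autoImplicit false

namespace Pool.Agent.H869R3

open QAlg Filter Topology

/-- Bound for the powers of an algebra with a witness. -/
lemma pow_defectLE {k : Type} [Field k] (A : CommAlgCat.{0} k) [Module.Finite k A] {r : ℕ}
    (h : Wit k A r) (n : ℕ) :
    DefectLE k (pow k A n) (r ^ n - Module.finrank k A ^ n) := by
  haveI := finite_pow A n
  have h1 := (wit_defect (wit_pow A h n)).1
  rwa [finrank_pow] at h1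

lemma defect_le {k : Type} [Field k] {A : Type} [CommRing A] [Algebra k A] {j : ℕ}
    (h : DefectLE k A j) : defect k A ≤ j := Nat.sInf_le h

lemma exps_nonempty (k : Type) [Field k] :
    {τ : ℝ | ∃ C : ℝ, ∀ m : ℕ, 1 ≤ m → (mmRank k m : ℝ) ≤ C * (m : ℝ) ^ τ}.Nonempty := by
  refine ⟨3, 1, fun m _ => ?_⟩
  have h := mmRank_le_cube k m
  have h2 : ((mmRank k m : ℕ) : ℝ) ≤ ((m ^ 3 : ℕ) : ℝ) := by exact_mod_cast h
  rw [one_mul]
  refine h2.trans (le_of_eq ?_)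
  push_cast
  norm_cast

lemma two_le_exp {k : Type} [Field k] {τ C : ℝ}
    (h : ∀ m : ℕ, 1 ≤ m → (mmRank k m : ℝ) ≤ C * (m : ℝ) ^ τ) : 2 ≤ τ := by
  by_contra hlt
  push Not at hlt
  have h1 : Tendsto (fun m : ℕ => (m : ℝ) ^ (2 - τ)) atTop atTop :=
    (tendsto_rpow_atTop (by linarith)).comp tendsto_natCast_atTop_atTop
  obtain ⟨m, hm1, hm2⟩ := ((h1.eventually_gt_atTop C).and (eventually_ge_atTop 1)).exists
  have h3 := h m hm2
  have h4 : ((m : ℝ)) ^ (2 : ℝ) ≤ (mmRank k m : ℝ) := by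
    have := sq_le_mmRank k m
    have h5 : ((m ^ 2 : ℕ) : ℝ) ≤ (mmRank k m : ℝ) := by exact_mod_cast this
    refine le_trans (le_of_eq ?_) h5
    push_cast
    norm_cast
  have hm0 : (0 : ℝ) < m := by exact_mod_cast hm2
  have h6 : (m : ℝ) ^ (2 : ℝ) = (m : ℝ) ^ (2 - τ) * (m : ℝ) ^ τ := by
    rw [← Real.rpow_add hm0]; ring_nf
  have h7 : (m : ℝ) ^ (2 - τ) * (m : ℝ) ^ τ ≤ C * (m : ℝ) ^ τ := by
    rw [← h6]; exact h4.trans h3
  have h8 : 0 < (m : ℝ) ^ τ := Real.rpow_pos_of_pos hm0 _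
  have h9 := le_of_mul_le_mul_right h7 h8
  linarith

lemma two_le_omega (k : Type) [Field k] : 2 ≤ omega k :=
  le_csInf (exps_nonempty k) fun _ ⟨_, hC⟩ => two_le_exp hC

lemma exists_exp (k : Type) [Field k] {ε : ℝ} (hε : 0 < ε) : ∃ τ < omega k + ε, ∃ C : ℝ, 1 ≤ C ∧
    ∀ m : ℕ, 1 ≤ m → (mmRank k m : ℝ) ≤ C * (m : ℝ) ^ τ := by
  obtain ⟨τ, ⟨C, hC⟩, hlt⟩ := exists_lt_of_csInf_lt (exps_nonempty k)
    (show sInf _ < omega k + ε by unfold omega; linarith)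
  refine ⟨τ, hlt, max C 1, le_max_right _ _, fun m hm => (hC m hm).trans ?_⟩
  exact mul_le_mul_of_nonneg_right (le_max_left _ _) (Real.rpow_nonneg (Nat.cast_nonneg _) _)

/-- The asymptotic bound. -/
theorem tendsto_Abar {k : Type} [Field k] (h2 : (2 : k) ≠ 0) {ε : ℝ} (hε : 0 < ε) :
    ∃ m₀ : ℕ, ∀ m ≥ m₀, Tendsto (fun n : ℕ => (defect k (pow k (Abar k m) n) : ℝ) /
      ((Module.finrank k (Abar k m) : ℝ) ^ ((omega k / 2 + ε) * n))) atTop (𝓝 0) := by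
  obtain ⟨τ, hτ, C, hC1, hC⟩ := exists_exp k hε
  -- choose `m₀` with `4 C m ^ (-ε) < 1/2`
  have hlim : Tendsto (fun m : ℕ => 4 * C * (m : ℝ) ^ (-ε)) atTop (𝓝 (4 * C * 0)) :=
    ((tendsto_rpow_neg_atTop hε).comp tendsto_natCast_atTop_atTop).const_mul _
  rw [mul_zero] at hlim
  obtain ⟨m₀, hm₀⟩ := eventually_atTop.mp
    ((hlim.eventually_lt_const (show (0 : ℝ) < 1 / 2 by norm_num)).and (eventually_ge_atTop 1))
  refine ⟨m₀, fun m hm => ?_⟩
  obtain ⟨hlt, hm1⟩ := hm₀ m hm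
  have hm0 : (0 : ℝ) < m := by exact_mod_cast hm1
  have hm1' : (1 : ℝ) ≤ m := by exact_mod_cast hm1
  have hω := two_le_omega k
  set d : ℝ := (Module.finrank k (Abar k m) : ℝ) with hd
  have hdm : (m : ℝ) ^ (2 : ℝ) ≤ d := by
    rw [hd, finrank_Abar]
    push_cast
    have : (m : ℝ) ^ (2 : ℝ) = (m : ℝ) ^ 2 := by norm_cast
    rw [this]
    nlinarith [sq_nonneg (m : ℝ)]
  set D : ℕ := 1 + m ^ 2 + 2 * mmRank k m with hD
  have hDle : (D : ℝ) ≤ 4 * C * (m : ℝ) ^ τ := by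
    have h3 : m ^ 2 ≤ mmRank k m := sq_le_mmRank k m
    have h4 : 1 ≤ m ^ 2 := Nat.one_le_pow _ _ hm1
    have h5 : D ≤ 4 * mmRank k m := by omega
    have h6 : (D : ℝ) ≤ 4 * (mmRank k m : ℝ) := by exact_mod_cast h5
    have h7 := hC m hm1
    nlinarith
  -- the ratio for one factor
  have hθ0 : 0 < d ^ (omega k / 2 + ε) :=
    Real.rpow_pos_of_pos (lt_of_lt_of_le (Real.rpow_pos_of_pos hm0 _) hdm) _
  have hratio : (D : ℝ) / d ^ (omega k / 2 + ε) ≤ 1 / 2 := by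
    have h3 : (m : ℝ) ^ (omega k + 2 * ε) ≤ d ^ (omega k / 2 + ε) := by
      have h4 : (m : ℝ) ^ (omega k + 2 * ε) = ((m : ℝ) ^ (2 : ℝ)) ^ (omega k / 2 + ε) := by
        rw [← Real.rpow_mul hm0.le]; ring_nf
      rw [h4]
      exact Real.rpow_le_rpow (Real.rpow_nonneg hm0.le _) hdm (by linarith)
    have h5 : 0 < (m : ℝ) ^ (omega k + 2 * ε) := Real.rpow_pos_of_pos hm0 _
    calc (D : ℝ) / d ^ (omega k / 2 + ε) ≤ (4 * C * (m : ℝ) ^ τ) / (m : ℝ) ^ (omega k + 2 * ε) := by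
          gcongr
      _ = 4 * C * (m : ℝ) ^ (τ - (omega k + 2 * ε)) := by
          rw [Real.rpow_sub hm0, mul_div_assoc]
      _ ≤ 4 * C * (m : ℝ) ^ (-ε) := by
          have : (m : ℝ) ^ (τ - (omega k + 2 * ε)) ≤ (m : ℝ) ^ (-ε) :=
            Real.rpow_le_rpow_of_exponent_le hm1' (by linarith)
          have hC0 : 0 ≤ 4 * C := by linarith
          exact mul_le_mul_of_nonneg_left this hC0
      _ ≤ 1 / 2 := hlt.le
  have hbound : ∀ n : ℕ, (defect k (pow k (Abar k m) n) : ℝ) /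
      (d ^ ((omega k / 2 + ε) * n)) ≤ (1 / 2 : ℝ) ^ n := by
    intro n
    have h3 : defect k (pow k (Abar k m) n) ≤ D ^ n :=
      (defect_le (pow_defectLE (Abar k m) (wit_Abar h2 (mmRank_spec k m)) n)).trans
        (Nat.sub_le _ _)
    have h4 : (defect k (pow k (Abar k m) n) : ℝ) ≤ (D : ℝ) ^ n := by exact_mod_cast h3
    have h5 : d ^ ((omega k / 2 + ε) * n) = (d ^ (omega k / 2 + ε)) ^ n := by
      rw [Real.rpow_mul (by positivity), Real.rpow_natCast]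
    rw [h5]
    calc (defect k (pow k (Abar k m) n) : ℝ) / (d ^ (omega k / 2 + ε)) ^ n
        ≤ (D : ℝ) ^ n / (d ^ (omega k / 2 + ε)) ^ n := by gcongr
      _ = ((D : ℝ) / d ^ (omega k / 2 + ε)) ^ n := by rw [div_pow]
      _ ≤ (1 / 2 : ℝ) ^ n := by
          refine pow_le_pow_left₀ ?_ hratio n
          positivity
  refine squeeze_zero (fun n => ?_) hbound (tendsto_pow_atTop_nhds_zero_of_lt_one (by norm_num)
    (by norm_num))
  positivity

end Pool.Agent.H869R3
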