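import Pool.Agent.H869R3.Rank

set_option autoImplicit false

namespace Pool.Agent.H869R3

open scoped TensorProduct PowerSeries

/-- A polynomial vanishing on the tensors of rank at most `D` over `k` vanishes on the tensors of rank
at most `D` over every extension field. -/
lemma eval₂_rank {k Ω I J L : Type} [Field k] [Infinite k] [Field Ω] (f : k →+* Ω) {D : ℕ}
    (φ : MvPolynomial (I × J × L) k)
    (hφ : ∀ S : I → J → L → k, TRankLE S D → MvPolynomial.eval (fun x => S x.1 x.2.1 x.2.2) φ = 0)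
    (S : I → J → L → Ω) (hS : TRankLE S D) :
    MvPolynomial.eval₂ f (fun x => S x.1 x.2.1 x.2.2) φ = 0 := by
  let W := (Fin D × I) ⊕ ((Fin D × J) ⊕ (Fin D × L))
  let gen : I × J × L → MvPolynomial W k := fun x =>
    ∑ p, MvPolynomial.X (Sum.inl (p, x.1)) * MvPolynomial.X (Sum.inr (Sum.inl (p, x.2.1))) *
      MvPolynomial.X (Sum.inr (Sum.inr (p, x.2.2)))
  have h0 : MvPolynomial.bind₁ gen φ = 0 := by
    apply MvPolynomial.funext
    intro v
    rw [map_zero]
    have h1 : MvPolynomial.eval v (MvPolynomial.bind₁ gen φ) =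
        MvPolynomial.eval (fun x => MvPolynomial.eval v (gen x)) φ := by
      have := MvPolynomial.eval₂Hom_bind₁ (RingHom.id k) v gen φ
      exact this
    rw [h1]
    have h2 := hφ (fun i j l => ∑ p, v (Sum.inl (p, i)) * v (Sum.inr (Sum.inl (p, j))) *
      v (Sum.inr (Sum.inr (p, l)))) ⟨fun p i => v (Sum.inl (p, i)),
        fun p j => v (Sum.inr (Sum.inl (p, j))), fun p l => v (Sum.inr (Sum.inr (p, l))),
        fun _ _ _ => rfl⟩
    rw [← h2]
    congr 2
    ext x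
    simp [gen]
  obtain ⟨a, b, c, h⟩ := hS
  let v : W → Ω := Sum.elim (fun q => a q.1 q.2) (Sum.elim (fun q => b q.1 q.2) fun q => c q.1 q.2)
  have h1 := MvPolynomial.eval₂Hom_bind₁ f v gen φ
  rw [h0, map_zero] at h1
  have h2 : (fun x : I × J × L => S x.1 x.2.1 x.2.2) =
      fun x => MvPolynomial.eval₂Hom f v (gen x) := by
    ext x
    rw [h]
    simp [gen, v]
  rw [h2]
  exact h1.symm

/-- A finite étale algebra over an algebraically closed field is a power of the field. -/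
lemma exists_pi_equiv {Ω E : Type} [Field Ω] [IsAlgClosed Ω] [CommRing E] [Algebra Ω E]
    [Algebra.Etale Ω E] : ∃ (P : Type) (_ : Fintype P), Nonempty (E ≃ₐ[Ω] (P → Ω)) := by
  obtain ⟨P, _, Ai, _, _, e, h⟩ := (Algebra.Etale.iff_exists_algEquiv_prod Ω E).mp inferInstance
  haveI := Fintype.ofFinite P
  have hb : ∀ p, Function.Bijective (algebraMap Ω (Ai p)) := by
    intro p
    haveI := (h p).1
    haveI : Algebra.IsIntegral Ω (Ai p) := inferInstance
    exact IsAlgClosed.algebraMap_bijective_of_isIntegral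
  let σ : ∀ p, Ai p ≃ₐ[Ω] Ω := fun p =>
    (AlgEquiv.ofBijective (Algebra.ofId Ω (Ai p)) (hb p)).symm
  exact ⟨P, inferInstance, ⟨e.trans (AlgEquiv.piCongrRight σ)⟩⟩

/-- The tensors obtained from the special fibre of a generically étale algebra of rank `D` have border
rank at most `D`. -/
theorem border_of_smoothing {k B : Type} [Field k] [Infinite k] [CommRing B] [Algebra k⟦X⟧ B]
    [Module.Finite k⟦X⟧ B] [Module.Free k⟦X⟧ B]
    (het : Algebra.Etale (LaurentSeries k) (LaurentSeries k ⊗[k⟦X⟧] B))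
    {I J L : Type} [Fintype I] [Fintype J] [Fintype L] (a : I → B) (b : J → B)
    (g : L → Module.Dual k⟦X⟧ B) :
    BorderLE (fun i j l => PowerSeries.constantCoeff (g l (a i * b j)))
      (Module.finrank k⟦X⟧ B) := by
  intro φ hφ
  let K := LaurentSeries k
  let Ω := AlgebraicClosure K
  have he1 : Algebra.Etale Ω (Ω ⊗[K] (K ⊗[k⟦X⟧] B)) := inferInstance
  have he2 : Algebra.Etale Ω (Ω ⊗[k⟦X⟧] B) :=
    Algebra.Etale.of_equiv (Algebra.TensorProduct.cancelBaseChange k⟦X⟧ K Ω Ω B)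
  obtain ⟨P, _, ⟨e⟩⟩ := exists_pi_equiv (Ω := Ω) (E := Ω ⊗[k⟦X⟧] B)
  have hP : Fintype.card P = Module.finrank k⟦X⟧ B := by
    have h1 := e.toLinearEquiv.finrank_eq
    rw [Module.finrank_baseChange] at h1
    rw [h1]
    simp
  -- the extended functionals
  let G : L → (Ω ⊗[k⟦X⟧] B) →ₗ[Ω] Ω := fun l =>
    (TensorProduct.AlgebraTensorModule.rid k⟦X⟧ Ω Ω).toLinearMap ∘ₗ
      LinearMap.baseChange Ω (g l : B →ₗ[k⟦X⟧] k⟦X⟧)
  have hG : ∀ l (x : B), G l (1 ⊗ₜ x) = algebraMap k⟦X⟧ Ω (g l x) := by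
    intro l x
    change TensorProduct.AlgebraTensorModule.rid k⟦X⟧ Ω Ω
      (LinearMap.baseChange Ω (g l : B →ₗ[k⟦X⟧] k⟦X⟧) (1 ⊗ₜ x)) = _
    rw [LinearMap.baseChange_tmul, TensorProduct.AlgebraTensorModule.rid_tmul,
      Algebra.algebraMap_eq_smul_one]
  let Tt : I → J → L → k⟦X⟧ := fun i j l => g l (a i * b j)
  have hrank : TRankLE (fun i j l => algebraMap k⟦X⟧ Ω (Tt i j l)) (Module.finrank k⟦X⟧ B) := by
    classical
    rw [← hP]
    refine trank_of_fintype (fun p i => e (1 ⊗ₜ a i) p) (fun p j => e (1 ⊗ₜ b j) p)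
      (fun p l => G l (e.symm (Pi.single p 1))) ?_
    intro i j l
    rw [← hG]
    have h1 : (1 : Ω) ⊗ₜ[k⟦X⟧] (a i * b j) = e.symm (e (1 ⊗ₜ a i) * e (1 ⊗ₜ b j)) := by
      rw [← map_mul, AlgEquiv.symm_apply_apply, Algebra.TensorProduct.tmul_mul_tmul, mul_one]
    have h2 : e (1 ⊗ₜ a i) * e (1 ⊗ₜ b j) =
        ∑ p, (e (1 ⊗ₜ a i) p * e (1 ⊗ₜ b j) p) • (Pi.single p (1 : Ω) : P → Ω) := by
      ext q
      simp only [Finset.sum_apply, Pi.smul_apply, Pi.single_apply, smul_eq_mul, mul_ite, mul_one,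
        mul_zero, Pi.mul_apply]
      rw [Finset.sum_ite_eq]
      simp
    rw [h1, h2, map_sum, map_sum]
    refine Finset.sum_congr rfl fun p _ => ?_
    rw [map_smul, map_smul, smul_eq_mul]
  have h3 := eval₂_rank ((algebraMap k⟦X⟧ Ω).comp PowerSeries.C) φ hφ _ hrank
  have h4 : MvPolynomial.eval₂ ((algebraMap k⟦X⟧ Ω).comp PowerSeries.C)
      (fun x : I × J × L => algebraMap k⟦X⟧ Ω (Tt x.1 x.2.1 x.2.2)) φ =
      algebraMap k⟦X⟧ Ω (MvPolynomial.eval₂ PowerSeries.C
        (fun x : I × J × L => Tt x.1 x.2.1 x.2.2) φ) :=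
    (MvPolynomial.eval₂_comp_left (algebraMap k⟦X⟧ Ω) PowerSeries.C _ φ).symm
  rw [h4] at h3
  have hinj : Function.Injective (algebraMap k⟦X⟧ Ω) := by
    rw [IsScalarTower.algebraMap_eq k⟦X⟧ K Ω]
    exact (algebraMap K Ω).injective.comp (IsFractionRing.injective k⟦X⟧ K)
  have h5 := (map_eq_zero_iff _ hinj).mp h3
  have h6 := congrArg (PowerSeries.constantCoeff (R := k)) h5
  rw [map_zero, MvPolynomial.eval₂_comp_left] at h6
  have h7 : (PowerSeries.constantCoeff (R := k)).comp PowerSeries.C = RingHom.id k := by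
    ext x; simp
  rw [h7] at h6
  exact h6

end Pool.Agent.H869R3
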