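import Pool.Agent.H869R3.Smooth

set_option autoImplicit false

namespace Pool.Agent.H869R3

open scoped TensorProduct PowerSeries
open PowerSeries

section core

variable {k : Type} [Field k] {J I : Type} [Fintype J] (M : I → J → k) (μ : k)

/-- parameters: a constant `c`, coefficients `x` of the degree one part, `w` and `z` of the degree two
part -/
abbrev Par (k : Type) [Field k] (J I : Type) : Type :=
  k⟦X⟧ × (J → k⟦X⟧) × (J → k⟦X⟧) × (I → k⟦X⟧)

/-- the points of the generic fibre -/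
abbrev Pts (J I : Type) : Type := Option ((J ⊕ J) ⊕ I)

noncomputable def MM (x : J → k⟦X⟧) (i : I) : k⟦X⟧ := ∑ j, C (M i j) * x j

lemma MM_add (x y : J → k⟦X⟧) (i : I) : MM M (x + y) i = MM M x i + MM M y i := by
  simp only [MM, Pi.add_apply, mul_add, Finset.sum_add_distrib]

lemma MM_sub (x y : J → k⟦X⟧) (i : I) : MM M (x - y) i = MM M x i - MM M y i := by
  simp only [MM, Pi.sub_apply, mul_sub, Finset.sum_sub_distrib]

lemma MM_smul (r : k⟦X⟧) (y : J → k⟦X⟧) (i : I) : MM M (r • y) i = r * MM M y i := by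
  simp only [MM, Pi.smul_apply, smul_eq_mul, Finset.mul_sum]
  exact Finset.sum_congr rfl fun j _ => by ring

lemma MM_zero (i : I) : MM M (0 : J → k⟦X⟧) i = 0 := by
  simp [MM]

noncomputable def phiFun (m : Par k J I) : Pts J I → k⟦X⟧
  | none => m.1
  | some (Sum.inl (Sum.inl j)) => m.1 + X * m.2.1 j + X ^ 2 * m.2.2.1 j
  | some (Sum.inl (Sum.inr j)) => m.1 + C μ * X * m.2.1 j + C μ ^ 2 * X ^ 2 * m.2.2.1 j
  | some (Sum.inr i) => m.1 + X * MM M m.2.1 i + X ^ 2 * m.2.2.2 i

noncomputable def phi : Par k J I →ₗ[k⟦X⟧] (Pts J I → k⟦X⟧) where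
  toFun := phiFun M μ
  map_add' := by
    intro m m'
    ext1 y
    rcases y with _ | ((j | j) | i)
    · rfl
    · simp only [phiFun, Pi.add_apply, Prod.fst_add, Prod.snd_add]; ring
    · simp only [phiFun, Pi.add_apply, Prod.fst_add, Prod.snd_add]; ring
    · simp only [phiFun, Pi.add_apply, Prod.fst_add, Prod.snd_add, MM_add]; ring
  map_smul' := by
    intro r m
    ext1 y
    rcases y with _ | ((j | j) | i)
    · rfl
    · simp only [phiFun, Pi.smul_apply, Prod.smul_fst, Prod.smul_snd, smul_eq_mul, RingHom.id_apply]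
      ring
    · simp only [phiFun, Pi.smul_apply, Prod.smul_fst, Prod.smul_snd, smul_eq_mul, RingHom.id_apply]
      ring
    · simp only [phiFun, Pi.smul_apply, Prod.smul_fst, Prod.smul_snd, smul_eq_mul, RingHom.id_apply,
        MM_smul]
      ring

variable {μ}

lemma phi_inj (h0 : μ ≠ 0) (h1 : μ ≠ 1) : Function.Injective (phi (k := k) M μ) := by
  rw [← LinearMap.ker_eq_bot, LinearMap.ker_eq_bot']
  rintro ⟨c, x, w, z⟩ h
  have hc : c = 0 := congrFun h none
  subst hc
  have hX : (X : k⟦X⟧) ≠ 0 := X_ne_zero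
  have hx : x = 0 := by
    ext1 j
    have e1 : (0 : k⟦X⟧) + X * x j + X ^ 2 * w j = 0 := congrFun h (some (Sum.inl (Sum.inl j)))
    have e2 : (0 : k⟦X⟧) + C μ * X * x j + C μ ^ 2 * X ^ 2 * w j = 0 :=
      congrFun h (some (Sum.inl (Sum.inr j)))
    have e3 : C (μ * (μ - 1)) * X * x j = 0 := by
      have : C (μ * (μ - 1)) * X * x j = C μ ^ 2 * ((0 : k⟦X⟧) + X * x j + X ^ 2 * w j) -
          ((0 : k⟦X⟧) + C μ * X * x j + C μ ^ 2 * X ^ 2 * w j) := by
        simp only [map_mul, map_sub, map_one]; ring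
      rw [this, e1, e2]; ring
    have h4 : C (μ * (μ - 1)) ≠ (0 : k⟦X⟧) := by
      rw [ne_eq, map_eq_zero_iff _ C_injective]
      exact mul_ne_zero h0 (sub_ne_zero.mpr h1)
    rcases mul_eq_zero.mp e3 with h5 | h5
    · exact absurd h5 (mul_ne_zero h4 hX)
    · exact h5
  subst hx
  have hw : w = 0 := by
    ext1 j
    have e1 : (0 : k⟦X⟧) + X * (0 : J → k⟦X⟧) j + X ^ 2 * w j = 0 :=
      congrFun h (some (Sum.inl (Sum.inl j)))
    have e2 : X ^ 2 * w j = 0 := by simpa using e1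
    exact (mul_eq_zero.mp e2).resolve_left (pow_ne_zero 2 hX)
  have hz : z = 0 := by
    ext1 i
    have e1 : (0 : k⟦X⟧) + X * MM M 0 i + X ^ 2 * z i = 0 := congrFun h (some (Sum.inr i))
    have e2 : X ^ 2 * z i = 0 := by simpa [MM_zero] using e1
    exact (mul_eq_zero.mp e2).resolve_left (pow_ne_zero 2 hX)
  rw [hw, hz]
  rfl

variable (μ)

/-- auxiliary part of the product -/
noncomputable def aux (m m' : Par k J I) : J → k⟦X⟧ := fun j =>
  C μ * (m.2.1 j * m'.2.2.1 j + m.2.2.1 j * m'.2.1 j) +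
    C μ * (1 + C μ) * X * (m.2.2.1 j * m'.2.2.1 j)

/-- the product in terms of the parameters -/
noncomputable def parMul (m m' : Par k J I) : Par k J I :=
  (m.1 * m'.1,
    m.1 • m'.2.1 + m'.1 • m.2.1 - (X ^ 2 : k⟦X⟧) • aux μ m m',
    fun j => m.1 * m'.2.2.1 j + m'.1 * m.2.2.1 j + m.2.1 j * m'.2.1 j +
      (1 + C μ) * X * (m.2.1 j * m'.2.2.1 j + m.2.2.1 j * m'.2.1 j) +
      (1 + C μ + C μ ^ 2) * X ^ 2 * (m.2.2.1 j * m'.2.2.1 j),
    fun i => m.1 * m'.2.2.2 i + m'.1 * m.2.2.2 i + MM M m.2.1 i * MM M m'.2.1 i +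
      X * (MM M m.2.1 i * m'.2.2.2 i + m.2.2.2 i * MM M m'.2.1 i) +
      X ^ 2 * (m.2.2.2 i * m'.2.2.2 i) + X * MM M (aux μ m m') i)

lemma phi_mul (m m' : Par k J I) : phi M μ (parMul M μ m m') = phi M μ m * phi M μ m' := by
  change phiFun M μ _ = phiFun M μ m * phiFun M μ m'
  ext1 y
  rcases y with _ | ((j | j) | i)
  · rfl
  · simp only [phiFun, parMul, aux, Pi.mul_apply, Pi.add_apply, Pi.sub_apply, Pi.smul_apply,
      smul_eq_mul]
    ring
  · simp only [phiFun, parMul, aux, Pi.mul_apply, Pi.add_apply, Pi.sub_apply, Pi.smul_apply,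
      smul_eq_mul]
    ring
  · simp only [phiFun, parMul, Pi.mul_apply, MM_add, MM_sub, MM_smul]
    ring

lemma phi_one : phi M μ (1, 0, 0, 0) = 1 := by
  change phiFun M μ _ = 1
  ext1 y
  rcases y with _ | ((j | j) | i)
  · rfl
  · simp [phiFun]
  · simp [phiFun]
  · simp [phiFun, MM_zero]

/-- the coordinate algebra of the family of points -/
noncomputable def Bsub : Subalgebra k⟦X⟧ (Pts J I → k⟦X⟧) :=
  (LinearMap.range (phi (k := k) M μ)).toSubalgebra ⟨_, phi_one M μ⟩ (by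
    rintro _ _ ⟨m, rfl⟩ ⟨m', rfl⟩
    exact ⟨_, phi_mul M μ m m'⟩)

/-- The linear parametrisation of `Bsub`. -/
noncomputable def parEquiv {μ : k} (h0 : μ ≠ 0) (h1 : μ ≠ 1) :
    Par k J I ≃ₗ[k⟦X⟧] Bsub (k := k) M μ :=
  LinearEquiv.ofInjective (phi (k := k) M μ) (phi_inj M h0 h1)

lemma parEquiv_val {μ : k} (h0 : μ ≠ 0) (h1 : μ ≠ 1) (m : Par k J I) :
    ((parEquiv M h0 h1 m : Bsub (k := k) M μ) : Pts J I → k⟦X⟧) = phi M μ m := rfl

lemma parEquiv_mul {μ : k} (h0 : μ ≠ 0) (h1 : μ ≠ 1) (m m' : Par k J I) :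
    parEquiv M h0 h1 (parMul M μ m m') = parEquiv M h0 h1 m * parEquiv M h0 h1 m' :=
  Subtype.ext (phi_mul M μ m m')

lemma parEquiv_symm_mul {μ : k} (h0 : μ ≠ 0) (h1 : μ ≠ 1) (a b : Bsub (k := k) M μ) :
    (parEquiv M h0 h1).symm (a * b) =
      parMul M μ ((parEquiv M h0 h1).symm a) ((parEquiv M h0 h1).symm b) := by
  apply (parEquiv M h0 h1).injective
  rw [parEquiv_mul]
  simp

/-- `X² g` lies in the order for every function `g` on the points. -/
lemma X_sq_mem {μ : k} (h0 : μ ≠ 0) (h1 : μ ≠ 1) (g : Pts J I → k⟦X⟧) :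
    (X ^ 2 : k⟦X⟧) • g ∈ Bsub (k := k) M μ := by
  change _ ∈ LinearMap.range (phi (k := k) M μ)
  have hμ : μ ^ 2 - μ ≠ 0 := by
    have : μ ^ 2 - μ = μ * (μ - 1) := by ring
    rw [this]
    exact mul_ne_zero h0 (sub_ne_zero.mpr h1)
  have hC : C ((μ ^ 2 - μ)⁻¹) * (C μ ^ 2 - C μ) = (1 : k⟦X⟧) := by
    rw [← map_pow, ← map_sub, ← map_mul, inv_mul_cancel₀ hμ, map_one]
  let a : J → k⟦X⟧ := fun j => g (some (Sum.inl (Sum.inl j))) - g none
  let b : J → k⟦X⟧ := fun j => g (some (Sum.inl (Sum.inr j))) - g none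
  let w : J → k⟦X⟧ := fun j => C ((μ ^ 2 - μ)⁻¹) * (b j - C μ * a j)
  let x' : J → k⟦X⟧ := fun j => a j - w j
  refine ⟨(X ^ 2 * g none, (X : k⟦X⟧) • x', w,
    fun i => (g (some (Sum.inr i)) - g none) - MM M x' i), ?_⟩
  change phiFun M μ _ = _
  ext1 y
  rcases y with _ | ((j | j) | i)
  · rfl
  · simp only [phiFun, Pi.smul_apply, smul_eq_mul, x', a]
    ring
  · simp only [phiFun, Pi.smul_apply, smul_eq_mul, x']
    have h2 : (C μ ^ 2 - C μ) * w j = b j - C μ * a j := by
      simp only [w]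
      rw [← mul_assoc, mul_comm (C μ ^ 2 - C μ), hC, one_mul]
    have h3 : X ^ 2 * g none + C μ * X * (X * (a j - w j)) + C μ ^ 2 * X ^ 2 * w j =
        X ^ 2 * (g none + C μ * a j + (C μ ^ 2 - C μ) * w j) := by ring
    rw [h3, h2]
    simp only [b]
    ring
  · simp only [phiFun, Pi.smul_apply, smul_eq_mul, MM_smul]
    ring

variable [Fintype I]

lemma etale_points (Y : Type) [Finite Y] (R : Type) [CommRing R] [IsNoetherianRing R] :
    Algebra.Etale R (Y → R) := by
  have h1 : Algebra.FormallyEtale R (Y → R) :=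
    (Algebra.FormallyEtale.pi_iff (fun _ : Y => R)).mpr fun _ => inferInstance
  have h2 : Algebra.FinitePresentation R (Y → R) := by
    rw [← Algebra.FinitePresentation.of_finiteType]
    have : Module.Finite R (Y → R) := Module.Finite.pi
    infer_instance
  exact ⟨h1, h2⟩

lemma etale_generic {μ : k} (h0 : μ ≠ 0) (h1 : μ ≠ 1) :
    Algebra.Etale (LaurentSeries k) (LaurentSeries k ⊗[k⟦X⟧] (Bsub (k := k) M μ)) := by
  let K := LaurentSeries k
  let ι : K ⊗[k⟦X⟧] (Bsub (k := k) M μ) →ₐ[K] K ⊗[k⟦X⟧] (Pts J I → k⟦X⟧) :=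
    Algebra.TensorProduct.map (AlgHom.id K K) (Bsub (k := k) M μ).val
  have hinj : Function.Injective ι := by
    have h2 : Function.Injective ((Bsub (k := k) M μ).val.toLinearMap.lTensor K) :=
      Module.Flat.lTensor_preserves_injective_linearMap _ Subtype.val_injective
    exact h2
  have hsurj : Function.Surjective ι := by
    intro y
    induction y using TensorProduct.induction_on with
    | zero => exact ⟨0, map_zero _⟩
    | add x y hx hy =>
      obtain ⟨u, hu⟩ := hx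
      obtain ⟨v, hv⟩ := hy
      exact ⟨u + v, by rw [map_add, hu, hv]⟩
    | tmul a g =>
      have hX : (algebraMap k⟦X⟧ K (X ^ 2)) ≠ 0 := by
        rw [ne_eq, map_eq_zero_iff _ (IsFractionRing.injective k⟦X⟧ K)]
        exact pow_ne_zero 2 X_ne_zero
      refine ⟨(a * (algebraMap k⟦X⟧ K (X ^ 2))⁻¹) ⊗ₜ ⟨_, X_sq_mem M h0 h1 g⟩, ?_⟩
      change (a * (algebraMap k⟦X⟧ K (X ^ 2))⁻¹) ⊗ₜ[k⟦X⟧] ((X ^ 2 : k⟦X⟧) • g) = _
      rw [TensorProduct.tmul_smul, TensorProduct.smul_tmul', Algebra.smul_def]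
      congr 1
      rw [mul_comm a, ← mul_assoc, mul_inv_cancel₀ hX, one_mul]
  have h3 : Algebra.Etale k⟦X⟧ (Pts J I → k⟦X⟧) := etale_points _ _
  have h4 : Algebra.Etale K (K ⊗[k⟦X⟧] (Pts J I → k⟦X⟧)) := inferInstance
  exact Algebra.Etale.of_equiv (AlgEquiv.ofBijective ι ⟨hinj, hsurj⟩).symm

end core

/-- **The explicit smoothing.** Let `A` be a `k`-algebra spanned by `1`, the `L x`, the `W w` and the
`U z`, where `L x * L x' = W (x * x') + U (M x * M x')` (coordinatewise products) and all other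
products vanish. Then `A` is a quotient of the special fibre of a family of `1 + 2 |J| + |I|`
points. -/
theorem wit_core {k : Type} [Field k] {J I : Type} [Fintype J] [Fintype I] (M : I → J → k)
    {μ : k} (h0 : μ ≠ 0) (h1 : μ ≠ 1) {A : Type} [CommRing A] [Algebra k A]
    (L : (J → k) →ₗ[k] A) (W : (J → k) →ₗ[k] A) (U : (I → k) →ₗ[k] A)
    (hLL : ∀ x x', L x * L x' =
      W (fun j => x j * x' j) + U fun i => (∑ j, M i j * x j) * (∑ j, M i j * x' j))
    (hLW : ∀ x z, L x * W z = 0) (hLU : ∀ x z, L x * U z = 0)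
    (hWW : ∀ z z', W z * W z' = 0) (hWU : ∀ z z', W z * U z' = 0) (hUU : ∀ z z', U z * U z' = 0)
    (hspan : ∀ a : A, ∃ (c : k) (x : J → k) (w : J → k) (z : I → k),
      a = algebraMap k A c + L x + W w + U z) :
    Wit k A (1 + 2 * Fintype.card J + Fintype.card I) := by
  let e := parEquiv M h0 h1
  let cc : k⟦X⟧ →+* k := constantCoeff
  let p : Par k J I → A := fun m => algebraMap k A (cc m.1) + L (fun j => cc (m.2.1 j)) +
    W (fun j => cc (m.2.2.1 j)) + U (fun i => cc (m.2.2.2 i))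
  have hMM : ∀ (x : J → k⟦X⟧) (i : I), cc (MM M x i) = ∑ j, M i j * cc (x j) := by
    intro x i
    simp [MM, cc]
  have hpadd : ∀ m m', p (m + m') = p m + p m' := by
    intro m m'
    have e1 : (fun j => cc ((m + m').2.1 j)) = (fun j => cc (m.2.1 j)) + fun j => cc (m'.2.1 j) := by
      ext j; simp [cc]
    have e3 : (fun j => cc ((m + m').2.2.1 j)) =
        (fun j => cc (m.2.2.1 j)) + fun j => cc (m'.2.2.1 j) := by
      ext j; simp [cc]
    have e2 : (fun i => cc ((m + m').2.2.2 i)) =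
        (fun i => cc (m.2.2.2 i)) + fun i => cc (m'.2.2.2 i) := by
      ext j; simp [cc]
    simp only [p, e1, e2, e3, map_add, Prod.fst_add]
    abel
  have hpmul : ∀ m m', p (parMul M μ m m') = p m * p m' := by
    intro m m'
    have e1 : (fun j => cc ((parMul M μ m m').2.1 j)) =
        cc m.1 • (fun j => cc (m'.2.1 j)) + cc m'.1 • fun j => cc (m.2.1 j) := by
      ext j
      simp only [parMul, Pi.sub_apply, Pi.add_apply, Pi.smul_apply, smul_eq_mul, map_sub, map_add,
        map_mul, map_pow]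
      simp [cc]
    have e3 : (fun j => cc ((parMul M μ m m').2.2.1 j)) =
        cc m.1 • (fun j => cc (m'.2.2.1 j)) + cc m'.1 • (fun j => cc (m.2.2.1 j)) +
        fun j => cc (m.2.1 j) * cc (m'.2.1 j) := by
      ext j
      simp only [parMul, Pi.add_apply, Pi.smul_apply, smul_eq_mul, map_add,
        map_mul, map_pow]
      simp [cc]
    have e2 : (fun i => cc ((parMul M μ m m').2.2.2 i)) =
        cc m.1 • (fun i => cc (m'.2.2.2 i)) + cc m'.1 • (fun i => cc (m.2.2.2 i)) +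
        fun i => (∑ j, M i j * cc (m.2.1 j)) * (∑ j, M i j * cc (m'.2.1 j)) := by
      ext i
      simp only [parMul, Pi.add_apply, Pi.smul_apply, smul_eq_mul, map_add, map_mul, map_pow, hMM]
      simp [cc]
    have e0 : cc (parMul M μ m m').1 = cc m.1 * cc m'.1 := by
      simp only [parMul, map_mul]
    have hL := hLL (fun j => cc (m.2.1 j)) (fun j => cc (m'.2.1 j))
    beta_reduce at hL
    simp only [p, e0, e1, e2, e3]
    simp only [map_add, map_smul, map_mul]
    simp only [Algebra.smul_def]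
    have f1 := hLU (fun j => cc (m.2.1 j)) (fun i => cc (m'.2.2.2 i))
    have f2 := hLU (fun j => cc (m'.2.1 j)) (fun i => cc (m.2.2.2 i))
    have f3 := hUU (fun i => cc (m.2.2.2 i)) (fun i => cc (m'.2.2.2 i))
    have f4 := hLW (fun j => cc (m.2.1 j)) (fun i => cc (m'.2.2.1 i))
    have f5 := hLW (fun j => cc (m'.2.1 j)) (fun i => cc (m.2.2.1 i))
    have f6 := hWW (fun j => cc (m.2.2.1 j)) (fun i => cc (m'.2.2.1 i))
    have f7 := hWU (fun j => cc (m.2.2.1 j)) (fun i => cc (m'.2.2.2 i))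
    have f8 := hWU (fun j => cc (m'.2.2.1 j)) (fun i => cc (m.2.2.2 i))
    linear_combination (-1 : A) * f1 - f2 - f3 - f4 - f5 - f6 - f7 - f8 - hL
  have hpone : p (1, 0, 0, 0) = 1 := by
    have e1 : (fun j : J => cc ((0 : J → k⟦X⟧) j)) = 0 := by ext; simp [cc]
    have e2 : (fun j : I => cc ((0 : I → k⟦X⟧) j)) = 0 := by ext; simp [cc]
    simp only [p]
    rw [e1, e2]
    simp [cc]
  have hpzero : p 0 = 0 := by
    have e1 : (fun j : J => cc ((0 : Par k J I).2.1 j)) = 0 := by ext; simp [cc]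
    have e3 : (fun j : J => cc ((0 : Par k J I).2.2.1 j)) = 0 := by ext; simp [cc]
    have e2 : (fun j : I => cc ((0 : Par k J I).2.2.2 j)) = 0 := by ext; simp [cc]
    simp only [p]
    rw [e1, e2, e3]
    simp [cc]
  have he1 : e.symm 1 = (1, 0, 0, 0) := by
    rw [LinearEquiv.symm_apply_eq]
    exact Subtype.ext (phi_one M μ).symm
  let π : Bsub (k := k) M μ →+* A :=
    { toFun := fun f => p (e.symm f)
      map_one' := by rw [he1, hpone]
      map_mul' := by
        intro a b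
        rw [parEquiv_symm_mul, hpmul]
      map_zero' := by rw [map_zero, hpzero]
      map_add' := by
        intro a b
        rw [map_add, hpadd] }
  refine ⟨Bsub (k := k) M μ, inferInstance, inferInstance, Module.Finite.equiv e,
    Module.Free.of_equiv e, ?_, etale_generic M h0 h1, π, ?_, ?_⟩
  · rw [← e.finrank_eq]
    simp only [Module.finrank_prod, Module.finrank_self, Module.finrank_fintype_fun_eq_card]
    ring
  · intro a
    obtain ⟨c, x, w, z, rfl⟩ := hspan a
    refine ⟨e (C c, fun j => C (x j), fun j => C (w j), fun i => C (z i)), ?_⟩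
    change p (e.symm (e _)) = _
    rw [e.symm_apply_apply]
    simp [p, cc]
  · intro f
    change p (e.symm (algebraMap k⟦X⟧ _ f)) = _
    have h2 : e.symm (algebraMap k⟦X⟧ (Bsub (k := k) M μ) f) = f • (1, 0, 0, 0) := by
      rw [Algebra.algebraMap_eq_smul_one, map_smul, he1]
    rw [h2]
    have e1 : (fun j : J => cc ((f • ((1, 0, 0, 0) : Par k J I)).2.1 j)) = 0 := by
      ext; simp [cc]
    have e3 : (fun j : J => cc ((f • ((1, 0, 0, 0) : Par k J I)).2.2.1 j)) = 0 := by
      ext; simp [cc]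
    have e2 : (fun j : I => cc ((f • ((1, 0, 0, 0) : Par k J I)).2.2.2 j)) = 0 := by
      ext; simp [cc]
    simp only [p]
    rw [e1, e2, e3]
    simp [cc]

end Pool.Agent.H869R3
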