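import Mathlib

set_option autoImplicit false

namespace Pool.Agent.H869R3

open scoped TensorProduct PowerSeries

/-- `Spec A` is a smoothable finite scheme: there is a finite flat `k⟦X⟧`-algebra `B` whose generic
fibre is étale (for a finite algebra over a field: geometrically reduced) and whose special fibre
`B / X B` is isomorphic to `A` as a `k`-algebra (`π` is the quotient map). -/
def Smoothable (k : Type) [Field k] (A : Type) [CommRing A] [Algebra k A] : Prop :=
  ∃ (B : Type) (_ : CommRing B) (_ : Algebra k⟦X⟧ B),
    Module.Finite k⟦X⟧ B ∧ Module.Flat k⟦X⟧ B ∧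
    Algebra.Etale (LaurentSeries k) (LaurentSeries k ⊗[k⟦X⟧] B) ∧
    ∃ π : B →+* A, Function.Surjective π ∧
      RingHom.ker π = Ideal.span {algebraMap k⟦X⟧ B PowerSeries.X} ∧
      ∀ f : k⟦X⟧, π (algebraMap k⟦X⟧ B f) = algebraMap k A (PowerSeries.constantCoeff f)

/-- `δ(Spec A) ≤ j`: the finite scheme `Spec A` is a closed subscheme of a finite smoothable scheme
`Spec C` with `deg C ≤ deg A + j`. -/
def DefectLE (k : Type) [Field k] (A : Type) [CommRing A] [Algebra k A] (j : ℕ) : Prop :=
  ∃ (C : Type) (_ : CommRing C) (_ : Algebra k C) (g : C →ₐ[k] A),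
    Function.Surjective g ∧ Module.Finite k C ∧ Smoothable k C ∧
    Module.finrank k C ≤ Module.finrank k A + j

/-- The smoothability defect `δ(Spec A)`. -/
noncomputable def defect (k : Type) [Field k] (A : Type) [CommRing A] [Algebra k A] : ℕ :=
  sInf {j | DefectLE k A j}

/-- The `n`-fold tensor power over `k`: the coordinate algebra of the `n`-fold fibre product of
`Spec A` with itself. -/
noncomputable def pow (k : Type) [Field k] (A : CommAlgCat.{0} k) : ℕ → CommAlgCat.{0} k
  | 0 => CommAlgCat.of k k
  | n + 1 => CommAlgCat.of k (pow k A n ⊗[k] A)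

end Pool.Agent.H869R3
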