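import Pool.Agent.H869R3.Border
import Pool.Agent.H869R3.Asym

set_option autoImplicit false

namespace Pool.Agent.H869R3

open scoped TensorProduct PowerSeries
open QAlg Filter Topology

lemma BorderLE.mono {k I J L : Type} [Field k] [Fintype I] [Fintype J] [Fintype L]
    {T : I → J → L → k} {r s : ℕ} (h : BorderLE T r) (hrs : r ≤ s) : BorderLE T s :=
  fun φ hφ => h φ fun S hS => hφ S (hS.mono hrs)

/-- Tensors read off from an algebra contained in a smoothable one. -/
lemma defect_border {k A : Type} [Field k] [Infinite k] [CommRing A] [Algebra k A] {j : ℕ}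
    (h : DefectLE k A j) {I J L : Type} [Fintype I] [Fintype J] [Fintype L] (a : I → A) (b : J → A)
    (g : L → Module.Dual k A) :
    BorderLE (fun i j l => g l (a i * b j)) (Module.finrank k A + j) := by
  obtain ⟨C, _, _, gC, hgC, hCfin, ⟨B, _, _, hfin, hflat, het, π₀, hπ₀, hker, hcomm⟩, hle⟩ := h
  haveI hfree : Module.Free k⟦X⟧ B := Module.free_of_flat_of_isLocalRing
  let bas := Module.finBasis k⟦X⟧ B
  have hsm : ∀ (f : k⟦X⟧) (x : B), π₀ (f • x) = PowerSeries.constantCoeff f • π₀ x := by
    intro f x
    rw [Algebra.smul_def, map_mul, hcomm, Algebra.smul_def]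
  -- the rank of `B` is at most `dim C`
  have hrank : Module.finrank k⟦X⟧ B ≤ Module.finrank k C := by
    have hli : LinearIndependent k (fun i => π₀ (bas i)) := by
      rw [Fintype.linearIndependent_iff]
      intro c hc i
      have h1 : π₀ (∑ i, (PowerSeries.C (c i) : k⟦X⟧) • bas i) = 0 := by
        rw [map_sum, ← hc]
        refine Finset.sum_congr rfl fun i _ => ?_
        rw [hsm]
        simp
      have h2 : (∑ i, (PowerSeries.C (c i) : k⟦X⟧) • bas i) ∈ RingHom.ker π₀ := h1
      rw [hker] at h2
      obtain ⟨d, hd⟩ := Ideal.mem_span_singleton'.mp h2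
      have h3 : d * algebraMap k⟦X⟧ B PowerSeries.X = (PowerSeries.X : k⟦X⟧) • d := by
        rw [Algebra.smul_def, mul_comm]
      rw [h3] at hd
      have h4 := congrArg (fun x => PowerSeries.constantCoeff (bas.repr x i)) hd
      simp only [map_smul, Finsupp.smul_apply, smul_eq_mul, map_mul] at h4
      rw [Module.Basis.repr_sum_self] at h4
      simpa using h4.symm
    have := hli.fintype_card_le_finrank
    simpa using this
  let π : B → A := fun x => gC (π₀ x)
  have hπs : Function.Surjective π := hgC.comp hπ₀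
  choose a' ha' using fun i => hπs (a i)
  choose b' hb' using fun i => hπs (b i)
  let g' : L → Module.Dual k⟦X⟧ B := fun l =>
    bas.constr k⟦X⟧ fun i => (PowerSeries.C (g l (π (bas i))) : k⟦X⟧)
  have hg' : ∀ l x, PowerSeries.constantCoeff (g' l x) = g l (π x) := by
    intro l x
    have h1 : g' l x = ∑ i, bas.repr x i • (PowerSeries.C (g l (π (bas i))) : k⟦X⟧) := by
      simp only [g', Module.Basis.constr_apply_fintype, Module.Basis.equivFun_apply]
    have h2 : π x = ∑ i, PowerSeries.constantCoeff (bas.repr x i) • π (bas i) := by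
      simp only [π]
      conv_lhs => rw [← bas.sum_repr x]
      rw [map_sum, map_sum]
      refine Finset.sum_congr rfl fun i _ => ?_
      rw [hsm, map_smul]
    rw [h1, h2, map_sum, map_sum]
    refine Finset.sum_congr rfl fun i _ => ?_
    rw [smul_eq_mul, map_mul, PowerSeries.constantCoeff_C, LinearMap.map_smul, smul_eq_mul]
  have hfinal := border_of_smoothing het a' b' g'
  have heq : (fun i j l => PowerSeries.constantCoeff (g' l (a' i * b' j))) =
      fun i j l => g l (a i * b j) := by
    funext i j l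
    rw [hg']
    simp only [π, map_mul]
    change g l (π (a' i) * π (b' j)) = _
    rw [ha', hb']
  rw [heq] at hfinal
  exact hfinal.mono (hrank.trans hle)

/-- The tensor `T` is read off from the multiplication of `A`. -/
def Realises (k A : Type) [Field k] [CommRing A] [Algebra k A] {I J L : Type}
    (T : I → J → L → k) : Prop :=
  ∃ (a : I → A) (b : J → A) (g : L → Module.Dual k A), ∀ i j l, T i j l = g l (a i * b j)

lemma realises_tensor {k A A' : Type} [Field k] [CommRing A] [Algebra k A] [CommRing A']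
    [Algebra k A'] {I J L I' J' L' : Type} {T : I → J → L → k} {T' : I' → J' → L' → k}
    (h : Realises k A T) (h' : Realises k A' T') :
    Realises k (A ⊗[k] A') (fun (i : I × I') (j : J × J') (l : L × L') =>
      T i.1 j.1 l.1 * T' i.2 j.2 l.2) := by
  obtain ⟨a, b, g, h⟩ := h
  obtain ⟨a', b', g', h'⟩ := h'
  refine ⟨fun i => a i.1 ⊗ₜ a' i.2, fun j => b j.1 ⊗ₜ b' j.2,
    fun l => (LinearMap.mul' k k).comp (TensorProduct.map (g l.1) (g' l.2)), ?_⟩
  intro i j l
  beta_reduce
  rw [h, h', Algebra.TensorProduct.tmul_mul_tmul]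
  simp

lemma realises_pow {k : Type} [Field k] (A : CommAlgCat.{0} k) {I J L : Type}
    {T : I → J → L → k} (h : Realises k A T) : ∀ n, Realises k (pow k A n)
      (fun (i : Fin n → I) (j : Fin n → J) (l : Fin n → L) => ∏ ν, T (i ν) (j ν) (l ν))
  | 0 => ⟨fun _ => (1 : k), fun _ => (1 : k), fun _ => LinearMap.id, fun i j l => by
      change _ = ((1 : k) * 1)
      simp⟩
  | n + 1 => by
    obtain ⟨a, b, g, h1⟩ := realises_tensor (realises_pow A h n) h
    refine ⟨fun i => a (Fin.init i, i (Fin.last n)), fun j => b (Fin.init j, j (Fin.last n)),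
      fun l => g (Fin.init l, l (Fin.last n)), fun i j l => ?_⟩
    change _ = g (Fin.init l, l (Fin.last n)) (a (Fin.init i, i (Fin.last n)) *
      b (Fin.init j, j (Fin.last n)))
    rw [← h1]
    beta_reduce
    rw [Fin.prod_univ_castSucc]
    rfl

/-- The matrix multiplication tensor with index type `ι`. -/
def MMt (k : Type) [Field k] (ι : Type) [DecidableEq ι] (i j l : ι × ι) : k :=
  if i.2 = j.1 ∧ l.1 = i.1 ∧ l.2 = j.2 then 1 else 0

lemma TRankLE.comp {k I J L I' J' L' : Type} [Field k] {T : I → J → L → k} {r : ℕ}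
    (h : TRankLE T r) (f : I' → I) (g : J' → J) (e : L' → L) :
    TRankLE (fun i j l => T (f i) (g j) (e l)) r := by
  obtain ⟨a, b, c, h⟩ := h
  exact ⟨fun p i => a p (f i), fun p j => b p (g j), fun p l => c p (e l), fun i j l => h _ _ _⟩

lemma MMt_injective {k : Type} [Field k] {ι κ : Type} [DecidableEq ι] [DecidableEq κ] (f : ι → κ)
    (hf : Function.Injective f) (i j l : ι × ι) :
    MMt k κ (f i.1, f i.2) (f j.1, f j.2) (f l.1, f l.2) = MMt k ι i j l := by
  unfold MMt
  simp only [hf.eq_iff]

lemma mmRankLE_iff {k : Type} [Field k] {m r : ℕ} :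
    MMRankLE k m r ↔ TRankLE (MMt k (Fin m)) r := by
  constructor
  · rintro ⟨a, b, c, h⟩
    refine ⟨fun p i => a p (Matrix.single i.1 i.2 1), fun p i => b p (Matrix.single i.1 i.2 1),
      fun p l => c p l.1 l.2, ?_⟩
    intro i j l
    have h1 := congrFun (congrFun (h (Matrix.single i.1 i.2 1) (Matrix.single j.1 j.2 1)) l.1) l.2
    rw [Matrix.sum_apply] at h1
    simp only [Matrix.smul_apply, smul_eq_mul] at h1
    rw [← h1]
    unfold MMt
    by_cases hij : i.2 = j.1
    · rw [← hij, Matrix.single_mul_single_same, Matrix.single_apply]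
      simp only [true_and, mul_one, eq_comm]
    · rw [Matrix.single_mul_single_of_ne _ _ _ _ hij]
      simp [hij]
  · rintro ⟨a, b, c, h⟩
    let fa : Fin r → Module.Dual k (Mat k m) := fun p =>
      ∑ i : Fin m × Fin m, a p i • Matrix.entryLinearMap k k i.1 i.2
    let fb : Fin r → Module.Dual k (Mat k m) := fun p =>
      ∑ i : Fin m × Fin m, b p i • Matrix.entryLinearMap k k i.1 i.2
    refine ⟨fa, fb, fun p => Matrix.of fun u w => c p (u, w), ?_⟩
    intro X Y
    ext u w
    rw [Matrix.sum_apply]
    have h1 : ∀ p, ((fa p X * fb p Y) • (Matrix.of fun u w => c p (u, w) : Mat k m)) u w =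
        ∑ i : Fin m × Fin m, ∑ j : Fin m × Fin m,
          (a p i * b p j * c p (u, w)) * (X i.1 i.2 * Y j.1 j.2) := by
      intro p
      simp only [Matrix.smul_apply, Matrix.of_apply, smul_eq_mul, fa, fb, LinearMap.sum_apply,
        LinearMap.smul_apply, Matrix.entryLinearMap_apply, Finset.sum_mul]
      refine Finset.sum_congr rfl fun i _ => ?_
      rw [mul_assoc, Finset.sum_mul, Finset.mul_sum]
      exact Finset.sum_congr rfl fun j _ => by ring
    simp only [h1]
    rw [Finset.sum_comm]
    have h2 : ∀ i : Fin m × Fin m, (∑ p, ∑ j : Fin m × Fin m,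
        (a p i * b p j * c p (u, w)) * (X i.1 i.2 * Y j.1 j.2)) =
        ∑ j : Fin m × Fin m, MMt k (Fin m) i j (u, w) * (X i.1 i.2 * Y j.1 j.2) := by
      intro i
      rw [Finset.sum_comm]
      refine Finset.sum_congr rfl fun j _ => ?_
      rw [h, Finset.sum_mul]
    simp only [h2]
    rw [Matrix.mul_apply]
    unfold MMt
    simp only [Fintype.sum_prod_type]
    simp [ite_and, Finset.sum_ite_eq, Finset.sum_ite_eq']

end Pool.Agent.H869R3
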