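import Pool.Agent.H869R3.Lower

set_option autoImplicit false

namespace Pool.Agent.H869R3

open scoped TensorProduct PowerSeries
open QAlg Filter Topology

/-- Matrix multiplication of size `q` inside `Abar m` for `3 q ≤ m`. -/
lemma realises_Abar (k : Type) [Field k] {m q : ℕ} (hq : 3 * q ≤ m) :
    Realises k (Abar k m) (MMt k (Fin q)) := by
  let f0 : Fin q → Fin m := fun u => ⟨u, by omega⟩
  let f1 : Fin q → Fin m := fun u => ⟨q + u, by omega⟩
  let f2 : Fin q → Fin m := fun u => ⟨2 * q + u, by omega⟩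
  have h0 : ∀ u v, f0 u = f0 v ↔ u = v := fun u v => by
    simp only [f0, Fin.mk.injEq, Fin.ext_iff]
  have h1 : ∀ u v, f1 u = f1 v ↔ u = v := fun u v => by
    simp only [f1, Fin.mk.injEq, Fin.ext_iff]; omega
  have h2 : ∀ u v, f2 u = f2 v ↔ u = v := fun u v => by
    simp only [f2, Fin.mk.injEq, Fin.ext_iff]; omega
  have h20 : ∀ u v, f2 u ≠ f0 v := fun u v => by
    simp only [f2, f0, ne_eq, Fin.mk.injEq]; omega
  let a : Fin q × Fin q → QAlg (anti k m) (anti_comm k m) := fun i =>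
    ((0 : k), (Matrix.single (f0 i.1) (f1 i.2) 1 : Mat k m), (0 : Mat k m))
  let b : Fin q × Fin q → QAlg (anti k m) (anti_comm k m) := fun i =>
    ((0 : k), (Matrix.single (f1 i.1) (f2 i.2) 1 : Mat k m), (0 : Mat k m))
  let g : Fin q × Fin q → Module.Dual k (QAlg (anti k m) (anti_comm k m)) := fun l =>
    { toFun := fun x => x.2.2 (f0 l.1) (f2 l.2)
      map_add' := fun _ _ => rfl
      map_smul' := fun _ _ => rfl }
  refine ⟨a, b, g, fun i j l => ?_⟩
  change _ = ((0 : k) • (0 : Mat k m) + (0 : k) • (0 : Mat k m) +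
    ((Matrix.single (f0 i.1) (f1 i.2) 1 : Mat k m) * (Matrix.single (f1 j.1) (f2 j.2) 1 : Mat k m) +
    (Matrix.single (f1 j.1) (f2 j.2) 1 : Mat k m) * (Matrix.single (f0 i.1) (f1 i.2) 1 : Mat k m)))
    (f0 l.1) (f2 l.2)
  rw [Matrix.single_mul_single_of_ne _ _ _ _ (h20 _ _), smul_zero, zero_add, zero_add, add_zero]
  unfold MMt
  by_cases hij : i.2 = j.1
  · rw [← hij, Matrix.single_mul_single_same, Matrix.single_apply]
    simp only [h0, h2, true_and, mul_one, eq_comm]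
  · rw [Matrix.single_mul_single_of_ne _ _ _ _ (fun h => hij ((h1 _ _).mp h))]
    simp [hij]

/-- The Kronecker powers of the matrix multiplication tensor. -/
lemma MMt_prod {k : Type} [Field k] {κ ι : Type} [Fintype κ] [DecidableEq ι]
    [DecidableEq (κ → ι)] (i j l : (κ → ι) × (κ → ι)) :
    MMt k (κ → ι) i j l = ∏ ν, MMt k ι (i.1 ν, i.2 ν) (j.1 ν, j.2 ν) (l.1 ν, l.2 ν) := by
  by_cases h : i.2 = j.1 ∧ l.1 = i.1 ∧ l.2 = j.2
  · obtain ⟨h1, h2, h3⟩ := h
    unfold MMt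
    rw [if_pos ⟨h1, h2, h3⟩]
    refine (Finset.prod_eq_one fun ν _ => ?_).symm
    rw [if_pos ⟨congrFun h1 ν, congrFun h2 ν, congrFun h3 ν⟩]
  · have h' : ∃ ν, ¬ (i.2 ν = j.1 ν ∧ l.1 ν = i.1 ν ∧ l.2 ν = j.2 ν) := by
      by_contra hcon
      push Not at hcon
      exact h ⟨funext fun ν => (hcon ν).1, funext fun ν => (hcon ν).2.1,
        funext fun ν => (hcon ν).2.2⟩
    obtain ⟨ν, hν⟩ := h'
    have h2 : MMt k (κ → ι) i j l = 0 := if_neg h
    rw [h2]
    refine (Finset.prod_eq_zero (Finset.mem_univ ν) ?_).symm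
    exact if_neg hν

lemma mmRank_mono (k : Type) [Field k] {m M : ℕ} (h : m ≤ M) : mmRank k m ≤ mmRank k M := by
  apply Nat.sInf_le
  change MMRankLE k m (mmRank k M)
  have h1 := mmRankLE_iff.mp (mmRank_spec k M)
  rw [mmRankLE_iff]
  have h2 := h1.comp (fun i : Fin m × Fin m => (Fin.castLE h i.1, Fin.castLE h i.2))
    (fun i : Fin m × Fin m => (Fin.castLE h i.1, Fin.castLE h i.2))
    (fun i : Fin m × Fin m => (Fin.castLE h i.1, Fin.castLE h i.2))
  have h3 : (fun i j l : Fin m × Fin m => MMt k (Fin M) (Fin.castLE h i.1, Fin.castLE h i.2)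
      (Fin.castLE h j.1, Fin.castLE h j.2) (Fin.castLE h l.1, Fin.castLE h l.2)) =
      MMt k (Fin m) := by
    funext i j l
    exact MMt_injective _ (Fin.castLE_injective h) i j l
  rwa [h3] at h2

/-- The rank of matrix multiplication of size `(q ^ n) ^ N` in terms of the defect of the `n`-th power
of `Abar m`. -/
theorem mmRank_le_of_defect {k : Type} [Field k] [Infinite k] {m q n j : ℕ} (hq : 3 * q ≤ m)
    (h : DefectLE k (pow k (Abar k m) n) j) (N : ℕ) :
    mmRank k ((q ^ n) ^ N) ≤ (N + 1) ^ ((q * q) ^ n * ((q * q) ^ n * (q * q) ^ n)) *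
      (Module.finrank k (pow k (Abar k m) n) + j) ^ N := by
  classical
  obtain ⟨a, b, g, hT⟩ := realises_pow (Abar k m) (realises_Abar k hq) n
  have h1 := defect_border h a b g
  have h2 : (fun i j l => g l (a i * b j)) = (fun (i : Fin n → Fin q × Fin q)
      (j : Fin n → Fin q × Fin q) (l : Fin n → Fin q × Fin q) =>
        ∏ ν, MMt k (Fin q) (i ν) (j ν) (l ν)) := by
    funext i j l
    exact (hT i j l).symm
  rw [h2] at h1
  have h3 := kronecker_rank h1 N
  have h4 := h3.comp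
    (fun (i : (Fin N → Fin n → Fin q) × (Fin N → Fin n → Fin q)) ν μ => (i.1 ν μ, i.2 ν μ))
    (fun (i : (Fin N → Fin n → Fin q) × (Fin N → Fin n → Fin q)) ν μ => (i.1 ν μ, i.2 ν μ))
    (fun (i : (Fin N → Fin n → Fin q) × (Fin N → Fin n → Fin q)) ν μ => (i.1 ν μ, i.2 ν μ))
  have h5 : (fun (i j l : (Fin N → Fin n → Fin q) × (Fin N → Fin n → Fin q)) =>
      ∏ ν, ∏ μ, MMt k (Fin q) (i.1 ν μ, i.2 ν μ) (j.1 ν μ, j.2 ν μ) (l.1 ν μ, l.2 ν μ)) =
      MMt k (Fin N → Fin n → Fin q) := by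
    funext i j l
    rw [MMt_prod]
    refine Finset.prod_congr rfl fun ν _ => ?_
    rw [MMt_prod]
  rw [h5] at h4
  -- reindex
  let e : (Fin N → Fin n → Fin q) ≃ Fin ((q ^ n) ^ N) :=
    Fintype.equivFinOfCardEq (by simp)
  have h6 := h4.comp (fun i : Fin ((q ^ n) ^ N) × Fin ((q ^ n) ^ N) => (e.symm i.1, e.symm i.2))
    (fun i : Fin ((q ^ n) ^ N) × Fin ((q ^ n) ^ N) => (e.symm i.1, e.symm i.2))
    (fun i : Fin ((q ^ n) ^ N) × Fin ((q ^ n) ^ N) => (e.symm i.1, e.symm i.2))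
  have h7 : (fun i j l : Fin ((q ^ n) ^ N) × Fin ((q ^ n) ^ N) =>
      MMt k (Fin N → Fin n → Fin q) (e.symm i.1, e.symm i.2) (e.symm j.1, e.symm j.2)
        (e.symm l.1, e.symm l.2)) = MMt k (Fin ((q ^ n) ^ N)) := by
    funext i j l
    exact MMt_injective _ e.symm.injective i j l
  rw [h7] at h6
  have h8 := mmRankLE_iff.mpr h6
  have h9 : mmRank k ((q ^ n) ^ N) ≤ _ := Nat.sInf_le h8
  refine h9.trans (le_of_eq ?_)
  congr 2
  simp

end Pool.Agent.H869R3
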