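import Pool.Agent.H869R3.QAlg

set_option autoImplicit false

namespace Pool.Agent.H869R3

/-- Square matrices. -/
abbrev Mat (k : Type) (m : ℕ) : Type := Matrix (Fin m) (Fin m) k

/-- The symmetric bilinear map `(X, Y) ↦ X Y + Y X` on `m × m` matrices, the polarisation of
`X ↦ X²`. -/
def anti (k : Type) [Field k] (m : ℕ) : Mat k m →ₗ[k] Mat k m →ₗ[k] Mat k m :=
  LinearMap.mk₂ k (fun X Y => X * Y + Y * X)
    (by intro X X' Y; rw [add_mul, mul_add]; abel)
    (by intro c X Y; rw [smul_mul_assoc, mul_smul_comm, smul_add])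
    (by intro X Y Y'; rw [add_mul, mul_add]; abel)
    (by intro c X Y; rw [smul_mul_assoc, mul_smul_comm, smul_add])

lemma anti_comm (k : Type) [Field k] (m : ℕ) (X Y : Mat k m) : anti k m X Y = anti k m Y X :=
  add_comm (X * Y) (Y * X)

/-- The algebra `k ⊕ M_m ⊕ M_m` in which the product of two elements `X, Y` of degree one is
`X Y + Y X`, in degree two. For `char k ≠ 2, 3` it is the algebra `A_m / 𝔪³`, where `A_m` is the
apolar algebra of the cubic `tr X³` with maximal ideal `𝔪`. -/
noncomputable def Abar (k : Type) [Field k] (m : ℕ) : CommAlgCat.{0} k :=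
  CommAlgCat.of k (QAlg (anti k m) (anti_comm k m))

/-- The tensor of `m × m` matrix multiplication has rank at most `r`. -/
def MMRankLE (k : Type) [Field k] (m r : ℕ) : Prop :=
  ∃ (a b : Fin r → Module.Dual k (Mat k m)) (c : Fin r → Mat k m),
    ∀ X Y : Mat k m, X * Y = ∑ i, (a i X * b i Y) • c i

/-- The rank of the tensor of `m × m` matrix multiplication. -/
noncomputable def mmRank (k : Type) [Field k] (m : ℕ) : ℕ := sInf {r | MMRankLE k m r}

/-- The exponent `ω` of matrix multiplication over `k`. -/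
noncomputable def omega (k : Type) [Field k] : ℝ :=
  sInf {τ : ℝ | ∃ C : ℝ, ∀ m : ℕ, 1 ≤ m → (mmRank k m : ℝ) ≤ C * (m : ℝ) ^ τ}

end Pool.Agent.H869R3
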