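import Pool.Agent.H869R3.Quad
import Pool.Agent.H869R3.MMDefs

set_option autoImplicit false

namespace Pool.Agent.H869R3

open QAlg Filter Topology

lemma mmRankLE_of_fintype {k : Type} [Field k] {m : ℕ} {ι : Type} [Fintype ι]
    (a b : ι → Module.Dual k (Mat k m)) (c : ι → Mat k m)
    (h : ∀ X Y : Mat k m, X * Y = ∑ i, (a i X * b i Y) • c i) : MMRankLE k m (Fintype.card ι) := by
  let e := Fintype.equivFin ι
  refine ⟨fun i => a (e.symm i), fun i => b (e.symm i), fun i => c (e.symm i), ?_⟩
  intro X Y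
  rw [h, ← e.symm.sum_comp]

lemma mmRankLE_cube (k : Type) [Field k] (m : ℕ) : MMRankLE k m (m ^ 3) := by
  have h := mmRankLE_of_fintype (k := k) (m := m) (ι := Fin m × Fin m × Fin m)
    (fun p => Matrix.entryLinearMap k k p.1 p.2.1) (fun p => Matrix.entryLinearMap k k p.2.1 p.2.2)
    (fun p => Matrix.single p.1 p.2.2 1) (by
      intro X Y
      ext i l
      rw [Matrix.mul_apply, Matrix.sum_apply, Fintype.sum_prod_type]
      simp only [Matrix.smul_apply, Matrix.single_apply, Matrix.entryLinearMap_apply, smul_eq_mul,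
        Fintype.sum_prod_type]
      simp [Finset.sum_ite_eq, ite_and])
  simpa [pow_succ, mul_assoc] using h

lemma mmRank_spec (k : Type) [Field k] (m : ℕ) : MMRankLE k m (mmRank k m) :=
  Nat.sInf_mem (s := {r | MMRankLE k m r}) ⟨_, mmRankLE_cube k m⟩

lemma mmRank_le_cube (k : Type) [Field k] (m : ℕ) : mmRank k m ≤ m ^ 3 :=
  Nat.sInf_le (mmRankLE_cube k m)

lemma sq_le_of_mmRankLE {k : Type} [Field k] {m r : ℕ} (h : MMRankLE k m r) : m ^ 2 ≤ r := by
  obtain ⟨a, b, c, h⟩ := h
  have h1 : Submodule.span k (Set.range c) = ⊤ := by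
    rw [eq_top_iff]
    intro X _
    have := h X 1
    rw [mul_one] at this
    rw [this]
    exact Submodule.sum_mem _ fun i _ => Submodule.smul_mem _ _ (Submodule.subset_span ⟨i, rfl⟩)
  have h2 := finrank_range_le_card (R := k) c
  rw [Set.finrank, h1, finrank_top, Module.finrank_matrix] at h2
  simpa [sq] using h2

lemma sq_le_mmRank (k : Type) [Field k] (m : ℕ) : m ^ 2 ≤ mmRank k m :=
  sq_le_of_mmRankLE (mmRank_spec k m)

instance (k : Type) [Field k] (m : ℕ) : Module.Finite k (Abar k m) :=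
  inferInstanceAs (Module.Finite k (QAlg (anti k m) (anti_comm k m)))

lemma finrank_Abar (k : Type) [Field k] (m : ℕ) : Module.finrank k (Abar k m) = 1 + 2 * m ^ 2 := by
  have h := QAlg.finrank_eq (anti k m) (anti_comm k m)
  rw [Module.finrank_matrix] at h
  have h2 : Module.finrank k (Abar k m) = Module.finrank k (QAlg (anti k m) (anti_comm k m)) := rfl
  rw [h2, h]
  simp
  ring

lemma wit_Abar {k : Type} [Field k] (h2 : (2 : k) ≠ 0) {m r : ℕ} (h : MMRankLE k m r) :
    Wit k (Abar k m) (1 + m ^ 2 + 2 * r) := by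
  obtain ⟨a, b, c, h⟩ := h
  have hw := wit_quad (V := Mat k m) (U := Mat k m) ⟨-1, by simp, fun hc => h2 (by
      have : (1 : k) + 1 = 0 := by
        nth_rewrite 1 [← hc]; ring
      rw [← one_add_one_eq_two, this])⟩ (anti k m) (anti_comm k m)
    (ι := Fin r ⊕ Fin r)
    (Sum.elim (fun i => a i + b i) (fun i => a i - b i))
    (Sum.elim (fun i => (2 : k)⁻¹ • c i) (fun i => (-(2 : k)⁻¹) • c i)) (by
      intro X Y
      change X * Y + Y * X = _
      rw [Fintype.sum_sum_type, h X Y, h Y X, ← Finset.sum_add_distrib, ← Finset.sum_add_distrib]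
      refine Finset.sum_congr rfl fun i _ => ?_
      simp only [Sum.elim_inl, Sum.elim_inr, LinearMap.add_apply, LinearMap.sub_apply, smul_smul,
        ← add_smul]
      congr 1
      field_simp
      ring) (by
      intro X hX
      have h1 := hX 1
      change X * 1 + 1 * X = 0 at h1
      rw [mul_one, one_mul, ← two_smul k X] at h1
      exact (smul_eq_zero.mp h1).resolve_left h2) (by
      rw [eq_top_iff]
      intro X _
      refine Submodule.subset_span ⟨((2 : k)⁻¹ • X, 1), ?_⟩
      change ((2 : k)⁻¹ • X) * 1 + 1 * ((2 : k)⁻¹ • X) = X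
      rw [mul_one, one_mul, ← two_smul k, smul_smul, mul_inv_cancel₀ h2, one_smul])
  rw [Module.finrank_matrix] at hw
  have hc : 1 + Fintype.card (Fin m) * Fintype.card (Fin m) * Module.finrank k k +
      Fintype.card (Fin r ⊕ Fin r) = 1 + m ^ 2 + 2 * r := by
    simp; ring
  rw [hc] at hw
  exact hw

end Pool.Agent.H869R3
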