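import Pool.Agent.H869R3.MultiKron
import Pool.Agent.H869R3.Asym

set_option autoImplicit false

namespace Pool.Agent.H869R3.Multi

open Filter Topology

section

variable {k : Type} [Field k]

/-- If an algebra has a witness `D` with `D / d ^ s ≤ 1 / 2`, the ratio tends to zero. -/
lemma ratio_of_wit (A : CommAlgCat.{0} k) [Module.Finite k A] {D : ℕ} (h : Wit k A D) {s : ℝ}
    (hd : 1 ≤ Module.finrank k A)
    (hratio : (D : ℝ) ≤ 1 / 2 * (Module.finrank k A : ℝ) ^ s) : RatioTendsToZero k A s := by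
  have hd0 : (0 : ℝ) < (Module.finrank k A : ℝ) := by exact_mod_cast hd
  set d : ℝ := (Module.finrank k A : ℝ) with hd_def
  have hθ0 : 0 < d ^ s := Real.rpow_pos_of_pos hd0 _
  have hr : (D : ℝ) / d ^ s ≤ 1 / 2 := by rwa [div_le_iff₀ hθ0]
  have hbound : ∀ n : ℕ, (defect k (pow k A n) : ℝ) / (d ^ (s * n)) ≤ (1 / 2 : ℝ) ^ n := by
    intro n
    have h3 : defect k (pow k A n) ≤ D ^ n :=
      (defect_le (pow_defectLE A h n)).trans (Nat.sub_le _ _)
    have h4 : (defect k (pow k A n) : ℝ) ≤ (D : ℝ) ^ n := by exact_mod_cast h3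
    have h5 : d ^ (s * n) = (d ^ s) ^ n := by
      rw [Real.rpow_mul hd0.le, Real.rpow_natCast]
    rw [h5]
    calc (defect k (pow k A n) : ℝ) / (d ^ s) ^ n ≤ (D : ℝ) ^ n / (d ^ s) ^ n := by gcongr
      _ = ((D : ℝ) / d ^ s) ^ n := by rw [div_pow]
      _ ≤ (1 / 2 : ℝ) ^ n := pow_le_pow_left₀ (by positivity) hr n
  exact squeeze_zero (fun n => by positivity) hbound
    (tendsto_pow_atTop_nhds_zero_of_lt_one (by norm_num) (by norm_num))

variable {m : ℕ} {J : Fin m → Type} [∀ i, Fintype (J i)]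

/-- The limit statement bounds the asymptotic rank. -/
lemma asymRank_le_of_ratio [Infinite k] (hm : 0 < m) (T : (∀ i, J i) → k) {s : ℝ}
    (hs : 1 ≤ s) (hd1' : 1 ≤ Module.finrank k (apolar T)) (h : RatioTendsToZero k (apolar T) s) :
    asymRank T ≤ (Module.finrank k (apolar T) : ℝ) ^ s := by
  by_contra hlt
  push Not at hlt
  set d : ℝ := (Module.finrank k (apolar T) : ℝ) with hd
  have hd1 : 1 ≤ d := by rw [hd]; exact_mod_cast hd1'
  have hd0 : 0 < d := by linarith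
  have hds : 0 < d ^ s := Real.rpow_pos_of_pos hd0 _
  have hratio : 1 < asymRank T / d ^ s := by rwa [lt_div_iff₀ hds, one_mul]
  obtain ⟨r', _, hw⟩ := wit_apolar (trank_spec hm T)
  have hpow : ∀ᶠ n : ℕ in atTop, (asymRank T / d ^ s) ^ n ≤ 2 := by
    filter_upwards [h.eventually_lt_const (show (0 : ℝ) < 1 by norm_num)] with n hn
    have hdsn : 0 < d ^ (s * n) := Real.rpow_pos_of_pos hd0 _
    rw [div_lt_one hdsn] at hn
    have hmem : DefectLE k (pow k (apolar T) n) (defect k (pow k (apolar T) n)) :=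
      Nat.sInf_mem (s := {j | DefectLE k (pow k (apolar T) n) j})
        ⟨_, pow_defectLE (apolar T) hw n⟩
    have h1 := lower hm T (apolar T) hd1' (realises_apolar T) hmem
    push_cast at h1
    rw [← hd] at h1
    have h3 : d ^ n ≤ d ^ (s * n) := by
      rw [← Real.rpow_natCast]
      apply Real.rpow_le_rpow_of_exponent_le hd1
      nlinarith [(Nat.cast_nonneg n : (0 : ℝ) ≤ n)]
    have h4 : asymRank T ^ n ≤ 2 * d ^ (s * n) := by linarith
    have h5 : (d ^ s) ^ n = d ^ (s * n) := by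
      rw [Real.rpow_mul hd0.le, Real.rpow_natCast]
    rw [div_pow, h5, div_le_iff₀ hdsn]
    exact h4
  have htop := tendsto_pow_atTop_atTop_of_one_lt hratio
  obtain ⟨n, h1, h3⟩ := (hpow.and (htop.eventually_gt_atTop 2)).exists
  linarith

/-- The limit statement for the apolar algebras of the Kronecker powers of `T` bounds the asymptotic
rank of `T` by the largest flattening rank. -/
theorem asymRank_le_maxFlat [Infinite k] (hm : 0 < m) (T : (∀ i, J i) → k)
    (hM : 1 ≤ maxFlat T)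
    (h : ∀ ε > 0, ∃ j₀ : ℕ, ∀ j ≥ j₀, RatioTendsToZero k (apolar (kpow T j)) (1 + ε)) :
    asymRank T ≤ maxFlat T := by
  by_contra hlt
  push Not at hlt
  obtain ⟨M, hMdef⟩ : ∃ M : ℝ, M = (maxFlat T : ℝ) := ⟨_, rfl⟩
  rw [← hMdef] at hlt
  have hM1 : 1 ≤ M := by rw [hMdef]; exact_mod_cast hM
  have hM0 : 0 < M := by linarith
  have hdim : ∀ j, Module.finrank k (apolar (kpow T j)) ≤ 2 ^ m * maxFlat T ^ j := by
    intro j
    rw [← maxFlat_kpow]
    exact finrank_apolar_le' _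
  have hdim' : ∀ j, 1 ≤ Module.finrank k (apolar (kpow T j)) := by
    intro j
    refine le_trans ?_ (maxFlat_le (realises_apolar (kpow T j)))
    rw [maxFlat_kpow]
    exact Nat.one_le_pow _ _ hM
  -- choose `ε`
  have hcont : Tendsto (fun ε : ℝ => M ^ (1 + ε)) (𝓝[>] 0) (𝓝 (M ^ (1 + (0 : ℝ)))) := by
    have h1 : Continuous fun ε : ℝ => M ^ (1 + ε) :=
      Continuous.rpow continuous_const (continuous_const.add continuous_id) fun _ => Or.inl hM0.ne'
    exact (h1.tendsto 0).mono_left nhdsWithin_le_nhds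
  rw [add_zero, Real.rpow_one] at hcont
  obtain ⟨ε, hε1, hε0⟩ := ((hcont.eventually_lt_const hlt).and self_mem_nhdsWithin).exists
  obtain ⟨j₀, hj₀⟩ := h ε hε0
  have hMε : 0 < M ^ (1 + ε) := Real.rpow_pos_of_pos hM0 _
  have hratio : 1 < asymRank T / M ^ (1 + ε) := by rwa [lt_div_iff₀ hMε, one_mul]
  have htop := tendsto_pow_atTop_atTop_of_one_lt hratio
  obtain ⟨j, h1, h3, h4⟩ := ((htop.eventually_gt_atTop (((2 : ℝ) ^ m) ^ (1 + ε))).and
    ((eventually_ge_atTop j₀).and (eventually_ge_atTop 1))).exists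
  have h5 := asymRank_le_of_ratio hm (kpow T j) (by linarith [show (0 : ℝ) < ε from hε0])
    (hdim' j) (hj₀ j h3)
  have h6 := (asymRank_pow_le_asymRank hm T h4).trans h5
  have h7 : (Module.finrank k (apolar (kpow T j)) : ℝ) ≤ 2 ^ m * M ^ j := by
    rw [hMdef]
    exact_mod_cast hdim j
  have h8 : asymRank T ^ j ≤ ((2 : ℝ) ^ m) ^ (1 + ε) * (M ^ (1 + ε)) ^ j := by
    refine h6.trans ?_
    have h9 : (Module.finrank k (apolar (kpow T j)) : ℝ) ^ (1 + ε) ≤ (2 ^ m * M ^ j) ^ (1 + ε) :=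
      Real.rpow_le_rpow (Nat.cast_nonneg _) h7 (by linarith [show (0 : ℝ) < ε from hε0])
    refine h9.trans (le_of_eq ?_)
    rw [Real.mul_rpow (by positivity) (by positivity), ← Real.rpow_natCast M,
      ← Real.rpow_mul hM0.le, ← Real.rpow_natCast (M ^ (1 + ε)), ← Real.rpow_mul hM0.le,
      mul_comm (j : ℝ)]
  rw [div_pow, lt_div_iff₀ (by positivity)] at h1
  linarith

/-- If `R̃(T)` is at most the largest flattening rank, the limit statement of Q1 holds, for every `ε`,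
for the apolar algebras of all large Kronecker powers of `T`. -/
theorem ratio_of_asymRank_le (hm : 0 < m) (T : (∀ i, J i) → k)
    (hM : 2 ≤ maxFlat T) (hT : asymRank T ≤ maxFlat T) {ε : ℝ} (hε : 0 < ε) :
    ∃ j₀ : ℕ, ∀ j ≥ j₀, RatioTendsToZero k (apolar (kpow T j)) (1 + ε) := by
  obtain ⟨M, hMdef⟩ : ∃ M : ℝ, M = (maxFlat T : ℝ) := ⟨_, rfl⟩
  rw [← hMdef] at hT
  have hM2 : 2 ≤ M := by rw [hMdef]; exact_mod_cast hM
  have hM0 : 0 < M := by linarith
  have hM1 : 1 < M := by linarith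
  set B : ℝ := M ^ (1 + ε / 2) with hB
  have hMB : M < B := by
    rw [hB]
    nth_rewrite 1 [← Real.rpow_one M]
    exact (Real.rpow_lt_rpow_left_iff hM1).mpr (by linarith)
  have hB0 : 0 < B := by linarith
  have hB1 : 1 ≤ B := by linarith
  obtain ⟨_, ⟨N0, hN0, rfl⟩, hlt⟩ := exists_lt_of_csInf_lt
    (s := {x : ℝ | ∃ N : ℕ, 1 ≤ N ∧ x = (trank (kpow T N) : ℝ) ^ ((N : ℝ)⁻¹)})
    ⟨_, 1, le_rfl, rfl⟩ (lt_of_le_of_lt hT hMB)
  set r0 := trank (kpow T N0) with hr0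
  have hN0' : (N0 : ℝ) ≠ 0 := by positivity
  have hr0B : (r0 : ℝ) ≤ B ^ N0 := by
    have h1 : ((r0 : ℝ) ^ ((N0 : ℝ)⁻¹)) ^ N0 ≤ B ^ N0 :=
      pow_le_pow_left₀ (by positivity) hlt.le _
    rwa [← Real.rpow_natCast, ← Real.rpow_mul (Nat.cast_nonneg _), inv_mul_cancel₀ hN0',
      Real.rpow_one] at h1
  set R1 := trank T with hR1
  set C1 : ℝ := ((R1 : ℝ) + 1) ^ N0 with hC1
  have hC10 : 0 < C1 := by positivity
  -- the ranks of the powers
  have hrank : ∀ j : ℕ, ∃ r : ℕ, RankLE (kpow T j) r ∧ (r : ℝ) ≤ C1 * B ^ j := by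
    intro j
    refine ⟨r0 ^ (j / N0) * R1 ^ (j % N0), ?_, ?_⟩
    · have h1 := kpow_mul_rank (trank_spec hm (kpow T N0)) (j / N0)
      have h3 : RankLE (kpow T (j % N0)) (R1 ^ (j % N0)) := rank_pow (trank_spec hm T) _
      have h4 := kpow_add_rank h1 h3
      rwa [Nat.div_add_mod] at h4
    · push_cast
      have h1 : ((r0 : ℝ)) ^ (j / N0) ≤ B ^ j := by
        calc ((r0 : ℝ)) ^ (j / N0) ≤ (B ^ N0) ^ (j / N0) :=
              pow_le_pow_left₀ (Nat.cast_nonneg _) hr0B _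
          _ = B ^ (N0 * (j / N0)) := by rw [pow_mul]
          _ ≤ B ^ j := pow_le_pow_right₀ hB1 (Nat.mul_div_le j N0)
      have h3 : ((R1 : ℝ)) ^ (j % N0) ≤ C1 := by
        calc ((R1 : ℝ)) ^ (j % N0) ≤ ((R1 : ℝ) + 1) ^ (j % N0) :=
              pow_le_pow_left₀ (Nat.cast_nonneg _) (by linarith) _
          _ ≤ C1 := pow_le_pow_right₀ (by linarith [(Nat.cast_nonneg R1 : (0 : ℝ) ≤ R1)])
              (Nat.mod_lt _ hN0).le
      calc ((r0 : ℝ)) ^ (j / N0) * ((R1 : ℝ)) ^ (j % N0) ≤ B ^ j * C1 :=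
            mul_le_mul h1 h3 (by positivity) (by positivity)
        _ = C1 * B ^ j := mul_comm _ _
  -- the final comparison
  have hq0 : 0 ≤ M ^ (-(ε / 2)) := by positivity
  have hq1 : M ^ (-(ε / 2)) < 1 := Real.rpow_lt_one_of_one_lt_of_neg hM1 (by linarith)
  have hlim : Tendsto (fun j : ℕ => (C1 * 2 ^ m) * (M ^ (-(ε / 2))) ^ j) atTop
      (𝓝 ((C1 * 2 ^ m) * 0)) := (tendsto_pow_atTop_nhds_zero_of_lt_one hq0 hq1).const_mul _
  rw [mul_zero] at hlim
  obtain ⟨j₀, hj₀⟩ := eventually_atTop.mp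
    (hlim.eventually_lt_const (show (0 : ℝ) < 1 / 2 by norm_num))
  refine ⟨j₀, fun j hj => ?_⟩
  obtain ⟨r, hr, hrB⟩ := hrank j
  obtain ⟨r', hr', hw⟩ := wit_apolar hr
  have hd : maxFlat T ^ j ≤ Module.finrank k (apolar (kpow T j)) := by
    rw [← maxFlat_kpow]
    exact maxFlat_le (realises_apolar (kpow T j))
  have hd1 : 1 ≤ maxFlat T ^ j := Nat.one_le_pow _ _ (by omega)
  refine ratio_of_wit _ hw (hd1.trans hd) ?_
  have hD : (r' : ℝ) ≤ (C1 * 2 ^ m) * B ^ j := by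
    have h1 : (r' : ℝ) ≤ r * 2 ^ m := by exact_mod_cast hr'
    calc (r' : ℝ) ≤ r * 2 ^ m := h1
      _ ≤ (C1 * B ^ j) * 2 ^ m := mul_le_mul_of_nonneg_right hrB (by positivity)
      _ = (C1 * 2 ^ m) * B ^ j := by ring
  have hdj : M ^ j ≤ (Module.finrank k (apolar (kpow T j)) : ℝ) := by
    rw [hMdef]
    exact_mod_cast hd
  have hBM : B ^ j = (M ^ (-(ε / 2))) ^ j * (M ^ j) ^ (1 + ε) := by
    rw [hB, ← Real.rpow_natCast, ← Real.rpow_mul hM0.le, ← Real.rpow_natCast,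
      ← Real.rpow_mul hM0.le, ← Real.rpow_natCast, ← Real.rpow_mul hM0.le, ← Real.rpow_add hM0]
    congr 1
    ring
  calc _ ≤ (C1 * 2 ^ m) * B ^ j := hD
    _ = ((C1 * 2 ^ m) * (M ^ (-(ε / 2))) ^ j) * (M ^ j) ^ (1 + ε) := by rw [hBM]; ring
    _ ≤ 1 / 2 * (M ^ j) ^ (1 + ε) :=
        mul_le_mul_of_nonneg_right (hj₀ j hj).le (by positivity)
    _ ≤ 1 / 2 * (Module.finrank k (apolar (kpow T j)) : ℝ) ^ (1 + ε) := by
        have := Real.rpow_le_rpow (by positivity) hdj (show 0 ≤ 1 + ε by linarith)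
        linarith

/-- The rank is at least every flattening rank. -/
lemma maxFlat_le_of_rank {T : (∀ i, J i) → k} {r : ℕ} (h : RankLE T r) : maxFlat T ≤ r := by
  obtain ⟨l, h⟩ := h
  have h1 : Realises k (Fin r → k) T := by
    refine ⟨fun i b ρ => l ρ i b, ∑ ρ, LinearMap.proj ρ, fun x => ?_⟩
    rw [h, LinearMap.sum_apply]
    refine Finset.sum_congr rfl fun ρ _ => ?_
    rw [LinearMap.proj_apply, Finset.prod_apply]
  refine (maxFlat_le h1).trans ?_
  simp

/-- The asymptotic rank is at least every flattening rank. -/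
lemma maxFlat_le_asymRank (hm : 0 < m) (T : (∀ i, J i) → k) : (maxFlat T : ℝ) ≤ asymRank T := by
  refine le_csInf ⟨_, 1, le_rfl, rfl⟩ ?_
  rintro _ ⟨N, hN, rfl⟩
  have h1 : maxFlat (kpow T N) ≤ trank (kpow T N) := maxFlat_le_of_rank (trank_spec hm _)
  rw [maxFlat_kpow] at h1
  have h2 : ((maxFlat T : ℝ)) ^ N ≤ (trank (kpow T N) : ℝ) := by exact_mod_cast h1
  have hN0 : (N : ℝ) ≠ 0 := by positivity
  have h3 : (((maxFlat T : ℝ)) ^ N) ^ ((N : ℝ)⁻¹) = maxFlat T := by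
    rw [← Real.rpow_natCast, ← Real.rpow_mul (Nat.cast_nonneg _), mul_inv_cancel₀ hN0,
      Real.rpow_one]
  rw [← h3]
  exact Real.rpow_le_rpow (by positivity) h2 (by positivity)

lemma asymRank_zero (hm : 0 < m) : asymRank (0 : (∀ i, J i) → k) = 0 := by
  apply le_antisymm _ (asymRank_nonneg _)
  have h1 : RankLE (kpow (0 : (∀ i, J i) → k) 1) 0 := by
    refine ⟨fun ρ => ρ.elim0, fun x => ?_⟩
    simp [kpow]
  have h2 := asymRank_pow_le (0 : (∀ i, J i) → k) le_rfl h1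
  simpa using h2

lemma maxFlat_zero : maxFlat (0 : (∀ i, J i) → k) = 0 := by
  apply Nat.le_zero.mp
  refine Finset.sup_le fun S _ => ?_
  have h1 : flattening (0 : (∀ i, J i) → k) S = 0 := by
    ext x y
    rfl
  rw [h1, Matrix.rank_zero]

end

end Pool.Agent.H869R3.Multi
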