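import Pool.Agent.H869R3.Core

set_option autoImplicit false

namespace Pool.Agent.H869R3

open scoped TensorProduct PowerSeries
open PowerSeries

section order

variable {k : Type} [Field k] {ι : Type} [Fintype ι]

/-- An order in `k⟦X⟧ ^ ι` containing a nonzero multiple of everything is generically étale of rank
`|ι|`. -/
lemma order_etale (B : Subalgebra k⟦X⟧ (ι → k⟦X⟧)) {D : k⟦X⟧} (hD : D ≠ 0)
    (hB : ∀ g : ι → k⟦X⟧, D • g ∈ B) :
    Algebra.Etale (LaurentSeries k) (LaurentSeries k ⊗[k⟦X⟧] B) ∧ Module.Finite k⟦X⟧ B ∧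
      Module.Free k⟦X⟧ B ∧ Module.finrank k⟦X⟧ B = Fintype.card ι := by
  let K := LaurentSeries k
  let φ : K ⊗[k⟦X⟧] B →ₐ[K] K ⊗[k⟦X⟧] (ι → k⟦X⟧) :=
    Algebra.TensorProduct.map (AlgHom.id K K) B.val
  have hinj : Function.Injective φ := by
    have h2 : Function.Injective (B.val.toLinearMap.lTensor K) :=
      Module.Flat.lTensor_preserves_injective_linearMap _ Subtype.val_injective
    exact h2
  have hsurj : Function.Surjective φ := by
    intro y
    induction y using TensorProduct.induction_on with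
    | zero => exact ⟨0, map_zero _⟩
    | add x y hx hy =>
      obtain ⟨u, hu⟩ := hx
      obtain ⟨v, hv⟩ := hy
      exact ⟨u + v, by rw [map_add, hu, hv]⟩
    | tmul a g =>
      have hX : (algebraMap k⟦X⟧ K D) ≠ 0 := by
        rw [ne_eq, map_eq_zero_iff _ (IsFractionRing.injective k⟦X⟧ K)]
        exact hD
      refine ⟨(a * (algebraMap k⟦X⟧ K D)⁻¹) ⊗ₜ ⟨_, hB g⟩, ?_⟩
      change (a * (algebraMap k⟦X⟧ K D)⁻¹) ⊗ₜ[k⟦X⟧] (D • g) = _
      rw [TensorProduct.tmul_smul, TensorProduct.smul_tmul', Algebra.smul_def]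
      congr 1
      rw [mul_comm a, ← mul_assoc, mul_inv_cancel₀ hX, one_mul]
  have h3 : Algebra.Etale k⟦X⟧ (ι → k⟦X⟧) := etale_points _ _
  have h4 : Algebra.Etale K (K ⊗[k⟦X⟧] (ι → k⟦X⟧)) := inferInstance
  let e := AlgEquiv.ofBijective φ ⟨hinj, hsurj⟩
  have hfin : Module.Finite k⟦X⟧ B :=
    Module.Finite.of_injective B.val.toLinearMap Subtype.val_injective
  have htf : Module.IsTorsionFree k⟦X⟧ B :=
    Function.Injective.moduleIsTorsionFree B.val.toLinearMap Subtype.val_injective
      (fun _ _ => rfl)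
  have hfree : Module.Free k⟦X⟧ B := Module.free_of_finite_type_torsion_free'
  refine ⟨Algebra.Etale.of_equiv e.symm, hfin, hfree, ?_⟩
  have h5 := e.toLinearEquiv.finrank_eq
  rw [Module.finrank_baseChange, Module.finrank_baseChange] at h5
  rw [h5]
  simp

end order

section

variable {k : Type} [Field k] {σ : Type}

/-- A family of points that approximates enough functionals of `A` gives a smoothing. -/
theorem wit_of_points {A : Type} [CommRing A] [Algebra k A]
    (q : MvPolynomial σ k →ₐ[k] A) (hq : Function.Surjective q)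
    {ι : Type} [Fintype ι] (p : ι → σ → k⟦X⟧) (hp : Function.Injective p)
    (Φ : Set (Module.Dual k A)) (hsep : ∀ a : A, (∀ φ ∈ Φ, φ a = 0) → a = 0)
    (happ : ∀ φ ∈ Φ, ∃ (N : ℕ) (c : ι → k⟦X⟧), ∀ f : MvPolynomial σ k, ∃ h : k⟦X⟧,
      ∑ i, c i * MvPolynomial.eval₂ C (p i) f = X ^ N * (C (φ (q f)) + X * h)) :
    Wit k A (Fintype.card ι) := by
  classical
  let ev : MvPolynomial σ k⟦X⟧ →ₐ[k⟦X⟧] (ι → k⟦X⟧) :=
    AlgHom.pi fun i => MvPolynomial.aeval (p i)
  have hev : ∀ f i, ev f i = MvPolynomial.aeval (p i) f := fun _ _ => rfl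
  let q0 : MvPolynomial σ k⟦X⟧ →+* A :=
    (q : MvPolynomial σ k →+* A).comp (MvPolynomial.map (constantCoeff (R := k)))
  have hq0 : ∀ f, q0 f = q (MvPolynomial.map (constantCoeff (R := k)) f) := fun _ => rfl
  -- the approximation for power series coefficients
  have hext : ∀ φ ∈ Φ, ∃ (N : ℕ) (c : ι → k⟦X⟧), ∀ f : MvPolynomial σ k⟦X⟧, ∃ h : k⟦X⟧,
      ∑ i, c i * ev f i = X ^ N * (C (φ (q0 f)) + X * h) := by
    intro φ hφ
    obtain ⟨N, c, hc⟩ := happ φ hφ
    refine ⟨N, c, fun f => ?_⟩
    induction f using MvPolynomial.induction_on' with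
    | monomial u a =>
      obtain ⟨h, hh⟩ := hc (MvPolynomial.monomial u 1)
      obtain ⟨g, hg⟩ := exists_eq_const a
      refine ⟨a * h + g * C (φ (q (MvPolynomial.monomial u 1))), ?_⟩
      have h1 : ∀ i, ev (MvPolynomial.monomial u a) i =
          a * MvPolynomial.eval₂ C (p i) (MvPolynomial.monomial u 1) := by
        intro i
        rw [hev, MvPolynomial.aeval_monomial, MvPolynomial.eval₂_monomial, map_one, one_mul]
        rfl
      have h2 : φ (q0 (MvPolynomial.monomial u a)) =
          constantCoeff a * φ (q (MvPolynomial.monomial u 1)) := by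
        rw [hq0, MvPolynomial.map_monomial]
        have : (MvPolynomial.monomial u (constantCoeff a) : MvPolynomial σ k) =
            constantCoeff a • MvPolynomial.monomial u 1 := by
          rw [MvPolynomial.smul_monomial, smul_eq_mul, mul_one]
        rw [this, map_smul, map_smul, smul_eq_mul]
      have h3 : ∑ i, c i * ev (MvPolynomial.monomial u a) i =
          a * ∑ i, c i * MvPolynomial.eval₂ C (p i) (MvPolynomial.monomial u 1) := by
        rw [Finset.mul_sum]
        refine Finset.sum_congr rfl fun i _ => ?_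
        rw [h1, mul_left_comm]
      rw [h3, hh, h2, map_mul]
      linear_combination (X ^ N * C (φ (q (MvPolynomial.monomial u 1)))) * hg
    | add f g hf hg =>
      obtain ⟨h, hh⟩ := hf
      obtain ⟨h', hh'⟩ := hg
      refine ⟨h + h', ?_⟩
      have : ∑ i, c i * ev (f + g) i = (∑ i, c i * ev f i) + ∑ i, c i * ev g i := by
        rw [← Finset.sum_add_distrib]
        refine Finset.sum_congr rfl fun i _ => ?_
        rw [map_add, Pi.add_apply, mul_add]
      rw [this, hh, hh', map_add, map_add, map_add]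
      ring
  let B := ev.range
  -- the interpolation polynomials
  have hsepp : ∀ i j : ι, i ≠ j → ∃ s, p i s ≠ p j s := by
    intro i j hij
    by_contra hcon
    push Not at hcon
    exact hij (hp (funext hcon))
  have hLag : ∀ i : ι, ∃ D : k⟦X⟧, D ≠ 0 ∧ D • (Pi.single i 1 : ι → k⟦X⟧) ∈ B := by
    intro i
    have h1 : ∀ j, ∃ F : MvPolynomial σ k⟦X⟧, j ≠ i → MvPolynomial.aeval (p j) F = 0 ∧
        MvPolynomial.aeval (p i) F ≠ 0 := by
      intro j
      by_cases hj : j = i
      · exact ⟨0, fun h => absurd hj h⟩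
      · obtain ⟨s, hs⟩ := hsepp i j (Ne.symm hj)
        refine ⟨MvPolynomial.X s - MvPolynomial.C (p j s), fun _ => ⟨?_, ?_⟩⟩
        · simp
        · simpa using sub_ne_zero.mpr hs
    choose F hF using h1
    let L : MvPolynomial σ k⟦X⟧ := ∏ j ∈ Finset.univ.erase i, F j
    refine ⟨MvPolynomial.aeval (p i) L, ?_, L, ?_⟩
    · rw [map_prod]
      exact Finset.prod_ne_zero_iff.mpr fun j hj => (hF j (Finset.ne_of_mem_erase hj)).2
    · ext1 l
      change MvPolynomial.aeval (p l) L = MvPolynomial.aeval (p i) L * (Pi.single i 1 : ι → k⟦X⟧) l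
      by_cases hl : l = i
      · rw [hl, Pi.single_eq_same, mul_one]
      · rw [Pi.single_eq_of_ne hl, mul_zero, map_prod]
        exact Finset.prod_eq_zero (Finset.mem_erase.mpr ⟨hl, Finset.mem_univ _⟩) (hF l hl).1
  choose D hD0 hDB using hLag
  have hDall : ∀ g : ι → k⟦X⟧, (∏ i, D i) • g ∈ B := by
    intro g
    have h1 : (∏ i, D i) • g = ∑ i, (g i * ∏ j ∈ Finset.univ.erase i, D j) •
        (D i • (Pi.single i 1 : ι → k⟦X⟧)) := by
      ext l
      rw [Finset.sum_apply, Finset.sum_eq_single l]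
      · simp only [Pi.smul_apply, Pi.single_eq_same, smul_eq_mul, mul_one]
        rw [← Finset.mul_prod_erase Finset.univ D (Finset.mem_univ l)]
        ring
      · intro b _ hb
        simp [Ne.symm hb]
      · intro h
        exact absurd (Finset.mem_univ _) h
    rw [h1]
    exact Subalgebra.sum_mem _ fun i _ => Subalgebra.smul_mem _ (hDB i) _
  have hDne : (∏ i, D i) ≠ 0 := Finset.prod_ne_zero_iff.mpr fun i _ => hD0 i
  obtain ⟨het, hfin, hfree, hrank⟩ := order_etale B hDne hDall
  have hsurjr : Function.Surjective (ev.rangeRestrict : MvPolynomial σ k⟦X⟧ →+* B) :=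
    ev.rangeRestrict_surjective
  have hker : RingHom.ker (ev.rangeRestrict : MvPolynomial σ k⟦X⟧ →+* B) ≤ RingHom.ker q0 := by
    intro f hf
    have hf' : ev f = 0 := congrArg Subtype.val ((RingHom.mem_ker).mp hf)
    rw [RingHom.mem_ker]
    apply hsep
    intro φ hφ
    obtain ⟨N, c, hc⟩ := hext φ hφ
    obtain ⟨h, hh⟩ := hc f
    rw [hf'] at hh
    simp only [Pi.zero_apply, mul_zero, Finset.sum_const_zero] at hh
    have h1 := (mul_eq_zero.mp hh.symm).resolve_left (pow_ne_zero N X_ne_zero)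
    have h2 := congrArg (constantCoeff (R := k)) h1
    simpa using h2
  let π : B →+* A := (RingHom.liftOfSurjective _ hsurjr) ⟨q0, hker⟩
  have hπ : ∀ f, π (ev.rangeRestrict f) = q0 f := fun f =>
    RingHom.liftOfSurjective_comp_apply _ hsurjr ⟨q0, hker⟩ f
  refine ⟨B, inferInstance, inferInstance, hfin, hfree, hrank, het, π, ?_, ?_⟩
  · intro a
    obtain ⟨f, rfl⟩ := hq a
    refine ⟨ev.rangeRestrict (MvPolynomial.map C f), ?_⟩
    rw [hπ, hq0, MvPolynomial.map_map]
    have : (constantCoeff (R := k)).comp C = RingHom.id k := by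
      ext x; simp
    rw [this, MvPolynomial.map_id]
  · intro f
    have h1 : algebraMap k⟦X⟧ B f = ev.rangeRestrict (algebraMap k⟦X⟧ _ f) := by
      rw [AlgHom.commutes]
    rw [h1, hπ, hq0, MvPolynomial.algebraMap_eq, MvPolynomial.map_C]
    exact q.commutes (constantCoeff f)

end

end Pool.Agent.H869R3
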