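import Pool.Agent.H869R3.Defs

set_option autoImplicit false

namespace Pool.Agent.H869R3.Multi

open Filter Topology

/-- The tensor `T` of order `m` (given by its coordinates) has rank at most `r`. -/
def RankLE {k : Type} [Field k] {m : ℕ} {J : Fin m → Type} (T : (∀ i, J i) → k) (r : ℕ) : Prop :=
  ∃ l : Fin r → ∀ i, J i → k, ∀ x, T x = ∑ ρ, ∏ i, l ρ i (x i)

/-- The `N`-th Kronecker power of a tensor. -/
def kpow {k : Type} [Field k] {m : ℕ} {J : Fin m → Type} (T : (∀ i, J i) → k) (N : ℕ) :
    (∀ i, Fin N → J i) → k := fun x => ∏ ν, T fun i => x i ν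

/-- The rank of a tensor. -/
noncomputable def trank {k : Type} [Field k] {m : ℕ} {J : Fin m → Type} (T : (∀ i, J i) → k) : ℕ :=
  sInf {r | RankLE T r}

/-- The asymptotic rank of a tensor: the infimum over `N ≥ 1` of `R(T ^ N) ^ (1 / N)`. -/
noncomputable def asymRank {k : Type} [Field k] {m : ℕ} {J : Fin m → Type} (T : (∀ i, J i) → k) : ℝ :=
  sInf {x : ℝ | ∃ N : ℕ, 1 ≤ N ∧ x = (trank (kpow T N) : ℝ) ^ ((N : ℝ)⁻¹)}

/-- The flattening of `T` for the set `S` of tensor factors, as a matrix: its rows depend only on the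
coordinates in `S` and its columns only on the coordinates outside `S`. -/
def flattening {k : Type} [Field k] {m : ℕ} {J : Fin m → Type} (T : (∀ i, J i) → k)
    (S : Finset (Fin m)) : Matrix (∀ i, J i) (∀ i, J i) k :=
  fun x y => T fun i => if i ∈ S then x i else y i

/-- The largest rank of a flattening of `T`. -/
noncomputable def maxFlat {k : Type} [Field k] {m : ℕ} {J : Fin m → Type} [∀ i, Fintype (J i)]
    (T : (∀ i, J i) → k) : ℕ :=
  Finset.univ.sup fun S : Finset (Fin m) => (flattening T S).rank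

/-- The exponent of the monomial `∏ i, X (i, x i)`. -/
noncomputable def mono {m : ℕ} {J : Fin m → Type} (x : ∀ i, J i) : (Σ i, J i) →₀ ℕ :=
  ∑ i, Finsupp.single ⟨i, x i⟩ 1

/-- `T` as a functional on the polynomial ring in the variables `X (i, a)`, `a ∈ J i`: it sends
`∏ i, X (i, x i)` to `T x` and all other monomials to `0`. -/
noncomputable def dualGen {k : Type} [Field k] {m : ℕ} {J : Fin m → Type} [∀ i, Fintype (J i)]
    (T : (∀ i, J i) → k) : MvPolynomial (Σ i, J i) k →ₗ[k] k :=
  ∑ x, T x • MvPolynomial.lcoeff k (mono x)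

/-- The ideal of all `f` such that the functional `Φ` vanishes on the multiples of `f`. -/
def annIdeal {k σ : Type} [Field k] (Φ : MvPolynomial σ k →ₗ[k] k) :
    Ideal (MvPolynomial σ k) where
  carrier := {f | ∀ g, Φ (g * f) = 0}
  add_mem' := by
    intro f f' hf hf' g
    rw [mul_add, map_add, hf g, hf' g, add_zero]
  zero_mem' := by
    intro g
    rw [mul_zero, map_zero]
  smul_mem' := by
    intro c f hf g
    rw [smul_eq_mul, ← mul_assoc]
    exact hf _

/-- The apolar algebra of the tensor `T`: the quotient of the polynomial ring in the variables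
`X (i, a)`, `a ∈ J i`, by the ideal apolar to `T`. -/
noncomputable def apolar {k : Type} [Field k] {m : ℕ} {J : Fin m → Type} [∀ i, Fintype (J i)]
    (T : (∀ i, J i) → k) : CommAlgCat.{0} k :=
  CommAlgCat.of k (MvPolynomial (Σ i, J i) k ⧸ annIdeal (dualGen T))

/-- The limit statement of Q1 for `Spec A`, with the exponent `1 + ε` replaced by `s`. -/
def RatioTendsToZero (k : Type) [Field k] (A : CommAlgCat.{0} k) (s : ℝ) : Prop :=
  Tendsto (fun n : ℕ => (defect k (pow k A n) : ℝ) / (Module.finrank k A : ℝ) ^ (s * n))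
    atTop (𝓝 0)

end Pool.Agent.H869R3.Multi
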