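import Pool.Agent.H869R3.Defs

set_option autoImplicit false

namespace Pool.Agent.H869R3

open scoped TensorProduct PowerSeries

/-- `A` is a quotient of the special fibre of a generically étale free `k⟦X⟧`-algebra of rank `r`. -/
def Wit (k : Type) [Field k] (A : Type) [CommRing A] [Algebra k A] (r : ℕ) : Prop :=
  ∃ (B : Type) (_ : CommRing B) (_ : Algebra k⟦X⟧ B),
    Module.Finite k⟦X⟧ B ∧ Module.Free k⟦X⟧ B ∧ Module.finrank k⟦X⟧ B = r ∧
    Algebra.Etale (LaurentSeries k) (LaurentSeries k ⊗[k⟦X⟧] B) ∧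
    ∃ π : B →+* A, Function.Surjective π ∧
      ∀ f : k⟦X⟧, π (algebraMap k⟦X⟧ B f) = algebraMap k A (PowerSeries.constantCoeff f)

section general

variable {k : Type} [Field k]

/-- the decomposition `f = f(0) + X g` -/
lemma exists_eq_const (f : k⟦X⟧) : ∃ g : k⟦X⟧, f = PowerSeries.C (PowerSeries.constantCoeff f) +
    PowerSeries.X * g := by
  have h : PowerSeries.constantCoeff (f - PowerSeries.C (PowerSeries.constantCoeff f)) = 0 := by
    simp
  rw [← PowerSeries.X_dvd_iff] at h
  obtain ⟨g, hg⟩ := h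
  exact ⟨g, by rw [← hg]; ring⟩

end general

/-- The special fibre as an algebra over `k`. -/
lemma wit_defect {k : Type} [Field k] {A : Type} [CommRing A] [Algebra k A] {r : ℕ}
    (h : Wit k A r) [Module.Finite k A] : DefectLE k A (r - Module.finrank k A) ∧
      Module.finrank k A ≤ r := by
  obtain ⟨B, _, _, hfin, hfree, hr, het, π, hsurj, hcomm⟩ := h
  let I : Ideal B := Ideal.span {algebraMap k⟦X⟧ B PowerSeries.X}
  let φ : k →+* B ⧸ I := (Ideal.Quotient.mk I).comp ((algebraMap k⟦X⟧ B).comp PowerSeries.C)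
  letI : Algebra k (B ⧸ I) := φ.toAlgebra
  have hmk : ∀ f : k⟦X⟧, Ideal.Quotient.mk I (algebraMap k⟦X⟧ B f) =
      algebraMap k (B ⧸ I) (PowerSeries.constantCoeff f) := by
    intro f
    obtain ⟨g, hg⟩ := exists_eq_const f
    have h1 : algebraMap k⟦X⟧ B f = algebraMap k⟦X⟧ B (PowerSeries.C (PowerSeries.constantCoeff f)) +
        algebraMap k⟦X⟧ B PowerSeries.X * algebraMap k⟦X⟧ B g := by
      conv_lhs => rw [hg]
      rw [map_add, map_mul]
    rw [h1, map_add]
    have h2 : Ideal.Quotient.mk I (algebraMap k⟦X⟧ B PowerSeries.X * algebraMap k⟦X⟧ B g) = 0 := by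
      rw [Ideal.Quotient.eq_zero_iff_mem]
      exact Ideal.mul_mem_right _ _ (Ideal.subset_span rfl)
    rw [h2, add_zero]
    rfl
  -- the dimension of the special fibre
  let b := Module.finBasisOfFinrankEq k⟦X⟧ B hr
  let ψ : B →+ (Fin r → k) :=
    { toFun := fun c i => PowerSeries.constantCoeff (b.repr c i)
      map_zero' := by ext i; simp
      map_add' := by intro x y; ext i; simp }
  have hψ : ∀ c : B, ψ c = 0 ↔ c ∈ I := by
    intro c
    constructor
    · intro hc
      have h1 : ∀ i, ∃ g : k⟦X⟧, b.repr c i = PowerSeries.X * g := by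
        intro i
        have h2 : PowerSeries.constantCoeff (b.repr c i) = 0 := congrFun hc i
        rw [← PowerSeries.X_dvd_iff] at h2
        exact h2
      choose g hg using h1
      have h3 : c = algebraMap k⟦X⟧ B PowerSeries.X * ∑ i, g i • b i := by
        conv_lhs => rw [← b.sum_repr c]
        rw [Finset.mul_sum]
        refine Finset.sum_congr rfl fun i _ => ?_
        rw [hg i, mul_smul, Algebra.smul_def]
      rw [h3]
      exact Ideal.mul_mem_right _ _ (Ideal.subset_span rfl)
    · intro hc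
      obtain ⟨d, rfl⟩ := Ideal.mem_span_singleton'.mp hc
      ext i
      change PowerSeries.constantCoeff (b.repr (d * algebraMap k⟦X⟧ B PowerSeries.X) i) = 0
      have : d * algebraMap k⟦X⟧ B PowerSeries.X = (PowerSeries.X : k⟦X⟧) • d := by
        rw [Algebra.smul_def, mul_comm]
      rw [this]
      simp
  have hsm : ∀ (a : k) (c : B), a • (Ideal.Quotient.mk I c) =
      Ideal.Quotient.mk I ((PowerSeries.C a : k⟦X⟧) • c) := by
    intro a c
    rw [Algebra.smul_def, Algebra.smul_def, map_mul]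
    rfl
  let Ψ : (B ⧸ I) →ₗ[k] (Fin r → k) :=
    { toFun := QuotientAddGroup.lift I.toAddSubgroup ψ (fun x hx => (hψ x).mpr hx)
      map_add' := fun x y => map_add _ x y
      map_smul' := by
        intro a x
        obtain ⟨c, rfl⟩ := Ideal.Quotient.mk_surjective x
        rw [hsm]
        change ψ _ = a • ψ c
        ext i
        change PowerSeries.constantCoeff (b.repr ((PowerSeries.C a : k⟦X⟧) • c) i) = _
        simp [ψ] }
  have hΨmk : ∀ c : B, Ψ (Ideal.Quotient.mk I c) = ψ c := fun c => rfl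
  have hinj : Function.Injective Ψ := by
    rw [injective_iff_map_eq_zero]
    intro x hx
    obtain ⟨c, rfl⟩ := Ideal.Quotient.mk_surjective x
    rw [hΨmk, hψ] at hx
    exact Ideal.Quotient.eq_zero_iff_mem.mpr hx
  have hsur : Function.Surjective Ψ := by
    intro v
    refine ⟨Ideal.Quotient.mk I (∑ i, (PowerSeries.C (v i) : k⟦X⟧) • b i), ?_⟩
    rw [hΨmk]
    ext i
    change PowerSeries.constantCoeff (b.repr (∑ i, (PowerSeries.C (v i) : k⟦X⟧) • b i) i) = v i
    rw [Module.Basis.repr_sum_self]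
    simp
  let e : (B ⧸ I) ≃ₗ[k] (Fin r → k) := LinearEquiv.ofBijective Ψ ⟨hinj, hsur⟩
  have hfinC : Module.Finite k (B ⧸ I) := Module.Finite.equiv e.symm
  have hrankC : Module.finrank k (B ⧸ I) = r := by
    rw [e.finrank_eq]; simp
  -- the map to `A`
  have hker : ∀ a ∈ I, π a = 0 := by
    intro a ha
    obtain ⟨d, rfl⟩ := Ideal.mem_span_singleton'.mp ha
    rw [map_mul, hcomm]
    simp
  let g : (B ⧸ I) →ₐ[k] A :=
    { Ideal.Quotient.lift I π hker with
      commutes' := by
        intro a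
        change Ideal.Quotient.lift I π hker (Ideal.Quotient.mk I
          (algebraMap k⟦X⟧ B (PowerSeries.C a))) = _
        rw [Ideal.Quotient.lift_mk, hcomm]
        simp }
  have hg : Function.Surjective g := by
    intro a
    obtain ⟨c, rfl⟩ := hsurj a
    exact ⟨Ideal.Quotient.mk I c, rfl⟩
  have hle : Module.finrank k A ≤ r := by
    rw [← hrankC]
    exact LinearMap.finrank_le_finrank_of_surjective (f := g.toLinearMap) hg
  refine ⟨⟨B ⧸ I, inferInstance, inferInstance, g, hg, hfinC, ?_, ?_⟩, hle⟩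
  · exact ⟨B, inferInstance, inferInstance, hfin, inferInstance, het, Ideal.Quotient.mk I,
      Ideal.Quotient.mk_surjective, Ideal.mk_ker, hmk⟩
  · rw [hrankC]; omega

/-- The base ring itself is a smoothing of the point. -/
lemma wit_point (k : Type) [Field k] : Wit k k 1 := by
  refine ⟨k⟦X⟧, inferInstance, inferInstance, inferInstance, inferInstance,
    Module.finrank_self _, ?_, PowerSeries.constantCoeff, ?_, ?_⟩
  · exact Algebra.Etale.of_equiv (Algebra.TensorProduct.rid k⟦X⟧ (LaurentSeries k)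
      (LaurentSeries k)).symm
  · intro a
    exact ⟨PowerSeries.C a, by simp⟩
  · intro f
    simp

lemma etale_tensor {R K A B : Type} [CommRing R] [CommRing K] [Algebra R K] [CommRing A]
    [Algebra R A] [CommRing B] [Algebra R B] (hA : Algebra.Etale K (K ⊗[R] A))
    (hB : Algebra.Etale K (K ⊗[R] B)) : Algebra.Etale K (K ⊗[R] (A ⊗[R] B)) := by
  have h1 : Algebra.Etale (K ⊗[R] A) ((K ⊗[R] A) ⊗[K] (K ⊗[R] B)) := inferInstance
  have h2 : Algebra.Etale K ((K ⊗[R] A) ⊗[K] (K ⊗[R] B)) :=
    Algebra.Etale.comp K (K ⊗[R] A) _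
  let e1 : (K ⊗[R] A) ⊗[K] (K ⊗[R] B) ≃ₐ[K] (K ⊗[R] A) ⊗[R] B :=
    Algebra.TensorProduct.cancelBaseChange R K K (K ⊗[R] A) B
  let e2 : (K ⊗[R] A) ⊗[R] B ≃ₐ[K] K ⊗[R] (A ⊗[R] B) :=
    Algebra.TensorProduct.assoc R R K K A B
  exact Algebra.Etale.of_equiv (e1.trans e2)

/-- Tensor products of smoothings. -/
lemma wit_tensor {k : Type} [Field k] {A A' : Type} [CommRing A] [Algebra k A] [CommRing A']
    [Algebra k A'] {r s : ℕ} (h : Wit k A r) (h' : Wit k A' s) : Wit k (A ⊗[k] A') (r * s) := by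
  obtain ⟨B, _, _, hfin, hfree, hr, het, π, hsurj, hcomm⟩ := h
  obtain ⟨B', _, _, hfin', hfree', hr', het', π', hsurj', hcomm'⟩ := h'
  refine ⟨B ⊗[k⟦X⟧] B', inferInstance, inferInstance, inferInstance, inferInstance, ?_,
    etale_tensor het het', ?_⟩
  · rw [Module.finrank_tensorProduct, hr, hr']
  · let ι : A →+* A ⊗[k] A' := (Algebra.TensorProduct.includeLeft (R := k) (S := k)).toRingHom
    let ι' : A' →+* A ⊗[k] A' := (Algebra.TensorProduct.includeRight (R := k)).toRingHom
    let alg : Algebra k⟦X⟧ (A ⊗[k] A') :=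
      ((algebraMap k (A ⊗[k] A')).comp PowerSeries.constantCoeff).toAlgebra
    have halg : ∀ f : k⟦X⟧, algebraMap k⟦X⟧ (A ⊗[k] A') f =
      algebraMap k (A ⊗[k] A') (PowerSeries.constantCoeff f) := fun f => rfl
    let p : B →ₐ[k⟦X⟧] A ⊗[k] A' :=
      { ι.comp π with
        commutes' := by
          intro f
          change ι (π (algebraMap k⟦X⟧ B f)) = _
          rw [hcomm, halg]
          exact (Algebra.TensorProduct.includeLeft (R := k) (S := k) (A := A) (B := A')).commutes _ }
    let p' : B' →ₐ[k⟦X⟧] A ⊗[k] A' :=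
      { ι'.comp π' with
        commutes' := by
          intro f
          change ι' (π' (algebraMap k⟦X⟧ B' f)) = _
          rw [hcomm', halg]
          exact (Algebra.TensorProduct.includeRight (R := k) (A := A) (B := A')).commutes _ }
    let P : B ⊗[k⟦X⟧] B' →ₐ[k⟦X⟧] A ⊗[k] A' :=
      Algebra.TensorProduct.lift p p' (fun x y => Commute.all _ _)
    have hP : ∀ b b', P (b ⊗ₜ b') = π b ⊗ₜ π' b' := by
      intro b b'
      change p b * p' b' = _
      change (π b ⊗ₜ[k] (1 : A')) * ((1 : A) ⊗ₜ[k] π' b') = _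
      rw [Algebra.TensorProduct.tmul_mul_tmul, mul_one, one_mul]
    refine ⟨P.toRingHom, ?_, ?_⟩
    · intro x
      induction x using TensorProduct.induction_on with
      | zero => exact ⟨0, map_zero _⟩
      | tmul a a' =>
        obtain ⟨b, rfl⟩ := hsurj a
        obtain ⟨b', rfl⟩ := hsurj' a'
        exact ⟨b ⊗ₜ b', hP b b'⟩
      | add x y hx hy =>
        obtain ⟨u, hu⟩ := hx
        obtain ⟨v, hv⟩ := hy
        exact ⟨u + v, by rw [map_add, hu, hv]⟩
    · intro f
      exact P.commutes f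

lemma wit_pow {k : Type} [Field k] (A : CommAlgCat.{0} k) {r : ℕ} (h : Wit k A r) :
    ∀ n, Wit k (pow k A n) (r ^ n)
  | 0 => by
    rw [pow_zero]
    exact wit_point k
  | n + 1 => by
    rw [pow_succ]
    exact wit_tensor (wit_pow A h n) h

lemma finite_pow {k : Type} [Field k] (A : CommAlgCat.{0} k) [Module.Finite k A] :
    ∀ n, Module.Finite k (pow k A n)
  | 0 => inferInstanceAs (Module.Finite k k)
  | n + 1 => by
    haveI := finite_pow A n
    exact inferInstanceAs (Module.Finite k (pow k A n ⊗[k] A))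

lemma finrank_pow {k : Type} [Field k] (A : CommAlgCat.{0} k) [Module.Finite k A] :
    ∀ n, Module.finrank k (pow k A n) = Module.finrank k A ^ n
  | 0 => by
    rw [pow_zero]
    exact Module.finrank_self k
  | n + 1 => by
    rw [pow_succ, ← finrank_pow A n]
    exact Module.finrank_tensorProduct

end Pool.Agent.H869R3
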