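import Pool.Agent.H869R3.MultiRank
import Pool.Agent.H869R3.Smooth

set_option autoImplicit false

namespace Pool.Agent.H869R3.Multi

open scoped TensorProduct
open Filter Topology

section basics

variable {k : Type} [Field k] {m : ℕ} {J : Fin m → Type}

lemma trank_exists (hm : 0 < m) [∀ i, Fintype (J i)] (T : (∀ i, J i) → k) :
    ∃ r, RankLE T r := by
  classical
  refine ⟨_, rank_of_weights hm (ι := ∀ i, J i) T (fun y i a => if a = y i then 1 else 0) ?_⟩
  intro x
  rw [Finset.sum_eq_single x]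
  · simp
  · intro y _ hy
    obtain ⟨i, hi⟩ := Function.ne_iff.mp hy
    rw [Finset.prod_eq_zero (Finset.mem_univ i) (by simp [Ne.symm hi]), mul_zero]
  · intro h
    exact absurd (Finset.mem_univ _) h

lemma trank_spec (hm : 0 < m) [∀ i, Fintype (J i)] (T : (∀ i, J i) → k) :
    RankLE T (trank T) := Nat.sInf_mem (s := {r | RankLE T r}) (trank_exists hm T)

lemma trank_le {T : (∀ i, J i) → k} {r : ℕ} (h : RankLE T r) : trank T ≤ r := Nat.sInf_le h

/-- Products of Kronecker powers. -/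
lemma kpow_add_rank {T : (∀ i, J i) → k} {p q r s : ℕ} (hp : RankLE (kpow T p) r)
    (hq : RankLE (kpow T q) s) : RankLE (kpow T (p + q)) (r * s) := by
  obtain ⟨a, h⟩ := hp
  obtain ⟨a', h'⟩ := hq
  have := rank_of_fintype (T := kpow T (p + q)) (ι := Fin r × Fin s)
    (fun P i b => a P.1 i (fun ν => b (Fin.castAdd q ν)) * a' P.2 i (fun ν => b (Fin.natAdd p ν)))
    (by
      intro x
      unfold kpow
      rw [Fin.prod_univ_add]
      have h1 := h (fun i ν => x i (Fin.castAdd q ν))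
      have h2 := h' (fun i ν => x i (Fin.natAdd p ν))
      unfold kpow at h1 h2
      rw [h1, h2, Finset.sum_mul_sum, Fintype.sum_prod_type]
      refine Finset.sum_congr rfl fun P _ => Finset.sum_congr rfl fun Q _ => ?_
      rw [Finset.prod_mul_distrib])
  simpa using this

lemma kpow_mul_rank {T : (∀ i, J i) → k} {p r : ℕ} (hp : RankLE (kpow T p) r) (t : ℕ) :
    RankLE (kpow T (p * t)) (r ^ t) := by
  induction t with
  | zero =>
    rw [mul_zero, pow_zero]
    refine ⟨fun _ _ _ => 1, fun x => ?_⟩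
    simp [kpow]
  | succ t ih =>
    rw [mul_add, mul_one, pow_succ]
    exact kpow_add_rank ih hp

/-- A Kronecker power of a Kronecker power. -/
lemma kpow_kpow_rank {T : (∀ i, J i) → k} {n N r : ℕ}
    (h : RankLE (kpow (kpow T n) N) r) : RankLE (kpow T (N * n)) r := by
  obtain ⟨l, h⟩ := h
  refine ⟨fun ρ i b => l ρ i (fun ν μ => b (finProdFinEquiv (ν, μ))), fun x => ?_⟩
  have h1 := h (fun i ν μ => x i (finProdFinEquiv (ν, μ)))
  rw [← h1]
  unfold kpow
  rw [← finProdFinEquiv.prod_comp, Fintype.prod_prod_type]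

lemma asymRank_bddBelow (T : (∀ i, J i) → k) :
    BddBelow {x : ℝ | ∃ N : ℕ, 1 ≤ N ∧ x = (trank (kpow T N) : ℝ) ^ ((N : ℝ)⁻¹)} :=
  ⟨0, by rintro _ ⟨N, _, rfl⟩; positivity⟩

lemma asymRank_nonneg (T : (∀ i, J i) → k) : 0 ≤ asymRank T :=
  Real.sInf_nonneg (by rintro _ ⟨N, _, rfl⟩; positivity)

lemma asymRank_pow_le (T : (∀ i, J i) → k) {N : ℕ} (hN : 1 ≤ N) {r : ℕ}
    (h : RankLE (kpow T N) r) : asymRank T ^ N ≤ r := by
  have h1 : asymRank T ≤ (trank (kpow T N) : ℝ) ^ ((N : ℝ)⁻¹) :=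
    csInf_le (asymRank_bddBelow T) ⟨N, hN, rfl⟩
  have h2 : asymRank T ^ N ≤ ((trank (kpow T N) : ℝ) ^ ((N : ℝ)⁻¹)) ^ N :=
    pow_le_pow_left₀ (asymRank_nonneg T) h1 N
  rw [← Real.rpow_natCast, ← Real.rpow_natCast, ← Real.rpow_mul (Nat.cast_nonneg _),
    inv_mul_cancel₀ (by positivity), Real.rpow_one, Real.rpow_natCast] at h2
  exact h2.trans (by exact_mod_cast trank_le h)

/-- If the ranks of the powers `N n` are at most `(N + 1) ^ e D ^ N`, then `R̃(T) ^ n ≤ D`. -/
lemma asymRank_le_of_poly (T : (∀ i, J i) → k) {n e D : ℕ} (hn : 1 ≤ n) (hD : 1 ≤ D)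
    (h : ∀ N : ℕ, RankLE (kpow T (N * n)) ((N + 1) ^ e * D ^ N)) : asymRank T ^ n ≤ D := by
  by_contra hlt
  push Not at hlt
  have hD0 : (0 : ℝ) < D := by exact_mod_cast hD
  have hA : 0 < asymRank T ^ n := lt_trans hD0 hlt
  set ρ : ℝ := D / asymRank T ^ n with hρ
  have hρ0 : 0 < ρ := by positivity
  have hρ1 : ρ < 1 := by rw [hρ, div_lt_one hA]; exact hlt
  have hlim := tendsto_pow_const_mul_const_pow_of_lt_one e hρ0.le hρ1
  have hlim2 := hlim.comp (tendsto_add_atTop_nat 1)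
  obtain ⟨N, h1, h2⟩ := ((hlim2.eventually_lt_const hρ0).and (eventually_ge_atTop 1)).exists
  have h3 := asymRank_pow_le T (N := N * n) (Nat.mul_pos h2 hn) (h N)
  have h4 : asymRank T ^ (N * n) = (asymRank T ^ n) ^ N := by rw [← pow_mul, mul_comm]
  rw [h4] at h3
  push_cast at h3
  simp only [Function.comp_apply, Nat.cast_add, Nat.cast_one, pow_succ] at h1
  have h5 : ((N : ℝ) + 1) ^ e * ρ ^ N < 1 := by
    have h6 : (((N : ℝ) + 1) ^ e * ρ ^ N) * ρ < 1 * ρ := by rw [one_mul]; linarith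
    exact lt_of_mul_lt_mul_right h6 hρ0.le
  rw [hρ, div_pow, ← mul_div_assoc, div_lt_one (by positivity)] at h5
  linarith

/-- `R̃(T) ^ j ≤ R̃(T ^ j)`. -/
lemma asymRank_pow_le_asymRank (hm : 0 < m) [∀ i, Fintype (J i)] (T : (∀ i, J i) → k) {j : ℕ}
    (hj : 1 ≤ j) : asymRank T ^ j ≤ asymRank (kpow T j) := by
  refine le_csInf ⟨_, 1, le_rfl, rfl⟩ ?_
  rintro _ ⟨N, hN, rfl⟩
  have h1 : RankLE (kpow (kpow T j) N) (trank (kpow (kpow T j) N)) := trank_spec hm _
  have h2 : RankLE (kpow T (N * j)) (trank (kpow (kpow T j) N)) := kpow_kpow_rank h1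
  have h3 := asymRank_pow_le T (Nat.mul_pos hN hj) h2
  have h4 : asymRank T ^ (N * j) = (asymRank T ^ j) ^ N := by rw [← pow_mul, mul_comm]
  rw [h4] at h3
  have hN0 : (N : ℝ) ≠ 0 := by positivity
  have h5 : ((asymRank T ^ j) ^ N) ^ ((N : ℝ)⁻¹) = asymRank T ^ j := by
    rw [← Real.rpow_natCast (asymRank T ^ j) N, ← Real.rpow_mul (pow_nonneg (asymRank_nonneg T) _),
      mul_inv_cancel₀ hN0, Real.rpow_one]
  rw [← h5]
  exact Real.rpow_le_rpow (pow_nonneg (pow_nonneg (asymRank_nonneg T) _) _) h3 (by positivity)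

end basics

section realises

variable {k : Type} [Field k] {m : ℕ} {J : Fin m → Type}

/-- The tensor `T` is read off from the multiplication of `A`. -/
def Realises (k A : Type) [Field k] [CommRing A] [Algebra k A] {m : ℕ} {J : Fin m → Type}
    (T : (∀ i, J i) → k) : Prop :=
  ∃ (a : ∀ i, J i → A) (g : Module.Dual k A), ∀ x, T x = g (∏ i, a i (x i))

lemma prod_tmul {A A' ι : Type} [CommRing A] [Algebra k A] [CommRing A'] [Algebra k A']
    (s : Finset ι) (u : ι → A) (v : ι → A') :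
    ∏ i ∈ s, (u i ⊗ₜ[k] v i) = (∏ i ∈ s, u i) ⊗ₜ[k] (∏ i ∈ s, v i) := by
  classical
  induction s using Finset.induction_on with
  | empty => rfl
  | insert a s ha ih =>
    rw [Finset.prod_insert ha, Finset.prod_insert ha, Finset.prod_insert ha, ih,
      Algebra.TensorProduct.tmul_mul_tmul]

lemma realises_pow (A : CommAlgCat.{0} k) {T : (∀ i, J i) → k} (h : Realises k A T) :
    ∀ n, Realises k (pow k A n) (kpow T n)
  | 0 => ⟨fun _ _ => (1 : k), LinearMap.id, fun x => by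
      change _ = ∏ _i : Fin m, (1 : k)
      simp [kpow]⟩
  | n + 1 => by
    obtain ⟨a, g, h1⟩ := realises_pow A h n
    obtain ⟨a', g', h'⟩ := h
    refine ⟨fun i b => a i (Fin.init b) ⊗ₜ[k] a' i (b (Fin.last n)),
      (LinearMap.mul' k k).comp (TensorProduct.map g g'), fun x => ?_⟩
    have h3 : (∏ i, (a i (Fin.init (x i)) ⊗ₜ[k] a' i (x i (Fin.last n)))) =
        (∏ i, a i (Fin.init (x i))) ⊗ₜ[k] (∏ i, a' i (x i (Fin.last n))) := prod_tmul _ _ _
    have h4 : ((LinearMap.mul' k k).comp (TensorProduct.map g g'))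
        (∏ i, (a i (Fin.init (x i)) ⊗ₜ[k] a' i (x i (Fin.last n)))) =
        g (∏ i, a i (Fin.init (x i))) * g' (∏ i, a' i (x i (Fin.last n))) := by
      rw [h3]
      simp
    refine Eq.trans ?_ h4.symm
    have h5 := h1 (fun i => Fin.init (x i))
    have h6 := h' (fun i => x i (Fin.last n))
    rw [← h5, ← h6]
    unfold kpow
    rw [Fin.prod_univ_castSucc]
    rfl

/-- **Lower bound.** -/
theorem lower (hm : 0 < m) [∀ i, Fintype (J i)] [Infinite k] (T : (∀ i, J i) → k)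
    (A : CommAlgCat.{0} k) [Module.Finite k A] (hA : 1 ≤ Module.finrank k A)
    (hR : Realises k A T) {n j : ℕ}
    (h : DefectLE k (pow k A n) j) :
    asymRank T ^ n ≤ (Module.finrank k A ^ n + j : ℕ) := by
  classical
  rcases Nat.eq_zero_or_pos n with rfl | hn
  · simp
  obtain ⟨a, g, hT⟩ := realises_pow A hR n
  have h1 := defect_border hm h a g
  have h2 : (fun x : ∀ i, Fin n → J i => g (∏ i, a i (x i))) = kpow T n := by
    funext x
    exact (hT x).symm
  rw [h2, finrank_pow] at h1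
  refine asymRank_le_of_poly T hn ?_ (fun N => kpow_kpow_rank (kronecker_rank hm h1 N))
  have : 1 ≤ Module.finrank k A ^ n := Nat.one_le_pow _ _ hA
  omega

end realises

end Pool.Agent.H869R3.Multi
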