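import Pool.Agent.H869R3.MultiWit
import Pool.Agent.H869R3.MultiLower

set_option autoImplicit false

namespace Pool.Agent.H869R3.Multi

section

variable {k : Type} [Field k] {m : ℕ} {J : Fin m → Type}

/-- The exponent of `∏ i ∈ S, X (i, x i)`. -/
noncomputable def monoOn (S : Finset (Fin m)) (x : ∀ i, J i) : (Σ i, J i) →₀ ℕ :=
  ∑ i ∈ S, Finsupp.single ⟨i, x i⟩ 1

lemma monoOn_apply [∀ i, DecidableEq (J i)] (S : Finset (Fin m)) (x : ∀ i, J i) (i : Fin m)
    (b : J i) : monoOn S x ⟨i, b⟩ = if i ∈ S then (Pi.single (x i) 1 : J i → ℕ) b else 0 := by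
  classical
  unfold monoOn
  rw [Finsupp.finsetSum_apply]
  have h1 : ∀ j, (Finsupp.single (⟨j, x j⟩ : Σ i, J i) 1 : (Σ i, J i) →₀ ℕ) ⟨i, b⟩ =
      if j = i then (Pi.single (x i) 1 : J i → ℕ) b else 0 := by
    intro j
    by_cases hj : j = i
    · subst hj
      rw [if_pos rfl]
      by_cases hb : b = x j
      · subst hb
        simp
      · rw [Pi.single_eq_of_ne hb, Finsupp.single_eq_of_ne]
        intro h
        rw [Sigma.mk.injEq] at h
        exact hb (eq_of_heq h.2)
    · rw [if_neg hj, Finsupp.single_eq_of_ne]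
      intro h
      rw [Sigma.mk.injEq] at h
      exact hj h.1.symm
  simp only [h1]
  rw [Finset.sum_ite_eq']

lemma monoOn_add (S : Finset (Fin m)) (x y : ∀ i, J i) :
    monoOn S x + monoOn (Finset.univ \ S) y = mono fun i => if i ∈ S then x i else y i := by
  classical
  ext ⟨i, b⟩
  rw [Finsupp.add_apply, monoOn_apply, monoOn_apply, mono_apply]
  by_cases hi : i ∈ S
  · simp [hi]
  · simp [hi]

/-- The divisors of a monomial `mono x`. -/
lemma le_mono {β : (Σ i, J i) →₀ ℕ} {x : ∀ i, J i} (h : β ≤ mono x) :
    ∃ S : Finset (Fin m), β = monoOn S x := by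
  classical
  refine ⟨Finset.univ.filter fun i => β ⟨i, x i⟩ ≠ 0, ?_⟩
  ext ⟨i, b⟩
  rw [monoOn_apply]
  have h1 := h ⟨i, b⟩
  rw [mono_apply] at h1
  by_cases hb : b = x i
  · subst hb
    rw [Pi.single_eq_same] at h1 ⊢
    by_cases h0 : β ⟨i, x i⟩ = 0
    · simp [h0]
    · simp only [Finset.mem_filter, Finset.mem_univ, true_and, ne_eq, h0, not_false_eq_true, if_true]
      omega
  · rw [Pi.single_eq_of_ne hb] at h1 ⊢
    simp only [ite_self]
    omega

/-- If `monoOn S x + α = mono y`, then `α` is the complementary part of `mono y`. -/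
lemma eq_of_add {S : Finset (Fin m)} {x y : ∀ i, J i} {α : (Σ i, J i) →₀ ℕ}
    (h : monoOn S x + α = mono y) : α = monoOn (Finset.univ \ S) y ∧ ∀ i ∈ S, x i = y i := by
  classical
  have hval : ∀ i b, monoOn S x ⟨i, b⟩ + α ⟨i, b⟩ = (Pi.single (y i) 1 : J i → ℕ) b := by
    intro i b
    rw [← Finsupp.add_apply, h, mono_apply]
  have hx : ∀ i ∈ S, x i = y i := by
    intro i hi
    have h1 := hval i (x i)
    rw [monoOn_apply, if_pos hi, Pi.single_eq_same] at h1
    by_contra hne
    rw [Pi.single_eq_of_ne hne] at h1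
    omega
  refine ⟨?_, hx⟩
  ext ⟨i, b⟩
  have h1 := hval i b
  rw [monoOn_apply] at h1 ⊢
  by_cases hi : i ∈ S
  · rw [if_pos hi, hx i hi] at h1
    simp only [Finset.mem_sdiff, Finset.mem_univ, true_and, hi, not_true_eq_false, if_false]
    omega
  · rw [if_neg hi, zero_add] at h1
    simp [hi, h1]

variable [∀ i, Fintype (J i)]

lemma dualGen_monomial (T : (∀ i, J i) → k) (y : ∀ i, J i) :
    dualGen T (MvPolynomial.monomial (mono y) 1) = T y := by
  classical
  rw [dualGen_apply, Finset.sum_eq_single y]
  · simp
  · intro x _ hx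
    rw [MvPolynomial.coeff_monomial, if_neg, mul_zero]
    intro h
    exact hx (mono_injective h).symm
  · intro h; exact absurd (Finset.mem_univ _) h

/-- Polynomials on which `dualGen T` vanishes for trivial reasons. -/
lemma dualGen_monomial_zero (T : (∀ i, J i) → k) {α : (Σ i, J i) →₀ ℕ}
    (h : ∀ y : ∀ i, J i, α ≠ mono y) (c : k) :
    dualGen T (MvPolynomial.monomial α c) = 0 := by
  classical
  rw [dualGen_apply]
  refine Finset.sum_eq_zero fun x _ => ?_
  rw [MvPolynomial.coeff_monomial, if_neg (h x), mul_zero]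

/-- The monomial `∏ i ∉ S, X (i, y i)`. -/
noncomputable def gmon (k : Type) [Field k] {m : ℕ} {J : Fin m → Type} (S : Finset (Fin m))
    (y : ∀ i, J i) : MvPolynomial (Σ i, J i) k :=
  MvPolynomial.monomial (monoOn (Finset.univ \ S) y) 1

/-- The functionals for all `S`, `y` separate points. -/
lemma gmon_sep (T : (∀ i, J i) → k) (a : apolar T) (h : ∀ S y, fnl T (gmon k S y) a = 0) :
    a = 0 := by
  classical
  apply fnl_sep
  obtain ⟨f, rfl⟩ := Ideal.Quotient.mk_surjective a
  intro g
  rw [fnl_mk]
  induction g using MvPolynomial.induction_on' with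
  | monomial β c =>
    by_cases hβ : ∃ x : ∀ i, J i, β ≤ mono x
    · obtain ⟨x, hx⟩ := hβ
      obtain ⟨S, hS⟩ := le_mono hx
      have h1 := h (Finset.univ \ S) x
      rw [fnl_mk] at h1
      have h2 : MvPolynomial.monomial β c = c • gmon k (Finset.univ \ S) x := by
        unfold gmon
        rw [MvPolynomial.smul_monomial, smul_eq_mul, mul_one, hS]
        congr 2
        ext i; simp
      rw [h2, smul_mul_assoc, map_smul, h1, smul_zero]
    · push Not at hβ
      rw [dualGen_apply]
      refine Finset.sum_eq_zero fun x _ => ?_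
      rw [MvPolynomial.coeff_monomial_mul', if_neg (hβ x), mul_zero]
  | add g g' hg hg' =>
    rw [add_mul, map_add, hg, hg', add_zero]

/-- The functional values for fixed `S` lie in the row space of the flattening. -/
lemma gmon_mem (T : (∀ i, J i) → k) (S : Finset (Fin m)) (a : apolar T) :
    (fun y => fnl T (gmon k S y) a) ∈ Submodule.span k (Set.range (flattening T S)) := by
  classical
  obtain ⟨f, rfl⟩ := Ideal.Quotient.mk_surjective a
  simp only [fnl_mk]
  induction f using MvPolynomial.induction_on' with
  | monomial α c =>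
    have h1 : ∀ y, gmon k S y * MvPolynomial.monomial α c =
        MvPolynomial.monomial (monoOn (Finset.univ \ S) y + α) c := by
      intro y
      unfold gmon
      rw [MvPolynomial.monomial_mul, one_mul]
    by_cases hα : ∃ x₀ y₀ : ∀ i, J i, monoOn (Finset.univ \ S) y₀ + α = mono x₀
    · obtain ⟨x₀, y₀, h2⟩ := hα
      have h3 := (eq_of_add h2).1
      have h4 : Finset.univ \ (Finset.univ \ S) = S := by ext i; simp
      rw [h4] at h3
      have h5 : (fun y => dualGen T (gmon k S y * MvPolynomial.monomial α c)) =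
          c • flattening T S x₀ := by
        funext y
        rw [h1, h3, add_comm, monoOn_add, Pi.smul_apply, smul_eq_mul]
        have h6 : (MvPolynomial.monomial (mono fun i => if i ∈ S then x₀ i else y i) c :
            MvPolynomial (Σ i, J i) k) = c • MvPolynomial.monomial
              (mono fun i => if i ∈ S then x₀ i else y i) 1 := by
          rw [MvPolynomial.smul_monomial, smul_eq_mul, mul_one]
        rw [h6, map_smul, dualGen_monomial, smul_eq_mul]
        rfl
      rw [h5]
      exact Submodule.smul_mem _ _ (Submodule.subset_span ⟨x₀, rfl⟩)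
    · push Not at hα
      have h5 : (fun y => dualGen T (gmon k S y * MvPolynomial.monomial α c)) = 0 := by
        funext y
        rw [h1]
        exact dualGen_monomial_zero T (fun x => hα x y) c
      rw [h5]
      exact Submodule.zero_mem _
  | add f f' hf hf' =>
    have h5 : (fun y => dualGen T (gmon k S y * (f + f'))) =
        (fun y => dualGen T (gmon k S y * f)) + fun y => dualGen T (gmon k S y * f') := by
      funext y
      rw [mul_add, map_add]
      rfl
    rw [h5]
    exact Submodule.add_mem _ hf hf'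

/-- The map of the apolar algebra to the row spaces. -/
noncomputable def rowMap (T : (∀ i, J i) → k) : apolar T →ₗ[k]
    (∀ S : Finset (Fin m), Submodule.span k (Set.range (flattening T S))) :=
  LinearMap.pi fun S => LinearMap.codRestrict _ (LinearMap.pi fun y => fnl T (gmon k S y))
    fun a => gmon_mem T S a

lemma rowMap_injective (T : (∀ i, J i) → k) : Function.Injective (rowMap T) := by
  rw [injective_iff_map_eq_zero]
  intro a ha
  apply gmon_sep
  intro S y
  have h1 := congrFun ha S
  have h2 := congrArg Subtype.val h1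
  exact congrFun h2 y

instance finite_apolar (T : (∀ i, J i) → k) : Module.Finite k (apolar T) :=
  Module.Finite.of_injective (rowMap T) (rowMap_injective T)

lemma finrank_apolar_le (T : (∀ i, J i) → k) :
    Module.finrank k (apolar T) ≤ ∑ S : Finset (Fin m), (flattening T S).rank := by
  classical
  refine (LinearMap.finrank_le_finrank_of_injective (rowMap_injective T)).trans ?_
  rw [Module.finrank_pi_fintype]
  refine le_of_eq (Finset.sum_congr rfl fun S _ => ?_)
  rw [Matrix.rank_eq_finrank_span_row]
  rfl

lemma finrank_apolar_le' (T : (∀ i, J i) → k) :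
    Module.finrank k (apolar T) ≤ 2 ^ m * maxFlat T := by
  refine (finrank_apolar_le T).trans ?_
  refine (Finset.sum_le_card_nsmul Finset.univ _ (maxFlat T) fun S _ => ?_).trans ?_
  · exact Finset.le_sup (f := fun S : Finset (Fin m) => (flattening T S).rank) (Finset.mem_univ S)
  · simp

/-- The classes of the variables. -/
noncomputable def cls (T : (∀ i, J i) → k) (i : Fin m) (b : J i) : apolar T :=
  Ideal.Quotient.mk (annIdeal (dualGen T)) (MvPolynomial.X ⟨i, b⟩)

lemma prod_X (x : ∀ i, J i) : (∏ i, (MvPolynomial.X ⟨i, x i⟩ : MvPolynomial (Σ i, J i) k)) =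
    MvPolynomial.monomial (mono x) 1 := by
  unfold mono
  rw [MvPolynomial.monomial_sum_one]
  rfl

lemma realises_apolar (T : (∀ i, J i) → k) : Realises k (apolar T) T := by
  refine ⟨cls T, fnl T 1, fun x => ?_⟩
  have h1 : (∏ i, cls T i (x i)) = Ideal.Quotient.mk (annIdeal (dualGen T))
      (∏ i, MvPolynomial.X ⟨i, x i⟩) := by
    rw [map_prod]
    rfl
  rw [h1, fnl_mk, one_mul, prod_X, dualGen_monomial]

/-- Flattenings have rank at most the dimension of every algebra realising `T`. -/
lemma flattening_rank_le {A : Type} [CommRing A] [Algebra k A] [Module.Finite k A]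
    {T : (∀ i, J i) → k} (h : Realises k A T) (S : Finset (Fin m)) :
    (flattening T S).rank ≤ Module.finrank k A := by
  classical
  obtain ⟨a, g, h⟩ := h
  let bas := Module.finBasis k A
  let U : Matrix (∀ i, J i) (Fin (Module.finrank k A)) k := fun x c =>
    bas.repr (∏ i ∈ S, a i (x i)) c
  let V : Matrix (Fin (Module.finrank k A)) (∀ i, J i) k := fun c y =>
    g (bas c * ∏ i ∈ Finset.univ \ S, a i (y i))
  have hUV : flattening T S = U * V := by
    ext x y
    rw [Matrix.mul_apply]
    change T (fun i => if i ∈ S then x i else y i) = _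
    rw [h]
    have h1 : (∏ i, a i (if i ∈ S then x i else y i)) =
        (∏ i ∈ S, a i (x i)) * ∏ i ∈ Finset.univ \ S, a i (y i) := by
      have h4 := Finset.prod_piecewise Finset.univ S (fun i => a i (x i)) (fun i => a i (y i))
      rw [Finset.univ_inter] at h4
      rw [← h4]
      refine Finset.prod_congr rfl fun i _ => ?_
      by_cases hi : i ∈ S
      · rw [Finset.piecewise_eq_of_mem _ _ _ hi, if_pos hi]
      · rw [Finset.piecewise_eq_of_notMem _ _ _ hi, if_neg hi]
    rw [h1]
    conv_lhs => rw [← bas.sum_repr (∏ i ∈ S, a i (x i))]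
    rw [Finset.sum_mul, map_sum]
    refine Finset.sum_congr rfl fun c _ => ?_
    rw [smul_mul_assoc, map_smul, smul_eq_mul]
  rw [hUV]
  exact (Matrix.rank_mul_le_left U V).trans ((Matrix.rank_le_card_width U).trans (by simp))

lemma maxFlat_le {A : Type} [CommRing A] [Algebra k A] [Module.Finite k A]
    {T : (∀ i, J i) → k} (h : Realises k A T) : maxFlat T ≤ Module.finrank k A :=
  Finset.sup_le fun S _ => flattening_rank_le h S

end

end Pool.Agent.H869R3.Multi
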