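import Pool.Agent.H869R3.MultiDim

set_option autoImplicit false

namespace Pool.Agent.H869R3.Multi

section matrices

variable {k : Type} [Field k]

/-- Kronecker power of a matrix. -/
def kr {R C : Type} (N : ℕ) (M : Matrix R C k) : Matrix (Fin N → R) (Fin N → C) k :=
  fun x y => ∏ ν, M (x ν) (y ν)

lemma kr_mul {R C D : Type} [Fintype C] (N : ℕ) (M : Matrix R C k) (M' : Matrix C D k) :
    kr N (M * M') = kr N M * kr N M' := by
  classical
  ext x y
  rw [Matrix.mul_apply]
  unfold kr
  simp only [Matrix.mul_apply]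
  rw [Finset.prod_univ_sum, Fintype.piFinset_univ]
  exact Finset.sum_congr rfl fun P _ => Finset.prod_mul_distrib

lemma kr_one {R : Type} [DecidableEq R] (N : ℕ) : kr N (1 : Matrix R R k) = 1 := by
  ext x y
  rw [Matrix.one_apply]
  unfold kr
  by_cases h : x = y
  · subst h
    simp
  · rw [if_neg h]
    obtain ⟨ν, hν⟩ := Function.ne_iff.mp h
    exact Finset.prod_eq_zero (Finset.mem_univ ν) (Matrix.one_apply_ne hν)

lemma rank_kr {R C : Type} [Fintype R] [Fintype C] (N : ℕ) (M : Matrix R C k) :
    (kr N M).rank = M.rank ^ N := by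
  classical
  set r := M.rank with hr
  let W := LinearMap.range M.mulVecLin
  let b : Module.Basis (Fin r) k W := Module.finBasisOfFinrankEq k W rfl
  let A : Matrix R (Fin r) k := fun x a => (b a : R → k) x
  let B : Matrix (Fin r) C k := fun a y => b.repr ⟨M.mulVecLin (Pi.single y 1), ⟨_, rfl⟩⟩ a
  have hAB : M = A * B := by
    ext x y
    rw [Matrix.mul_apply]
    have h1 := b.sum_repr ⟨M.mulVecLin (Pi.single y 1), ⟨_, rfl⟩⟩
    have h2 := congrFun (congrArg Subtype.val h1) x
    rw [Submodule.coe_sum, Finset.sum_apply] at h2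
    have h3 : M.mulVecLin (Pi.single y 1) x = M x y := by
      rw [Matrix.mulVecLin_apply, Matrix.mulVec_single_one]
      rfl
    refine (h2.trans h3).symm.trans (Finset.sum_congr rfl fun a _ => ?_)
    rw [mul_comm]
    rfl
  choose q hq using fun a => (b a).2
  let Q : Matrix C (Fin r) k := fun y a => q a y
  have hMQ : M * Q = A := by
    ext x a
    rw [Matrix.mul_apply]
    exact congrFun (hq a) x
  have hinj : Function.Injective (W.subtype ∘ₗ (b.equivFun.symm : (Fin r → k) →ₗ[k] W)) :=
    (Subtype.val_injective).comp b.equivFun.symm.injective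
  obtain ⟨L, hL⟩ := LinearMap.exists_leftInverse_of_injective _ (LinearMap.ker_eq_bot.mpr hinj)
  let P : Matrix (Fin r) R k := fun a x => L (Pi.single x 1) a
  have hPA : P * A = 1 := by
    ext a c
    rw [Matrix.mul_apply]
    have h1 : (b c : R → k) = ∑ x, (b c : R → k) x • (Pi.single x (1 : k) : R → k) := by
      ext y
      simp [Finset.sum_apply, Pi.single_apply]
    have h2 : L (b c : R → k) = Pi.single c 1 := by
      have h3 := LinearMap.congr_fun hL (Pi.single c 1)
      have h4 : (W.subtype ∘ₗ (b.equivFun.symm : (Fin r → k) →ₗ[k] W)) (Pi.single c 1) =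
          (b c : R → k) := by
        change ((b.equivFun.symm (Pi.single c 1) : W) : R → k) = _
        rw [Module.Basis.equivFun_symm_apply]
        simp [Pi.single_apply]
      rw [← h4]
      exact h3
    have h5 : L (b c : R → k) a = ∑ x, P a x * A x c := by
      conv_lhs => rw [h1]
      rw [map_sum, Finset.sum_apply]
      refine Finset.sum_congr rfl fun x _ => ?_
      rw [map_smul, Pi.smul_apply, smul_eq_mul, mul_comm]
    rw [← h5, h2, Matrix.one_apply, Pi.single_apply]
  apply le_antisymm
  · conv_lhs => rw [hAB]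
    rw [kr_mul]
    refine (Matrix.rank_mul_le_left _ _).trans ((Matrix.rank_le_card_width _).trans ?_)
    simp
  · have h1 : kr N P * (kr N M * kr N Q) = 1 := by
      rw [← kr_mul, hMQ, ← kr_mul, hPA, kr_one]
    have h2 : (1 : Matrix (Fin N → Fin r) (Fin N → Fin r) k).rank = r ^ N := by
      rw [Matrix.rank_one]
      simp
    rw [← h2, ← h1]
    exact (Matrix.rank_mul_le_right _ _).trans (Matrix.rank_mul_le_left _ _)

end matrices

section

variable {k : Type} [Field k] {m : ℕ} {J : Fin m → Type} [∀ i, Fintype (J i)]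

lemma flattening_kpow (T : (∀ i, J i) → k) (N : ℕ) (S : Finset (Fin m)) :
    (flattening (kpow T N) S).rank = (flattening T S).rank ^ N := by
  classical
  rw [← rank_kr]
  let e : (∀ i, Fin N → J i) ≃ (Fin N → ∀ i, J i) := Equiv.piComm fun i _ => J i
  have h1 : flattening (kpow T N) S = (kr N (flattening T S)).submatrix e e := by
    ext x y
    change (∏ ν, T fun i => (if i ∈ S then x i else y i) ν) =
      ∏ ν, T fun i => if i ∈ S then x i ν else y i ν
    refine Finset.prod_congr rfl fun ν _ => ?_
    congr 1
    funext i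
    by_cases hi : i ∈ S
    · simp [hi]
    · simp [hi]
  rw [h1, Matrix.rank_submatrix]

lemma maxFlat_kpow (T : (∀ i, J i) → k) (N : ℕ) : maxFlat (kpow T N) = maxFlat T ^ N := by
  classical
  apply le_antisymm
  · refine Finset.sup_le fun S _ => ?_
    rw [flattening_kpow]
    exact Nat.pow_le_pow_left
      (Finset.le_sup (f := fun S : Finset (Fin m) => (flattening T S).rank) (Finset.mem_univ S)) _
  · obtain ⟨S, _, hS⟩ := Finset.exists_mem_eq_sup (Finset.univ : Finset (Finset (Fin m)))
      Finset.univ_nonempty (fun S : Finset (Fin m) => (flattening T S).rank)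
    have h1 : maxFlat T = (flattening T S).rank := hS
    rw [h1, ← flattening_kpow]
    exact Finset.le_sup (f := fun S : Finset (Fin m) => (flattening (kpow T N) S).rank)
      (Finset.mem_univ S)

/-- Nonzero tensors have nonzero flattenings. -/
lemma maxFlat_pos {T : (∀ i, J i) → k} (hT : T ≠ 0) : 1 ≤ maxFlat T := by
  by_contra hlt
  have h0 : maxFlat T = 0 := by omega
  have h1 := finrank_apolar_le' T
  rw [h0, mul_zero] at h1
  have h2 : Subsingleton (apolar T) := Module.finrank_zero_iff.mp (Nat.le_zero.mp h1)
  obtain ⟨a, g, h⟩ := realises_apolar T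
  apply hT
  funext x
  rw [h x, Subsingleton.elim (∏ i, a i (x i)) 0, map_zero]
  rfl

end

end Pool.Agent.H869R3.Multi
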