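import Pool.Agent.H869R3.MultiDefs
import Pool.Agent.H869R3.Border

set_option autoImplicit false

namespace Pool.Agent.H869R3.Multi

open scoped TensorProduct PowerSeries

section

variable {k : Type} [Field k] {m : ℕ} {J : Fin m → Type}

lemma rank_of_fintype {T : (∀ i, J i) → k} {ι : Type} [Fintype ι]
    (l : ι → ∀ i, J i → k) (h : ∀ x, T x = ∑ ρ, ∏ i, l ρ i (x i)) :
    RankLE T (Fintype.card ι) := by
  let e := Fintype.equivFin ι
  refine ⟨fun p => l (e.symm p), ?_⟩
  intro x
  rw [h, ← e.symm.sum_comp]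

/-- With at least one factor, weights can be absorbed. -/
lemma rank_of_weights (hm : 0 < m) {T : (∀ i, J i) → k} {ι : Type} [Fintype ι] (w : ι → k)
    (l : ι → ∀ i, J i → k) (h : ∀ x, T x = ∑ ρ, w ρ * ∏ i, l ρ i (x i)) :
    RankLE T (Fintype.card ι) := by
  refine rank_of_fintype (fun ρ i a => (if i = ⟨0, hm⟩ then w ρ else 1) * l ρ i a) ?_
  intro x
  rw [h]
  refine Finset.sum_congr rfl fun ρ _ => ?_
  rw [Finset.prod_mul_distrib]
  congr 1
  rw [Finset.prod_ite_eq']
  simp

lemma RankLE.mono (hm : 0 < m) {T : (∀ i, J i) → k} {r s : ℕ} (h : RankLE T r) (hrs : r ≤ s) :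
    RankLE T s := by
  obtain ⟨l, h⟩ := h
  obtain ⟨t, rfl⟩ := Nat.exists_eq_add_of_le hrs
  have := rank_of_weights hm (T := T) (ι := Fin r ⊕ Fin t) (Sum.elim 1 0)
    (Sum.elim l fun _ _ _ => 0) (by
      intro x
      rw [Fintype.sum_sum_type, h]
      simp)
  simpa using this

/-- A linear combination of `c` tensors of rank at most `r` has rank at most `c r`. -/
lemma rank_sum (hm : 0 < m) {ι : Type} [Fintype ι] (S : ι → (∀ i, J i) → k) {r : ℕ}
    (hS : ∀ s, RankLE (S s) r)
    (w : ι → k) {T : (∀ i, J i) → k} (hT : ∀ x, T x = ∑ s, w s * S s x) :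
    RankLE T (Fintype.card ι * r) := by
  choose l h using hS
  have := rank_of_weights hm (T := T) (ι := ι × Fin r) (fun p => w p.1) (fun p => l p.1 p.2) (by
      intro x
      rw [hT, Fintype.sum_prod_type]
      refine Finset.sum_congr rfl fun s _ => ?_
      rw [h, Finset.mul_sum])
  simpa using this

/-- Kronecker powers of a tensor of rank at most `r` have rank at most `r ^ N`. -/
lemma rank_pow {S : (∀ i, J i) → k} {r : ℕ} (hS : RankLE S r) (N : ℕ) :
    RankLE (kpow S N) (r ^ N) := by
  obtain ⟨l, h⟩ := hS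
  have := rank_of_fintype (T := kpow S N)
    (ι := Fin N → Fin r) (fun P i a => ∏ ν, l (P ν) i (a ν)) (by
      intro x
      unfold kpow
      simp only [h]
      rw [Finset.prod_univ_sum, Fintype.piFinset_univ]
      refine Finset.sum_congr rfl fun P _ => ?_
      rw [Finset.prod_comm])
  simpa using this

variable [∀ i, Fintype (J i)]

/-- Every polynomial that vanishes on the tensors of rank at most `D` vanishes on `T` (`T` has border
rank at most `D`). -/
def BorderLE (T : (∀ i, J i) → k) (D : ℕ) : Prop :=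
  ∀ φ : MvPolynomial (∀ i, J i) k,
    (∀ S : (∀ i, J i) → k, RankLE S D → MvPolynomial.eval S φ = 0) → MvPolynomial.eval T φ = 0

/-- The rank of the Kronecker powers of a tensor of border rank at most `D`. -/
theorem kronecker_rank (hm : 0 < m) {T : (∀ i, J i) → k} {D : ℕ} (hT : BorderLE T D) (N : ℕ) :
    RankLE (kpow T N) ((N + 1) ^ Fintype.card (∀ i, J i) * D ^ N) := by
  classical
  let ι := ∀ i, J i
  let pw : (ι → k) → ((Fin N → ι) → k) := fun S x => ∏ ν, S (x ν)
  let SS : Set ((Fin N → ι) → k) := {h | ∃ S : ι → k, RankLE S D ∧ h = pw S}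
  -- `pw T` is in the span
  have hmem : pw T ∈ Submodule.span k SS := by
    by_contra hnot
    obtain ⟨f, hf1, hf2⟩ := Submodule.exists_dual_map_eq_bot_of_notMem hnot inferInstance
    let φ : MvPolynomial ι k := ∑ x : Fin N → ι, MvPolynomial.C (f (Pi.single x 1)) *
      ∏ ν, MvPolynomial.X (x ν)
    have hφ : ∀ S : ι → k, MvPolynomial.eval S φ = f (pw S) := by
      intro S
      have h1 : pw S = ∑ x : Fin N → ι, (pw S x) • (Pi.single x (1 : k) : (Fin N → ι) → k) := by
        ext y
        simp only [Finset.sum_apply, Pi.smul_apply, Pi.single_apply, smul_eq_mul, mul_ite, mul_one,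
          mul_zero]
        rw [Finset.sum_ite_eq]
        simp
      rw [h1, map_sum]
      simp only [φ, map_sum, map_mul, MvPolynomial.eval_C, map_prod, MvPolynomial.eval_X, map_smul,
        smul_eq_mul]
      exact Finset.sum_congr rfl fun x _ => mul_comm _ _
    have h2 := hT φ (fun S hS => by
      rw [hφ]
      have h3 : f (pw S) ∈ Submodule.map f (Submodule.span k SS) :=
        Submodule.mem_map_of_mem (Submodule.subset_span ⟨S, hS, rfl⟩)
      rw [hf2] at h3
      exact (Submodule.mem_bot k).mp h3)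
    apply hf1
    rw [← hφ]
    exact h2
  -- the dimension of the span
  let cnt : (Fin N → ι) → (ι → Fin (N + 1)) := fun x i =>
    ⟨(Finset.univ.filter fun ν => x ν = i).card, by
      have := Finset.card_le_univ (Finset.univ.filter fun ν => x ν = i)
      simp only [Fintype.card_fin] at this
      omega⟩
  let Φ : ((ι → Fin (N + 1)) → k) →ₗ[k] ((Fin N → ι) → k) := LinearMap.funLeft k k cnt
  have hpw : ∀ S : ι → k, pw S = Φ (fun c => ∏ i, S i ^ (c i : ℕ)) := by
    intro S
    ext x
    change ∏ ν, S (x ν) = ∏ i, S i ^ ((Finset.univ.filter fun ν => x ν = i).card)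
    rw [← Finset.prod_fiberwise Finset.univ x (fun ν => S (x ν))]
    refine Finset.prod_congr rfl fun i _ => ?_
    rw [Finset.prod_congr rfl (g := fun _ => S i) (by
      intro ν hν
      rw [(Finset.mem_filter.mp hν).2])]
    rw [Finset.prod_const]
  have hle : Submodule.span k SS ≤ LinearMap.range Φ := by
    rw [Submodule.span_le]
    rintro _ ⟨S, _, rfl⟩
    exact ⟨_, (hpw _).symm⟩
  have hdim : Module.finrank k (Submodule.span k SS) ≤ (N + 1) ^ Fintype.card ι := by
    refine (Submodule.finrank_mono hle).trans ?_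
    refine (LinearMap.finrank_range_le Φ).trans ?_
    simp
  -- a basis among the powers
  obtain ⟨b, hb, hbs, hbl⟩ := exists_linearIndependent k SS
  have hbfin : b.Finite := hbl.setFinite
  haveI : Fintype b := hbfin.fintype
  have hcard : Fintype.card b ≤ (N + 1) ^ Fintype.card ι := by
    have h1 := finrank_span_eq_card hbl
    rw [Subtype.range_coe, hbs] at h1
    rw [← h1]
    exact hdim
  rw [← hbs] at hmem
  have hmem2 : pw T ∈ Submodule.span k (Set.range (Subtype.val : b → _)) := by
    rwa [Subtype.range_coe]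
  obtain ⟨w, hw⟩ := (Submodule.mem_span_range_iff_exists_fun k).mp hmem2
  choose S hS hS2 using fun s : b => hb s.2
  have hfinal := rank_sum hm (T := kpow T N) (fun (s : b) => kpow (S s) N)
    (fun s => rank_pow (hS s) N) w (by
      intro x
      have h1 := congrFun hw (fun ν i => x i ν)
      rw [Finset.sum_apply] at h1
      change _ = kpow T N x at h1
      rw [← h1]
      refine Finset.sum_congr rfl fun s _ => ?_
      rw [Pi.smul_apply, hS2 s]
      rfl)
  exact hfinal.mono hm (Nat.mul_le_mul_right _ hcard)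

/-- A polynomial vanishing on the tensors of rank at most `D` over `k` vanishes on the tensors of rank
at most `D` over every extension field. -/
lemma eval₂_rank {Ω : Type} [Infinite k] [Field Ω] (f : k →+* Ω) {D : ℕ}
    (φ : MvPolynomial (∀ i, J i) k)
    (hφ : ∀ S : (∀ i, J i) → k, RankLE S D → MvPolynomial.eval S φ = 0)
    (S : (∀ i, J i) → Ω) (hS : RankLE S D) :
    MvPolynomial.eval₂ f S φ = 0 := by
  let W := Fin D × (Σ i, J i)
  let gen : (∀ i, J i) → MvPolynomial W k := fun x =>
    ∑ p, ∏ i, MvPolynomial.X (p, ⟨i, x i⟩)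
  have h0 : MvPolynomial.bind₁ gen φ = 0 := by
    apply MvPolynomial.funext
    intro v
    rw [map_zero]
    have h1 : MvPolynomial.eval v (MvPolynomial.bind₁ gen φ) =
        MvPolynomial.eval (fun x => MvPolynomial.eval v (gen x)) φ := by
      have := MvPolynomial.eval₂Hom_bind₁ (RingHom.id k) v gen φ
      exact this
    rw [h1]
    have h2 := hφ (fun x => ∑ p, ∏ i, v (p, ⟨i, x i⟩)) ⟨fun p i a => v (p, ⟨i, a⟩),
        fun _ => rfl⟩
    rw [← h2]
    congr 2
    ext x
    simp [gen]
  obtain ⟨l, h⟩ := hS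
  let v : W → Ω := fun q => l q.1 q.2.1 q.2.2
  have h1 := MvPolynomial.eval₂Hom_bind₁ f v gen φ
  rw [h0, map_zero] at h1
  have h2 : S = fun x => MvPolynomial.eval₂Hom f v (gen x) := by
    ext x
    rw [h]
    simp [gen, v]
  rw [h2]
  exact h1.symm

/-- The tensors obtained from the special fibre of a generically étale algebra of rank `D` have border
rank at most `D`. -/
theorem border_of_smoothing (hm : 0 < m) {B : Type} [Infinite k] [CommRing B] [Algebra k⟦X⟧ B]
    [Module.Finite k⟦X⟧ B] [Module.Free k⟦X⟧ B]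
    (het : Algebra.Etale (LaurentSeries k) (LaurentSeries k ⊗[k⟦X⟧] B))
    (a : ∀ i, J i → B) (g : Module.Dual k⟦X⟧ B) :
    BorderLE (fun x => PowerSeries.constantCoeff (g (∏ i, a i (x i))))
      (Module.finrank k⟦X⟧ B) := by
  intro φ hφ
  let K := LaurentSeries k
  let Ω := AlgebraicClosure K
  have he1 : Algebra.Etale Ω (Ω ⊗[K] (K ⊗[k⟦X⟧] B)) := inferInstance
  have he2 : Algebra.Etale Ω (Ω ⊗[k⟦X⟧] B) :=
    Algebra.Etale.of_equiv (Algebra.TensorProduct.cancelBaseChange k⟦X⟧ K Ω Ω B)
  obtain ⟨P, _, ⟨e⟩⟩ := exists_pi_equiv (Ω := Ω) (E := Ω ⊗[k⟦X⟧] B)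
  have hP : Fintype.card P = Module.finrank k⟦X⟧ B := by
    have h1 := e.toLinearEquiv.finrank_eq
    rw [Module.finrank_baseChange] at h1
    rw [h1]
    simp
  -- the extended functional
  let G : (Ω ⊗[k⟦X⟧] B) →ₗ[Ω] Ω :=
    (TensorProduct.AlgebraTensorModule.rid k⟦X⟧ Ω Ω).toLinearMap ∘ₗ
      LinearMap.baseChange Ω (g : B →ₗ[k⟦X⟧] k⟦X⟧)
  have hG : ∀ (x : B), G (1 ⊗ₜ x) = algebraMap k⟦X⟧ Ω (g x) := by
    intro x
    change TensorProduct.AlgebraTensorModule.rid k⟦X⟧ Ω Ω
      (LinearMap.baseChange Ω (g : B →ₗ[k⟦X⟧] k⟦X⟧) (1 ⊗ₜ x)) = _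
    rw [LinearMap.baseChange_tmul, TensorProduct.AlgebraTensorModule.rid_tmul,
      Algebra.algebraMap_eq_smul_one]
  let Tt : (∀ i, J i) → k⟦X⟧ := fun x => g (∏ i, a i (x i))
  let ι₂ : B →ₐ[k⟦X⟧] Ω ⊗[k⟦X⟧] B := Algebra.TensorProduct.includeRight
  have hrank : RankLE (fun x => algebraMap k⟦X⟧ Ω (Tt x)) (Module.finrank k⟦X⟧ B) := by
    classical
    rw [← hP]
    refine rank_of_weights hm (fun p => G (e.symm (Pi.single p 1)))
      (fun p i b => e (ι₂ (a i b)) p) ?_
    intro x
    rw [← hG]
    have h1 : (1 : Ω) ⊗ₜ[k⟦X⟧] (∏ i, a i (x i)) = e.symm (∏ i, e (ι₂ (a i (x i)))) := by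
      rw [← map_prod, AlgEquiv.symm_apply_apply, ← map_prod]
      rfl
    have h2 : (∏ i, e (ι₂ (a i (x i)))) =
        ∑ p, (∏ i, e (ι₂ (a i (x i))) p) • (Pi.single p (1 : Ω) : P → Ω) := by
      ext q
      simp only [Finset.sum_apply, Pi.smul_apply, Pi.single_apply, smul_eq_mul, mul_ite, mul_one,
        mul_zero, Finset.prod_apply]
      rw [Finset.sum_ite_eq]
      simp
    rw [h1, h2, map_sum, map_sum]
    refine Finset.sum_congr rfl fun p _ => ?_
    rw [map_smul, map_smul, smul_eq_mul, mul_comm]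
  have h3 := eval₂_rank ((algebraMap k⟦X⟧ Ω).comp PowerSeries.C) φ hφ _ hrank
  have h4 : MvPolynomial.eval₂ ((algebraMap k⟦X⟧ Ω).comp PowerSeries.C)
      (fun x => algebraMap k⟦X⟧ Ω (Tt x)) φ =
      algebraMap k⟦X⟧ Ω (MvPolynomial.eval₂ PowerSeries.C Tt φ) :=
    (MvPolynomial.eval₂_comp_left (algebraMap k⟦X⟧ Ω) PowerSeries.C _ φ).symm
  rw [h4] at h3
  have hinj : Function.Injective (algebraMap k⟦X⟧ Ω) := by
    rw [IsScalarTower.algebraMap_eq k⟦X⟧ K Ω]
    exact (algebraMap K Ω).injective.comp (IsFractionRing.injective k⟦X⟧ K)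
  have h5 := (map_eq_zero_iff _ hinj).mp h3
  have h6 := congrArg (PowerSeries.constantCoeff (R := k)) h5
  rw [map_zero, MvPolynomial.eval₂_comp_left] at h6
  have h7 : (PowerSeries.constantCoeff (R := k)).comp PowerSeries.C = RingHom.id k := by
    ext x; simp
  rw [h7] at h6
  exact h6

lemma BorderLE.mono (hm : 0 < m) {T : (∀ i, J i) → k} {r s : ℕ} (h : BorderLE T r) (hrs : r ≤ s) :
    BorderLE T s :=
  fun φ hφ => h φ fun S hS => hφ S (hS.mono hm hrs)

/-- Tensors read off from an algebra contained in a smoothable one. -/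
lemma defect_border (hm : 0 < m) {A : Type} [Infinite k] [CommRing A] [Algebra k A] {j : ℕ}
    (h : DefectLE k A j) (a : ∀ i, J i → A) (g : Module.Dual k A) :
    BorderLE (fun x => g (∏ i, a i (x i))) (Module.finrank k A + j) := by
  obtain ⟨C, _, _, gC, hgC, hCfin, ⟨B, _, _, hfin, hflat, het, π₀, hπ₀, hker, hcomm⟩, hle⟩ := h
  haveI hfree : Module.Free k⟦X⟧ B := Module.free_of_flat_of_isLocalRing
  let bas := Module.finBasis k⟦X⟧ B
  have hsm : ∀ (f : k⟦X⟧) (x : B), π₀ (f • x) = PowerSeries.constantCoeff f • π₀ x := by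
    intro f x
    rw [Algebra.smul_def, map_mul, hcomm, Algebra.smul_def]
  -- the rank of `B` is at most `dim C`
  have hrank : Module.finrank k⟦X⟧ B ≤ Module.finrank k C := by
    have hli : LinearIndependent k (fun i => π₀ (bas i)) := by
      rw [Fintype.linearIndependent_iff]
      intro c hc i
      have h1 : π₀ (∑ i, (PowerSeries.C (c i) : k⟦X⟧) • bas i) = 0 := by
        rw [map_sum, ← hc]
        refine Finset.sum_congr rfl fun i _ => ?_
        rw [hsm]
        simp
      have h2 : (∑ i, (PowerSeries.C (c i) : k⟦X⟧) • bas i) ∈ RingHom.ker π₀ := h1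
      rw [hker] at h2
      obtain ⟨d, hd⟩ := Ideal.mem_span_singleton'.mp h2
      have h3 : d * algebraMap k⟦X⟧ B PowerSeries.X = (PowerSeries.X : k⟦X⟧) • d := by
        rw [Algebra.smul_def, mul_comm]
      rw [h3] at hd
      have h4 := congrArg (fun x => PowerSeries.constantCoeff (bas.repr x i)) hd
      simp only [map_smul, Finsupp.smul_apply, smul_eq_mul, map_mul] at h4
      rw [Module.Basis.repr_sum_self] at h4
      simpa using h4.symm
    have := hli.fintype_card_le_finrank
    simpa using this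
  let π : B → A := fun x => gC (π₀ x)
  have hπs : Function.Surjective π := hgC.comp hπ₀
  choose a' ha' using fun (i : Fin m) (b : J i) => hπs (a i b)
  let g' : Module.Dual k⟦X⟧ B :=
    bas.constr k⟦X⟧ fun i => (PowerSeries.C (g (π (bas i))) : k⟦X⟧)
  have hg' : ∀ x, PowerSeries.constantCoeff (g' x) = g (π x) := by
    intro x
    have h1 : g' x = ∑ i, bas.repr x i • (PowerSeries.C (g (π (bas i))) : k⟦X⟧) := by
      simp only [g', Module.Basis.constr_apply_fintype, Module.Basis.equivFun_apply]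
    have h2 : π x = ∑ i, PowerSeries.constantCoeff (bas.repr x i) • π (bas i) := by
      simp only [π]
      conv_lhs => rw [← bas.sum_repr x]
      rw [map_sum, map_sum]
      refine Finset.sum_congr rfl fun i _ => ?_
      rw [hsm, map_smul]
    rw [h1, h2, map_sum, map_sum]
    refine Finset.sum_congr rfl fun i _ => ?_
    rw [smul_eq_mul, map_mul, PowerSeries.constantCoeff_C, LinearMap.map_smul, smul_eq_mul]
  have hfinal := border_of_smoothing hm het a' g'
  have heq : (fun x : ∀ i, J i => PowerSeries.constantCoeff (g' (∏ i, a' i (x i)))) =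
      fun x => g (∏ i, a i (x i)) := by
    funext x
    rw [hg']
    simp only [π, map_prod]
    congr 1
    refine Finset.prod_congr rfl fun i _ => ?_
    exact ha' i (x i)
  rw [heq] at hfinal
  exact hfinal.mono hm (hrank.trans hle)

end

end Pool.Agent.H869R3.Multi
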