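import Pool.Agent.H869R3.MultiDefs
import Pool.Agent.H869R3.MultiCore

set_option autoImplicit false

namespace Pool.Agent.H869R3.Multi

open scoped PowerSeries
open PowerSeries

section party

variable {k : Type} [Field k] {J : Type} [Fintype J]

/-- One tensor factor. -/
lemma party (e : J → ℕ) (l : J → k) [DecidableEq J] : ∃ w : k⟦X⟧,
    (∏ b, (X * C (l b)) ^ e b) - (∏ b, (0 : k⟦X⟧) ^ e b) = X * w ∧
      constantCoeff w = ∑ b, if e = Pi.single b 1 then l b else 0 := by
  by_cases he : e = 0
  · subst he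
    refine ⟨0, by simp, ?_⟩
    rw [map_zero]
    refine (Finset.sum_eq_zero fun b _ => ?_).symm
    rw [if_neg]
    intro h
    have := congrFun h b
    simp at this
  · obtain ⟨b₀, hb₀⟩ := Function.ne_iff.mp he
    have hb₀' : e b₀ ≠ 0 := hb₀
    have hv : (∏ b, (0 : k⟦X⟧) ^ e b) = 0 :=
      Finset.prod_eq_zero (Finset.mem_univ b₀) (zero_pow hb₀')
    have hu : (∏ b, (X * C (l b) : k⟦X⟧) ^ e b) = X ^ (∑ b, e b) * C (∏ b, l b ^ e b) := by
      simp only [mul_pow, Finset.prod_mul_distrib, Finset.prod_pow_eq_pow_sum, map_prod, map_pow]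
    have hn : 1 ≤ ∑ b, e b :=
      le_trans (Nat.one_le_iff_ne_zero.mpr hb₀')
        (Finset.single_le_sum (f := e) (fun _ _ => Nat.zero_le _) (Finset.mem_univ b₀))
    refine ⟨X ^ (∑ b, e b - 1) * C (∏ b, l b ^ e b), ?_, ?_⟩
    · rw [hv, hu, sub_zero, ← mul_assoc, ← pow_succ', Nat.sub_add_cancel hn]
    · by_cases hs : e = Pi.single b₀ 1
      · have h1 : ∑ b, e b = 1 := by
          rw [hs]
          simp [Pi.single_apply]
        have h2 : ∏ b, l b ^ e b = l b₀ := by
          rw [Finset.prod_eq_single b₀]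
          · rw [hs]; simp
          · intro b _ hb
            rw [hs, Pi.single_eq_of_ne hb, pow_zero]
          · intro h; exact absurd (Finset.mem_univ _) h
        rw [h1, h2, Finset.sum_eq_single b₀]
        · rw [if_pos hs]; simp
        · intro b _ hb
          rw [if_neg]
          intro h
          rw [hs] at h
          have := congrFun h b
          rw [Pi.single_eq_of_ne hb, Pi.single_eq_same] at this
          exact zero_ne_one this
        · intro h; exact absurd (Finset.mem_univ _) h
      · have hns : ∀ b, e ≠ Pi.single b 1 := by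
          intro b h
          have h1 : b₀ = b := by
            by_contra hne
            rw [h, Pi.single_eq_of_ne hne] at hb₀'
            exact hb₀' rfl
          rw [← h1] at h
          exact hs h
        have h2 : 2 ≤ ∑ b, e b := by
          by_contra hlt
          have h1 : ∑ b, e b = 1 := by omega
          have h3 := Finset.add_sum_erase Finset.univ e (Finset.mem_univ b₀)
          have h4 : ∑ b ∈ Finset.univ.erase b₀, e b = 0 := by omega
          have h5 : e b₀ = 1 := by omega
          apply hs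
          funext b
          by_cases hb : b = b₀
          · rw [hb, Pi.single_eq_same, h5]
          · rw [Pi.single_eq_of_ne hb]
            exact Finset.sum_eq_zero_iff.mp h4 b (Finset.mem_erase.mpr ⟨hb, Finset.mem_univ _⟩)
        rw [Finset.sum_eq_zero fun b _ => if_neg (hns b), map_mul, map_pow]
        have h6 : ∑ b, e b - 1 ≠ 0 := by omega
        simp [h6]

end party

section

variable {k : Type} [Field k] {m : ℕ} {J : Fin m → Type}

lemma mono_apply [∀ i, DecidableEq (J i)] (x : ∀ i, J i) (i : Fin m) (b : J i) :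
    mono x ⟨i, b⟩ = (Pi.single (x i) 1 : J i → ℕ) b := by
  classical
  unfold mono
  rw [Finsupp.finset_sum_apply, Finset.sum_eq_single i]
  · by_cases hb : b = x i
    · subst hb
      simp
    · rw [Pi.single_eq_of_ne hb, Finsupp.single_eq_of_ne]
      intro h
      rw [Sigma.mk.injEq] at h
      exact hb (eq_of_heq h.2)
  · intro j _ hj
    rw [Finsupp.single_eq_of_ne]
    intro h
    rw [Sigma.mk.injEq] at h
    exact hj h.1.symm
  · intro h; exact absurd (Finset.mem_univ _) h

lemma eq_mono_iff [∀ i, DecidableEq (J i)] (α : (Σ i, J i) →₀ ℕ) (x : ∀ i, J i) :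
    α = mono x ↔ ∀ i, (fun b => α ⟨i, b⟩) = (Pi.single (x i) 1 : J i → ℕ) := by
  constructor
  · intro h i
    funext b
    rw [h, mono_apply]
  · intro h
    ext ⟨i, b⟩
    rw [mono_apply]
    exact congrFun (h i) b

lemma mono_injective : Function.Injective (mono (J := J)) := by
  classical
  intro x y h
  funext i
  have h1 := (eq_mono_iff (mono x) y).mp h i
  have h2 := congrFun h1 (x i)
  beta_reduce at h2
  rw [mono_apply, Pi.single_eq_same] at h2
  by_contra hne
  rw [Pi.single_eq_of_ne hne] at h2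
  exact one_ne_zero h2

variable [∀ i, Fintype (J i)]

lemma dualGen_apply (T : (∀ i, J i) → k) (f : MvPolynomial (Σ i, J i) k) :
    dualGen T f = ∑ x, T x * MvPolynomial.coeff (mono x) f := by
  simp [dualGen, MvPolynomial.lcoeff]

/-- The points. -/
noncomputable def pts {r : ℕ} (l : Fin r → ∀ i, J i → k) (q : Fin r × Finset (Fin m))
    (s : Σ i, J i) : k⟦X⟧ := if s.1 ∈ q.2 then X * C (l q.1 s.1 s.2) else 0

lemma key {T : (∀ i, J i) → k} {r : ℕ} {l : Fin r → ∀ i, J i → k}
    (hl : ∀ x, T x = ∑ ρ, ∏ i, l ρ i (x i)) (F : MvPolynomial (Σ i, J i) k) :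
    ∃ h : k⟦X⟧, ∑ q : Fin r × Finset (Fin m), (-1) ^ (Finset.univ \ q.2).card *
      MvPolynomial.eval₂ C (pts l q) F = X ^ m * (C (dualGen T F) + X * h) := by
  classical
  induction F using MvPolynomial.induction_on' with
  | monomial α a =>
    choose w hw1 hw2 using fun (ρ : Fin r) (i : Fin m) => party (fun b => α ⟨i, b⟩) (l ρ i)
    have h1 : ∀ ρ : Fin r, ∑ S : Finset (Fin m), (-1) ^ (Finset.univ \ S).card *
        MvPolynomial.eval₂ C (pts l (ρ, S)) (MvPolynomial.monomial α a) =
        C a * (X ^ m * ∏ i, w ρ i) := by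
      intro ρ
      have h2 : X ^ m * ∏ i, w ρ i = ∏ i, ((∏ b, (X * C (l ρ i b)) ^ α ⟨i, b⟩) +
          -(∏ b, (0 : k⟦X⟧) ^ α ⟨i, b⟩)) := by
        simp only [← sub_eq_add_neg, hw1]
        rw [Finset.prod_mul_distrib]
        simp
      rw [h2, Finset.prod_add, Finset.powerset_univ, Finset.mul_sum]
      refine Finset.sum_congr rfl fun S _ => ?_
      rw [MvPolynomial.eval₂_monomial, Finsupp.prod_fintype _ _ (fun _ => pow_zero _),
        Fintype.prod_sigma]
      have h3 : (∏ i, ∏ b, pts l (ρ, S) ⟨i, b⟩ ^ α ⟨i, b⟩) =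
          (∏ i ∈ S, ∏ b, (X * C (l ρ i b)) ^ α ⟨i, b⟩) *
            ∏ i ∈ Finset.univ \ S, ∏ b, (0 : k⟦X⟧) ^ α ⟨i, b⟩ := by
        have h4 := Finset.prod_piecewise Finset.univ S
          (fun i => ∏ b, (X * C (l ρ i b)) ^ α ⟨i, b⟩) (fun i => ∏ b, (0 : k⟦X⟧) ^ α ⟨i, b⟩)
        rw [Finset.univ_inter] at h4
        rw [← h4]
        refine Finset.prod_congr rfl fun i _ => ?_
        by_cases hi : i ∈ S
        · rw [Finset.piecewise_eq_of_mem _ _ _ hi]
          exact Finset.prod_congr rfl fun b _ => by simp [pts, hi]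
        · rw [Finset.piecewise_eq_of_notMem _ _ _ hi]
          exact Finset.prod_congr rfl fun b _ => by simp [pts, hi]
      rw [h3, Finset.prod_neg]
      ring
    have h5 : ∑ q : Fin r × Finset (Fin m), (-1) ^ (Finset.univ \ q.2).card *
        MvPolynomial.eval₂ C (pts l q) (MvPolynomial.monomial α a) =
        X ^ m * (C a * ∑ ρ, ∏ i, w ρ i) := by
      rw [Fintype.sum_prod_type]
      simp only [h1]
      rw [← Finset.mul_sum, ← Finset.mul_sum]
      ring
    obtain ⟨h, hh⟩ := exists_eq_const (C a * ∑ ρ, ∏ i, w ρ i)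
    refine ⟨h, ?_⟩
    rw [h5]
    nth_rewrite 1 [hh]
    congr 3
    rw [map_mul, map_sum, constantCoeff_C, dualGen_apply]
    have h6 : ∀ ρ, constantCoeff (∏ i, w ρ i) =
        ∑ x : ∀ i, J i, if α = mono x then ∏ i, l ρ i (x i) else 0 := by
      intro ρ
      rw [map_prod]
      simp only [hw2]
      rw [Finset.prod_univ_sum, Fintype.piFinset_univ]
      refine Finset.sum_congr rfl fun x _ => ?_
      by_cases hx : α = mono x
      · rw [if_pos hx]
        refine Finset.prod_congr rfl fun i _ => ?_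
        rw [if_pos ((eq_mono_iff α x).mp hx i)]
      · rw [if_neg hx]
        rw [eq_mono_iff] at hx
        push Not at hx
        obtain ⟨i, hi⟩ := hx
        exact Finset.prod_eq_zero (Finset.mem_univ i) (if_neg hi)
    simp only [h6]
    rw [Finset.sum_comm, Finset.mul_sum]
    refine Finset.sum_congr rfl fun x _ => ?_
    rw [MvPolynomial.coeff_monomial]
    by_cases hx : α = mono x
    · simp only [if_pos hx]
      rw [← hl, mul_comm]
    · simp only [if_neg hx, Finset.sum_const_zero, mul_zero]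
  | add F G hF hG =>
    obtain ⟨h, hh⟩ := hF
    obtain ⟨h', hh'⟩ := hG
    refine ⟨h + h', ?_⟩
    simp only [MvPolynomial.eval₂_add, mul_add, Finset.sum_add_distrib]
    rw [hh, hh', map_add, map_add]
    ring

/-- The functional `f ↦ Φ (g f)` on the apolar algebra. -/
noncomputable def fnl (T : (∀ i, J i) → k) (g : MvPolynomial (Σ i, J i) k) :
    Module.Dual k (apolar T) :=
  { toFun := QuotientAddGroup.lift (annIdeal (dualGen T)).toAddSubgroup
      ((dualGen T).toAddMonoidHom.comp (AddMonoidHom.mulLeft g)) (fun f hf => hf g)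
    map_add' := fun x y => map_add _ x y
    map_smul' := by
      intro a x
      obtain ⟨f, rfl⟩ := Ideal.Quotient.mk_surjective x
      change dualGen T (g * (a • f)) = a • dualGen T (g * f)
      rw [mul_smul_comm, map_smul] }

lemma fnl_mk (T : (∀ i, J i) → k) (g f : MvPolynomial (Σ i, J i) k) :
    fnl T g (Ideal.Quotient.mk (annIdeal (dualGen T)) f) = dualGen T (g * f) := rfl

lemma fnl_sep (T : (∀ i, J i) → k) (a : apolar T) (h : ∀ g, fnl T g a = 0) : a = 0 := by
  obtain ⟨f, rfl⟩ := Ideal.Quotient.mk_surjective a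
  exact Ideal.Quotient.eq_zero_iff_mem.mpr fun g => h g

/-- **Upper bound.** -/
theorem wit_apolar {T : (∀ i, J i) → k} {r : ℕ} (h : RankLE T r) :
    ∃ r' ≤ r * 2 ^ m, Wit k (apolar T) r' := by
  classical
  obtain ⟨l, hl⟩ := h
  let ι := Set.range (pts l)
  refine ⟨Fintype.card ι, ?_, ?_⟩
  · refine (Fintype.card_range_le (pts l)).trans ?_
    simp
  · refine wit_of_points (Ideal.Quotient.mkₐ k (annIdeal (dualGen T)))
      (Ideal.Quotient.mkₐ_surjective k _) (fun y : ι => (y : (Σ i, J i) → k⟦X⟧))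
      Subtype.val_injective (Set.range (fnl T)) (fun a ha => fnl_sep T a fun g => ha _ ⟨g, rfl⟩) ?_
    rintro _ ⟨g, rfl⟩
    refine ⟨m, fun y => ∑ q : Fin r × Finset (Fin m),
      if pts l q = (y : (Σ i, J i) → k⟦X⟧) then (-1) ^ (Finset.univ \ q.2).card *
        MvPolynomial.eval₂ C (pts l q) g else 0, fun f => ?_⟩
    obtain ⟨h, hh⟩ := key hl (g * f)
    refine ⟨h, ?_⟩
    change _ = X ^ m * (C (dualGen T (g * f)) + X * h)
    rw [← hh]
    simp only [Finset.sum_mul]
    rw [Finset.sum_comm]
    refine Finset.sum_congr rfl fun q _ => ?_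
    rw [Finset.sum_eq_single (⟨pts l q, q, rfl⟩ : ι)]
    · rw [if_pos rfl, MvPolynomial.eval₂_mul, mul_assoc]
    · intro y _ hy
      rw [if_neg, zero_mul]
      intro h
      exact hy (Subtype.ext h.symm)
    · intro h; exact absurd (Finset.mem_univ _) h

end

end Pool.Agent.H869R3.Multi
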