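import Pool.Agent.H869R3.Defs

set_option autoImplicit false

namespace Pool.Agent.H869R3

/-- The algebra `k ⊕ V ⊕ U` of a symmetric bilinear map `β : V × V → U`: the product of `v, v' ∈ V` is
`β v v' ∈ U`, and `V U = U U = 0`. -/
@[nolint unusedArguments]
def QAlg {k V U : Type} [Field k] [AddCommGroup V] [Module k V] [AddCommGroup U] [Module k U]
    (β : V →ₗ[k] V →ₗ[k] U) (_hβ : ∀ x y, β x y = β y x) : Type := k × V × U

namespace QAlg

variable {k V U : Type} [Field k] [AddCommGroup V] [Module k V] [AddCommGroup U] [Module k U]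
  (β : V →ₗ[k] V →ₗ[k] U) (hβ : ∀ x y, β x y = β y x)

instance : AddCommGroup (QAlg β hβ) := inferInstanceAs (AddCommGroup (k × V × U))
instance : Module k (QAlg β hβ) := inferInstanceAs (Module k (k × V × U))

instance : Mul (QAlg β hβ) :=
  ⟨fun a b => (a.1 * b.1, a.1 • b.2.1 + b.1 • a.2.1,
    a.1 • b.2.2 + b.1 • a.2.2 + β a.2.1 b.2.1)⟩

instance : One (QAlg β hβ) := ⟨((1 : k), (0 : V), (0 : U))⟩

lemma mul_def (a b : QAlg β hβ) : a * b = (a.1 * b.1, a.1 • b.2.1 + b.1 • a.2.1,
    a.1 • b.2.2 + b.1 • a.2.2 + β a.2.1 b.2.1) := rfl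

lemma one_def : (1 : QAlg β hβ) = ((1 : k), (0 : V), (0 : U)) := rfl

lemma add_def (a b : QAlg β hβ) : a + b = (a.1 + b.1, a.2.1 + b.2.1, a.2.2 + b.2.2) := rfl

lemma smul_def (c : k) (b : QAlg β hβ) : c • b = (c * b.1, c • b.2.1, c • b.2.2) := rfl

lemma zero_def : (0 : QAlg β hβ) = ((0 : k), (0 : V), (0 : U)) := rfl

instance : CommRing (QAlg β hβ) :=
  { (inferInstance : AddCommGroup (QAlg β hβ)) with
    mul := (· * ·)
    one := 1
    mul_assoc := by
      intro a b c
      refine Prod.ext (mul_assoc a.1 b.1 c.1) (Prod.ext ?_ ?_)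
      · change (a.1 * b.1) • c.2.1 + c.1 • (a.1 • b.2.1 + b.1 • a.2.1) =
          a.1 • (b.1 • c.2.1 + c.1 • b.2.1) + (b.1 * c.1) • a.2.1
        simp only [smul_add, smul_smul]
        rw [mul_comm c.1 a.1, mul_comm c.1 b.1]
        abel
      · change (a.1 * b.1) • c.2.2 + c.1 • (a.1 • b.2.2 + b.1 • a.2.2 + β a.2.1 b.2.1) +
            β (a.1 • b.2.1 + b.1 • a.2.1) c.2.1 =
          a.1 • (b.1 • c.2.2 + c.1 • b.2.2 + β b.2.1 c.2.1) + (b.1 * c.1) • a.2.2 +
            β a.2.1 (b.1 • c.2.1 + c.1 • b.2.1)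
        simp only [smul_add, map_add, LinearMap.add_apply, map_smul, LinearMap.smul_apply,
          smul_smul]
        rw [mul_comm c.1 a.1, mul_comm c.1 b.1]
        abel
    one_mul := by
      intro a
      refine Prod.ext (one_mul a.1) (Prod.ext ?_ ?_)
      · change (1 : k) • a.2.1 + a.1 • (0 : V) = a.2.1
        simp
      · change (1 : k) • a.2.2 + a.1 • (0 : U) + β 0 a.2.1 = a.2.2
        simp
    mul_one := by
      intro a
      refine Prod.ext (mul_one a.1) (Prod.ext ?_ ?_)
      · change a.1 • (0 : V) + (1 : k) • a.2.1 = a.2.1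
        simp
      · change a.1 • (0 : U) + (1 : k) • a.2.2 + β a.2.1 0 = a.2.2
        simp
    left_distrib := by
      intro a b c
      refine Prod.ext (mul_add a.1 b.1 c.1) (Prod.ext ?_ ?_)
      · change a.1 • (b.2.1 + c.2.1) + (b.1 + c.1) • a.2.1 =
          (a.1 • b.2.1 + b.1 • a.2.1) + (a.1 • c.2.1 + c.1 • a.2.1)
        simp only [smul_add, add_smul]
        abel
      · change a.1 • (b.2.2 + c.2.2) + (b.1 + c.1) • a.2.2 + β a.2.1 (b.2.1 + c.2.1) =
          (a.1 • b.2.2 + b.1 • a.2.2 + β a.2.1 b.2.1) +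
            (a.1 • c.2.2 + c.1 • a.2.2 + β a.2.1 c.2.1)
        simp only [smul_add, add_smul, map_add]
        abel
    right_distrib := by
      intro a b c
      refine Prod.ext (add_mul a.1 b.1 c.1) (Prod.ext ?_ ?_)
      · change (a.1 + b.1) • c.2.1 + c.1 • (a.2.1 + b.2.1) =
          (a.1 • c.2.1 + c.1 • a.2.1) + (b.1 • c.2.1 + c.1 • b.2.1)
        simp only [smul_add, add_smul]
        abel
      · change (a.1 + b.1) • c.2.2 + c.1 • (a.2.2 + b.2.2) + β (a.2.1 + b.2.1) c.2.1 =
          (a.1 • c.2.2 + c.1 • a.2.2 + β a.2.1 c.2.1) +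
            (b.1 • c.2.2 + c.1 • b.2.2 + β b.2.1 c.2.1)
        simp only [smul_add, add_smul, map_add, LinearMap.add_apply]
        abel
    zero_mul := by
      intro a
      refine Prod.ext (zero_mul a.1) (Prod.ext ?_ ?_)
      · change (0 : k) • a.2.1 + a.1 • (0 : V) = 0
        simp
      · change (0 : k) • a.2.2 + a.1 • (0 : U) + β 0 a.2.1 = 0
        simp
    mul_zero := by
      intro a
      refine Prod.ext (mul_zero a.1) (Prod.ext ?_ ?_)
      · change a.1 • (0 : V) + (0 : k) • a.2.1 = 0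
        simp
      · change a.1 • (0 : U) + (0 : k) • a.2.2 + β a.2.1 0 = 0
        simp
    mul_comm := by
      intro a b
      refine Prod.ext (mul_comm a.1 b.1) (Prod.ext ?_ ?_)
      · change a.1 • b.2.1 + b.1 • a.2.1 = b.1 • a.2.1 + a.1 • b.2.1
        abel
      · change a.1 • b.2.2 + b.1 • a.2.2 + β a.2.1 b.2.1 =
          b.1 • a.2.2 + a.1 • b.2.2 + β b.2.1 a.2.1
        rw [hβ a.2.1 b.2.1, add_comm (a.1 • b.2.2)] }

instance : Algebra k (QAlg β hβ) :=
  Algebra.ofModule
    (by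
      intro c a b
      refine Prod.ext (mul_assoc c a.1 b.1) (Prod.ext ?_ ?_)
      · change (c * a.1) • b.2.1 + b.1 • c • a.2.1 = c • (a.1 • b.2.1 + b.1 • a.2.1)
        simp only [smul_add, smul_smul]
        rw [mul_comm b.1 c]
      · change (c * a.1) • b.2.2 + b.1 • c • a.2.2 + β (c • a.2.1) b.2.1 =
          c • (a.1 • b.2.2 + b.1 • a.2.2 + β a.2.1 b.2.1)
        simp only [smul_add, smul_smul, map_smul, LinearMap.smul_apply]
        rw [mul_comm b.1 c])
    (by
      intro c a b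
      refine Prod.ext (mul_left_comm a.1 c b.1) (Prod.ext ?_ ?_)
      · change a.1 • c • b.2.1 + (c * b.1) • a.2.1 = c • (a.1 • b.2.1 + b.1 • a.2.1)
        simp only [smul_add, smul_smul]
        rw [mul_comm a.1 c]
      · change a.1 • c • b.2.2 + (c * b.1) • a.2.2 + β a.2.1 (c • b.2.1) =
          c • (a.1 • b.2.2 + b.1 • a.2.2 + β a.2.1 b.2.1)
        simp only [smul_add, smul_smul, map_smul]
        rw [mul_comm a.1 c])

lemma algebraMap_eq (c : k) : algebraMap k (QAlg β hβ) c = ((c : k), (0 : V), (0 : U)) := by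
  rw [Algebra.algebraMap_eq_smul_one]
  refine Prod.ext ?_ (Prod.ext ?_ ?_)
  · exact mul_one c
  · exact smul_zero c
  · exact smul_zero c

instance [Module.Finite k V] [Module.Finite k U] : Module.Finite k (QAlg β hβ) :=
  inferInstanceAs (Module.Finite k (k × V × U))

lemma finrank_eq [Module.Finite k V] [Module.Finite k U] :
    Module.finrank k (QAlg β hβ) = 1 + Module.finrank k V + Module.finrank k U := by
  have : Module.finrank k (QAlg β hβ) = Module.finrank k (k × V × U) := rfl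
  rw [this, Module.finrank_prod, Module.finrank_prod, Module.finrank_self]
  ring

end QAlg

end Pool.Agent.H869R3
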