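import Pool.Agent.H869R3.Core
import Pool.Agent.H869R3.QAlg

set_option autoImplicit false

namespace Pool.Agent.H869R3

open QAlg

/-- An equivalence between `ι` and a family together with the complement of its range. -/
noncomputable def splitEquiv {κ ι : Type} (a : κ → ι) (ha : Function.Injective a) :
    κ ⊕ {i : ι // i ∉ Set.range a} ≃ ι := by
  classical
  exact (Equiv.sumCongr (Equiv.ofInjective a ha) (Equiv.refl _)).trans
    (Equiv.Set.sumCompl (Set.range a))

lemma splitEquiv_inl {κ ι : Type} (a : κ → ι) (ha : Function.Injective a) (j : κ) :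
    splitEquiv a ha (Sum.inl j) = a j := rfl

lemma splitEquiv_inr {κ ι : Type} (a : κ → ι) (ha : Function.Injective a)
    (j : {i : ι // i ∉ Set.range a}) : splitEquiv a ha (Sum.inr j) = j := rfl

/-- If `β x y = ∑ i, l i x * l i y • u i` over a finite index set `ι`, the `l i` have no common zero
except `0` and the `u i` span `U`, then the algebra of `β` is a quotient of a smoothable algebra of
dimension `1 + dim V + |ι|`. -/
theorem wit_quad' {k V U : Type} [Field k] [AddCommGroup V] [Module k V] [AddCommGroup U] [Module k U]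
    [Module.Finite k V] [Module.Finite k U]
    (hμ : ∃ μ : k, μ ≠ 0 ∧ μ ≠ 1)
    (β : V →ₗ[k] V →ₗ[k] U) (hβ : ∀ x y, β x y = β y x)
    {ι : Type} [Fintype ι] (l : ι → Module.Dual k V) (u : ι → U)
    (hdec : ∀ x y, β x y = ∑ i, (l i x * l i y) • u i)
    (hl : ∀ x, (∀ i, l i x = 0) → x = 0) (hu : Submodule.span k (Set.range u) = ⊤) :
    Wit k (QAlg β hβ) (1 + Module.finrank k V + Fintype.card ι) := by
  classical
  obtain ⟨μ, h0, h1⟩ := hμ
  obtain ⟨κ, a, ha, hsp, hli⟩ := exists_linearIndependent' k l
  haveI : Fintype κ := Fintype.ofInjective a ha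
  let I : Type := {i : ι // i ∉ Set.range a}
  -- coordinates of `V`
  let Λ : V →ₗ[k] (κ → k) := LinearMap.pi fun j => l (a j)
  have hkill : ∀ v, (∀ j, l (a j) v = 0) → ∀ i, l i v = 0 := by
    intro v hv i
    have hi : l i ∈ Submodule.span k (Set.range (l ∘ a)) := by
      rw [hsp]; exact Submodule.subset_span ⟨i, rfl⟩
    refine Submodule.span_induction (p := fun φ _ => φ v = 0) ?_ ?_ ?_ ?_ hi
    · rintro _ ⟨j, rfl⟩; exact hv j
    · simp
    · intro x y _ _ hx hy; simp [hx, hy]
    · intro c x _ hx; simp [hx]
  have hΛinj : Function.Injective Λ := by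
    rw [← LinearMap.ker_eq_bot, LinearMap.ker_eq_bot']
    intro v hv
    exact hl v fun i => hkill v (fun j => congrFun hv j) i
  have hcard : Module.finrank k V = Fintype.card κ := by
    apply le_antisymm
    · have := LinearMap.finrank_le_finrank_of_injective hΛinj
      simpa using this
    · have h2 := hli.fintype_card_le_finrank
      rwa [Subspace.dual_finrank_eq] at h2
  let Λe : V ≃ₗ[k] (κ → k) :=
    LinearMap.linearEquivOfInjective Λ hΛinj (by rw [hcard]; simp)
  have hΛe : ∀ v j, Λe v j = l (a j) v := fun v j => rfl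
  have hla : ∀ x j, l (a j) (Λe.symm x) = x j := by
    intro x j
    rw [← hΛe, LinearEquiv.apply_symm_apply]
  -- the remaining forms in terms of the coordinates
  have hM : ∀ i : I, ∃ c : κ → k, ∑ j, c j • l (a j) = l i := by
    intro i
    have hi : l i ∈ Submodule.span k (Set.range (l ∘ a)) := by
      rw [hsp]; exact Submodule.subset_span ⟨i, rfl⟩
    exact (Submodule.mem_span_range_iff_exists_fun k).mp hi
  choose M hM using hM
  have hlI : ∀ x (i : I), l i (Λe.symm x) = ∑ j, M i j * x j := by
    intro x i
    rw [← hM i]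
    simp [hla]
  have hsum : ∀ F : ι → U, ∑ i, F i = ∑ j, F (a j) + ∑ i : I, F i := by
    intro F
    rw [← (splitEquiv a ha).sum_comp F, Fintype.sum_sum_type]
    rfl
  -- the three maps
  let L : (κ → k) →ₗ[k] QAlg β hβ :=
    { toFun := fun x => ((0 : k), Λe.symm x, (0 : U))
      map_add' := by
        intro x y
        refine Prod.ext ?_ (Prod.ext ?_ ?_)
        · exact (add_zero (0 : k)).symm
        · exact map_add Λe.symm x y
        · exact (add_zero (0 : U)).symm
      map_smul' := by
        intro c x
        refine Prod.ext ?_ (Prod.ext ?_ ?_)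
        · exact (mul_zero c).symm
        · exact map_smul Λe.symm c x
        · exact (smul_zero c).symm }
  let toU : U →ₗ[k] QAlg β hβ :=
    { toFun := fun x => ((0 : k), (0 : V), x)
      map_add' := by
        intro x y
        refine Prod.ext ?_ (Prod.ext ?_ ?_)
        · exact (add_zero (0 : k)).symm
        · exact (add_zero (0 : V)).symm
        · rfl
      map_smul' := by
        intro c x
        refine Prod.ext ?_ (Prod.ext ?_ ?_)
        · exact (mul_zero c).symm
        · exact (smul_zero c).symm
        · rfl }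
  let W0 : (κ → k) →ₗ[k] U := Fintype.linearCombination k (fun j => u (a j))
  let U0 : (I → k) →ₗ[k] U := Fintype.linearCombination k (fun i : I => u i)
  have hLprod : ∀ x x', L x * L x' = toU (β (Λe.symm x) (Λe.symm x')) := by
    intro x x'
    refine Prod.ext ?_ (Prod.ext ?_ ?_)
    · exact mul_zero (0 : k)
    · change (0 : k) • Λe.symm x' + (0 : k) • Λe.symm x = 0
      simp
    · change (0 : k) • (0 : U) + (0 : k) • (0 : U) + β (Λe.symm x) (Λe.symm x') = _
      simp only [smul_zero, zero_add]
      rfl
  have hLU : ∀ x z, L x * toU z = 0 := by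
    intro x z
    refine Prod.ext ?_ (Prod.ext ?_ ?_)
    · exact mul_zero (0 : k)
    · change (0 : k) • (0 : V) + (0 : k) • Λe.symm x = 0
      simp
    · change (0 : k) • z + (0 : k) • (0 : U) + β (Λe.symm x) 0 = 0
      simp
  have hUU : ∀ z z', toU z * toU z' = 0 := by
    intro z z'
    refine Prod.ext ?_ (Prod.ext ?_ ?_)
    · exact mul_zero (0 : k)
    · change (0 : k) • (0 : V) + (0 : k) • (0 : V) = 0
      simp
    · change (0 : k) • z' + (0 : k) • z + β (0 : V) 0 = 0
      simp
  have hcount : 1 + Module.finrank k V + Fintype.card ι =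
      1 + 2 * Fintype.card κ + Fintype.card I := by
    rw [hcard, ← Fintype.card_congr (splitEquiv a ha), Fintype.card_sum]
    ring
  rw [hcount]
  refine wit_core M h0 h1 L (toU.comp W0) (toU.comp U0) ?_ ?_ ?_ ?_ ?_ ?_ ?_
  · intro x x'
    rw [hLprod, LinearMap.comp_apply, LinearMap.comp_apply, ← map_add]
    congr 1
    rw [hdec, hsum]
    congr 1
    · simp only [W0, Fintype.linearCombination_apply]
      exact Finset.sum_congr rfl fun j _ => by rw [hla, hla]
    · simp only [U0, Fintype.linearCombination_apply]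
      exact Finset.sum_congr rfl fun i _ => by rw [hlI, hlI]
  · intro x z; exact hLU _ _
  · intro x z; exact hLU _ _
  · intro x z; exact hUU _ _
  · intro x z; exact hUU _ _
  · intro x z; exact hUU _ _
  · intro b
    have hb : b.2.2 ∈ Submodule.span k (Set.range u) := by rw [hu]; trivial
    obtain ⟨c, hc⟩ := (Submodule.mem_span_range_iff_exists_fun k).mp hb
    refine ⟨b.1, Λe b.2.1, fun j => c (a j), fun i => c i, ?_⟩
    have h3 : W0 (fun j => c (a j)) + U0 (fun i => c i) = b.2.2 := by
      rw [← hc, hsum]
      simp only [W0, U0, Fintype.linearCombination_apply]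
    rw [algebraMap_eq]
    refine Prod.ext ?_ (Prod.ext ?_ ?_)
    · change b.1 = b.1 + 0 + 0 + 0
      ring
    · change b.2.1 = 0 + Λe.symm (Λe b.2.1) + 0 + 0
      simp
    · change b.2.2 = 0 + 0 + W0 (fun j => c (a j)) + U0 (fun i => c i)
      rw [← h3]
      abel

/-- **Quadratic algebras.** If `β x y = ∑ i, l i x * l i y • u i` over a finite index set `ι`, `β` is
nondegenerate and its values span `U`, then the algebra of `β` is a quotient of a smoothable algebra
of dimension `1 + dim V + |ι|`. -/
theorem wit_quad {k V U : Type} [Field k] [AddCommGroup V] [Module k V] [AddCommGroup U] [Module k U]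
    [Module.Finite k V] [Module.Finite k U]
    (hμ : ∃ μ : k, μ ≠ 0 ∧ μ ≠ 1)
    (β : V →ₗ[k] V →ₗ[k] U) (hβ : ∀ x y, β x y = β y x)
    {ι : Type} [Fintype ι] (l : ι → Module.Dual k V) (u : ι → U)
    (hdec : ∀ x y, β x y = ∑ i, (l i x * l i y) • u i)
    (hnd : ∀ x, (∀ y, β x y = 0) → x = 0)
    (hspan : Submodule.span k (Set.range fun p : V × V => β p.1 p.2) = ⊤) :
    Wit k (QAlg β hβ) (1 + Module.finrank k V + Fintype.card ι) := by
  refine wit_quad' hμ β hβ l u hdec ?_ ?_
  · intro v hv
    apply hnd
    intro y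
    rw [hdec]
    refine Finset.sum_eq_zero fun i _ => ?_
    rw [hv i]
    simp
  · rw [eq_top_iff, ← hspan, Submodule.span_le]
    rintro _ ⟨p, rfl⟩
    change β p.1 p.2 ∈ Submodule.span k (Set.range u)
    rw [hdec]
    exact Submodule.sum_mem _ fun i _ => Submodule.smul_mem _ _ (Submodule.subset_span ⟨i, rfl⟩)

end Pool.Agent.H869R3
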