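import Mathlib

set_option autoImplicit false

namespace Pool.Agent.H869R3

/-- The tensor `T` (given by its coordinates) has rank at most `r`. -/
def TRankLE {k I J L : Type} [Field k] (T : I → J → L → k) (r : ℕ) : Prop :=
  ∃ (a : Fin r → I → k) (b : Fin r → J → k) (c : Fin r → L → k),
    ∀ i j l, T i j l = ∑ p, a p i * b p j * c p l

section

variable {k I J L : Type} [Field k]

lemma trank_of_fintype {T : I → J → L → k} {ι : Type} [Fintype ι]
    (a : ι → I → k) (b : ι → J → k) (c : ι → L → k)
    (h : ∀ i j l, T i j l = ∑ p, a p i * b p j * c p l) : TRankLE T (Fintype.card ι) := by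
  let e := Fintype.equivFin ι
  refine ⟨fun p => a (e.symm p), fun p => b (e.symm p), fun p => c (e.symm p), ?_⟩
  intro i j l
  rw [h, ← e.symm.sum_comp]

lemma TRankLE.mono {T : I → J → L → k} {r s : ℕ} (h : TRankLE T r) (hrs : r ≤ s) :
    TRankLE T s := by
  obtain ⟨a, b, c, h⟩ := h
  obtain ⟨t, rfl⟩ := Nat.exists_eq_add_of_le hrs
  have := trank_of_fintype (T := T) (ι := Fin r ⊕ Fin t) (Sum.elim a 0) (Sum.elim b 0)
    (Sum.elim c 0) (by
      intro i j l
      rw [Fintype.sum_sum_type, h]
      simp)
  simpa using this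

/-- A linear combination of `m` tensors of rank at most `r` has rank at most `m r`. -/
lemma trank_sum {ι : Type} [Fintype ι] (S : ι → I → J → L → k) {r : ℕ} (hS : ∀ s, TRankLE (S s) r)
    (w : ι → k) {T : I → J → L → k} (hT : ∀ i j l, T i j l = ∑ s, w s * S s i j l) :
    TRankLE T (Fintype.card ι * r) := by
  choose a b c h using hS
  have := trank_of_fintype (T := T) (ι := ι × Fin r) (fun p i => w p.1 * a p.1 p.2 i)
    (fun p => b p.1 p.2) (fun p => c p.1 p.2) (by
      intro i j l
      rw [hT, Fintype.sum_prod_type]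
      refine Finset.sum_congr rfl fun s _ => ?_
      rw [h, Finset.mul_sum]
      exact Finset.sum_congr rfl fun p _ => by ring)
  simpa using this

/-- Kronecker powers of a tensor of rank at most `r` have rank at most `r ^ N`. -/
lemma trank_pow {S : I → J → L → k} {r : ℕ} (hS : TRankLE S r) (N : ℕ) :
    TRankLE (fun (i : Fin N → I) (j : Fin N → J) (l : Fin N → L) => ∏ ν, S (i ν) (j ν) (l ν))
      (r ^ N) := by
  obtain ⟨a, b, c, h⟩ := hS
  have := trank_of_fintype
    (T := fun (i : Fin N → I) (j : Fin N → J) (l : Fin N → L) => ∏ ν, S (i ν) (j ν) (l ν))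
    (ι := Fin N → Fin r) (fun P i => ∏ ν, a (P ν) (i ν)) (fun P j => ∏ ν, b (P ν) (j ν))
    (fun P l => ∏ ν, c (P ν) (l ν)) (by
      intro i j l
      simp only [h]
      rw [Finset.prod_univ_sum, Fintype.piFinset_univ]
      refine Finset.sum_congr rfl fun P _ => ?_
      rw [Finset.prod_mul_distrib, Finset.prod_mul_distrib])
  simpa using this

variable [Fintype I] [Fintype J] [Fintype L]

/-- Every polynomial that vanishes on the tensors of rank at most `D` vanishes on `T` (`T` has border
rank at most `D`). -/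
def BorderLE (T : I → J → L → k) (D : ℕ) : Prop :=
  ∀ φ : MvPolynomial (I × J × L) k,
    (∀ S : I → J → L → k, TRankLE S D → MvPolynomial.eval (fun x => S x.1 x.2.1 x.2.2) φ = 0) →
    MvPolynomial.eval (fun x => T x.1 x.2.1 x.2.2) φ = 0

/-- The rank of the Kronecker powers of a tensor of border rank at most `D`. -/
theorem kronecker_rank {T : I → J → L → k} {D : ℕ} (hT : BorderLE T D) (N : ℕ) :
    TRankLE (fun (i : Fin N → I) (j : Fin N → J) (l : Fin N → L) => ∏ ν, T (i ν) (j ν) (l ν))
      ((N + 1) ^ Fintype.card (I × J × L) * D ^ N) := by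
  classical
  let ι := I × J × L
  let pw : (ι → k) → ((Fin N → ι) → k) := fun S x => ∏ ν, S (x ν)
  let toF : (I → J → L → k) → (ι → k) := fun S x => S x.1 x.2.1 x.2.2
  let SS : Set ((Fin N → ι) → k) := {h | ∃ S : I → J → L → k, TRankLE S D ∧ h = pw (toF S)}
  -- `pw T` is in the span
  have hmem : pw (toF T) ∈ Submodule.span k SS := by
    by_contra hnot
    obtain ⟨f, hf1, hf2⟩ := Submodule.exists_dual_map_eq_bot_of_notMem hnot inferInstance
    let φ : MvPolynomial ι k := ∑ x : Fin N → ι, MvPolynomial.C (f (Pi.single x 1)) *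
      ∏ ν, MvPolynomial.X (x ν)
    have hφ : ∀ S : ι → k, MvPolynomial.eval S φ = f (pw S) := by
      intro S
      have h1 : pw S = ∑ x : Fin N → ι, (pw S x) • (Pi.single x (1 : k) : (Fin N → ι) → k) := by
        ext y
        simp only [Finset.sum_apply, Pi.smul_apply, Pi.single_apply, smul_eq_mul, mul_ite, mul_one,
          mul_zero]
        rw [Finset.sum_ite_eq]
        simp
      rw [h1, map_sum]
      simp only [φ, map_sum, map_mul, MvPolynomial.eval_C, map_prod, MvPolynomial.eval_X, map_smul,
        smul_eq_mul]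
      exact Finset.sum_congr rfl fun x _ => mul_comm _ _
    have h2 := hT φ (fun S hS => by
      change MvPolynomial.eval (toF S) φ = 0
      rw [hφ]
      have h3 : f (pw (toF S)) ∈ Submodule.map f (Submodule.span k SS) :=
        Submodule.mem_map_of_mem (Submodule.subset_span ⟨S, hS, rfl⟩)
      rw [hf2] at h3
      exact (Submodule.mem_bot k).mp h3)
    apply hf1
    rw [← hφ]
    exact h2
  -- the dimension of the span
  let cnt : (Fin N → ι) → (ι → Fin (N + 1)) := fun x i =>
    ⟨(Finset.univ.filter fun ν => x ν = i).card, by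
      have := Finset.card_le_univ (Finset.univ.filter fun ν => x ν = i)
      simp only [Fintype.card_fin] at this
      omega⟩
  let Φ : ((ι → Fin (N + 1)) → k) →ₗ[k] ((Fin N → ι) → k) := LinearMap.funLeft k k cnt
  have hpw : ∀ S : ι → k, pw S = Φ (fun c => ∏ i, S i ^ (c i : ℕ)) := by
    intro S
    ext x
    change ∏ ν, S (x ν) = ∏ i, S i ^ ((Finset.univ.filter fun ν => x ν = i).card)
    rw [← Finset.prod_fiberwise Finset.univ x (fun ν => S (x ν))]
    refine Finset.prod_congr rfl fun i _ => ?_
    rw [Finset.prod_congr rfl (g := fun _ => S i) (by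
      intro ν hν
      rw [(Finset.mem_filter.mp hν).2])]
    rw [Finset.prod_const]
  have hle : Submodule.span k SS ≤ LinearMap.range Φ := by
    rw [Submodule.span_le]
    rintro _ ⟨S, _, rfl⟩
    exact ⟨_, (hpw _).symm⟩
  have hdim : Module.finrank k (Submodule.span k SS) ≤ (N + 1) ^ Fintype.card ι := by
    refine (Submodule.finrank_mono hle).trans ?_
    refine (LinearMap.finrank_range_le Φ).trans ?_
    simp
  -- a basis among the powers
  obtain ⟨b, hb, hbs, hbl⟩ := exists_linearIndependent k SS
  have hbfin : b.Finite := hbl.setFinite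
  haveI : Fintype b := hbfin.fintype
  have hcard : Fintype.card b ≤ (N + 1) ^ Fintype.card ι := by
    have h1 := finrank_span_eq_card hbl
    rw [Subtype.range_coe, hbs] at h1
    rw [← h1]
    exact hdim
  rw [← hbs] at hmem
  have hmem2 : pw (toF T) ∈ Submodule.span k (Set.range (Subtype.val : b → _)) := by
    rwa [Subtype.range_coe]
  obtain ⟨w, hw⟩ := (Submodule.mem_span_range_iff_exists_fun k).mp hmem2
  choose S hS hS2 using fun s : b => hb s.2
  have hfinal := trank_sum
    (T := fun (i : Fin N → I) (j : Fin N → J) (l : Fin N → L) => ∏ ν, T (i ν) (j ν) (l ν))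
    (fun (s : b) (i : Fin N → I) (j : Fin N → J) (l : Fin N → L) => ∏ ν, S s (i ν) (j ν) (l ν))
    (fun s => trank_pow (hS s) N) w (by
      intro i j l
      have h1 := congrFun hw (fun ν => (i ν, j ν, l ν))
      rw [Finset.sum_apply] at h1
      change _ = ∏ ν, T (i ν) (j ν) (l ν) at h1
      rw [← h1]
      refine Finset.sum_congr rfl fun s _ => ?_
      rw [Pi.smul_apply, hS2 s]
      rfl)
  exact hfinal.mono (Nat.mul_le_mul_right _ hcard)

end

end Pool.Agent.H869R3
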