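import Pool.Agent.H869R3.Lower2

set_option autoImplicit false

namespace Pool.Agent.H869R3

open Filter Topology

lemma omega_le {k : Type} [Field k] {Q D e : ℕ} (hQ : 2 ≤ Q) (hD : 1 ≤ D)
    (h : ∀ N : ℕ, mmRank k (Q ^ N) ≤ (N + 1) ^ e * D ^ N) : (Q : ℝ) ^ omega k ≤ D := by
  by_contra hlt
  push Not at hlt
  have hQ0 : (0 : ℝ) < Q := by exact_mod_cast (by omega : 0 < Q)
  have hQ1 : (1 : ℝ) < Q := by exact_mod_cast (by omega : 1 < Q)
  have hD0 : (0 : ℝ) < D := by exact_mod_cast hD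
  have hD1 : (1 : ℝ) ≤ D := by exact_mod_cast hD
  set s := Real.logb Q D with hs
  have hDs : (Q : ℝ) ^ s = D := Real.rpow_logb hQ0 hQ1.ne' hD0
  have hs0 : 0 ≤ s := Real.logb_nonneg hQ1 hD1
  have hsω : s < omega k := by
    rw [← hDs] at hlt
    exact (Real.rpow_lt_rpow_left_iff hQ1).mp hlt
  set τ := (s + omega k) / 2 with hτ
  have hsτ : s < τ := by rw [hτ]; linarith
  have hτω : τ < omega k := by rw [hτ]; linarith
  have hτ0 : 0 ≤ τ := by linarith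
  have hQτ : 0 < (Q : ℝ) ^ τ := Real.rpow_pos_of_pos hQ0 _
  set ρ : ℝ := D / (Q : ℝ) ^ τ with hρ
  have hρ0 : 0 < ρ := by positivity
  have hρ1 : ρ < 1 := by
    rw [hρ, div_lt_one hQτ, ← hDs]
    exact (Real.rpow_lt_rpow_left_iff hQ1).mpr hsτ
  -- the sequence `(N + 1) ^ e * ρ ^ N` is bounded
  have hlim := tendsto_pow_const_mul_const_pow_of_lt_one e hρ0.le hρ1
  obtain ⟨C0, hC0⟩ := hlim.bddAbove_range
  have hC1 : ∀ N : ℕ, ((N : ℝ) + 1) ^ e * ρ ^ N ≤ C0 / ρ := by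
    intro N
    have h1 : ((N + 1 : ℕ) : ℝ) ^ e * ρ ^ (N + 1) ≤ C0 := hC0 ⟨N + 1, rfl⟩
    rw [le_div_iff₀ hρ0]
    calc ((N : ℝ) + 1) ^ e * ρ ^ N * ρ = ((N + 1 : ℕ) : ℝ) ^ e * ρ ^ (N + 1) := by
          push_cast; ring
      _ ≤ C0 := h1
  have hC0pos : 0 ≤ C0 / ρ := le_trans (by positivity) (hC1 0)
  have hmem : τ ∈ {τ : ℝ | ∃ C : ℝ, ∀ m : ℕ, 1 ≤ m → (mmRank k m : ℝ) ≤ C * (m : ℝ) ^ τ} := by
    refine ⟨C0 / ρ * (Q : ℝ) ^ τ, fun m hm => ?_⟩
    set N := Nat.clog Q m with hN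
    have h1 : m ≤ Q ^ N := Nat.le_pow_clog (by omega) m
    have h2 : Q ^ N ≤ Q * m := by
      rcases Nat.lt_or_ge 1 m with h3 | h3
      · have h4 := Nat.pow_pred_clog_lt_self (show 1 < Q by omega) h3
        have h5 : N ≠ 0 := by
          intro h6
          rw [h6] at h1
          simp at h1
          omega
        obtain ⟨N', hN'⟩ := Nat.exists_eq_succ_of_ne_zero h5
        rw [← hN, hN', Nat.pred_succ] at h4
        rw [hN', Nat.succ_eq_add_one, pow_succ, mul_comm]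
        exact Nat.mul_le_mul_left _ h4.le
      · have h4 : m = 1 := by omega
        rw [hN, h4, Nat.clog_one_right]
        simp
        omega
    have h3 : (mmRank k m : ℝ) ≤ ((N : ℝ) + 1) ^ e * (D : ℝ) ^ N := by
      have h4 := (mmRank_mono k h1).trans (h N)
      exact_mod_cast h4
    have h5 : ((N : ℝ) + 1) ^ e * (D : ℝ) ^ N =
        (((N : ℝ) + 1) ^ e * ρ ^ N) * ((Q : ℝ) ^ τ) ^ N := by
      rw [hρ, div_pow]
      field_simp
    have h6 : ((Q : ℝ) ^ τ) ^ N = (((Q ^ N : ℕ) : ℝ)) ^ τ := by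
      rw [← Real.rpow_natCast, ← Real.rpow_mul hQ0.le, mul_comm, Real.rpow_mul hQ0.le,
        Real.rpow_natCast]
      push_cast
      rfl
    have h7 : (((Q ^ N : ℕ) : ℝ)) ^ τ ≤ (((Q * m : ℕ) : ℝ)) ^ τ := by
      apply Real.rpow_le_rpow (Nat.cast_nonneg _) _ hτ0
      exact_mod_cast h2
    have h8 : (((Q * m : ℕ) : ℝ)) ^ τ = (Q : ℝ) ^ τ * (m : ℝ) ^ τ := by
      push_cast
      exact Real.mul_rpow hQ0.le (Nat.cast_nonneg _)
    calc (mmRank k m : ℝ) ≤ (((N : ℝ) + 1) ^ e * ρ ^ N) * ((Q : ℝ) ^ τ) ^ N := by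
          rw [← h5]; exact h3
      _ ≤ (C0 / ρ) * ((Q : ℝ) ^ τ) ^ N := by
          exact mul_le_mul_of_nonneg_right (hC1 N) (by positivity)
      _ ≤ (C0 / ρ) * ((Q : ℝ) ^ τ * (m : ℝ) ^ τ) := by
          rw [h6, ← h8]
          exact mul_le_mul_of_nonneg_left h7 hC0pos
      _ = C0 / ρ * (Q : ℝ) ^ τ * (m : ℝ) ^ τ := by ring
  have hbdd : BddBelow {τ : ℝ | ∃ C : ℝ, ∀ m : ℕ, 1 ≤ m → (mmRank k m : ℝ) ≤ C * (m : ℝ) ^ τ} :=
    ⟨2, fun _ ⟨_, hC⟩ => two_le_exp hC⟩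
  have := csInf_le hbdd hmem
  unfold omega at hτω
  linarith

/-- **Lower bound.** -/
theorem lower_Abar {k : Type} [Field k] [Infinite k] (h2 : (2 : k) ≠ 0) (m n : ℕ) :
    ((m / 3 : ℕ) : ℝ) ^ (omega k * n) ≤
      (Module.finrank k (Abar k m) : ℝ) ^ n + defect k (pow k (Abar k m) n) := by
  have hd1 : (1 : ℝ) ≤ (Module.finrank k (Abar k m) : ℝ) := by
    rw [finrank_Abar]
    push_cast
    nlinarith [sq_nonneg (m : ℝ)]
  have hdn : (1 : ℝ) ≤ (Module.finrank k (Abar k m) : ℝ) ^ n := one_le_pow₀ hd1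
  have hdef : (0 : ℝ) ≤ (defect k (pow k (Abar k m) n) : ℝ) := Nat.cast_nonneg _
  rcases Nat.eq_zero_or_pos n with rfl | hn
  · simp only [Nat.cast_zero, mul_zero, Real.rpow_zero]
    linarith
  set q := m / 3 with hq
  have hω := two_le_omega k
  have hn' : (1 : ℝ) ≤ n := by exact_mod_cast hn
  rcases Nat.lt_or_ge q 2 with hq2 | hq2
  · have h1 : (q : ℝ) ≤ 1 := by exact_mod_cast (by omega : q ≤ 1)
    have h3 : (q : ℝ) ^ (omega k * n) ≤ 1 :=
      Real.rpow_le_one (Nat.cast_nonneg _) h1 (by positivity)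
    linarith
  · have hmem : DefectLE k (pow k (Abar k m) n) (defect k (pow k (Abar k m) n)) :=
      Nat.sInf_mem (s := {j | DefectLE k (pow k (Abar k m) n) j})
        ⟨_, pow_defectLE (Abar k m) (wit_Abar h2 (mmRank_spec k m)) n⟩
    have h3 := mmRank_le_of_defect (q := q) (m := m) (by omega) hmem
    have hfr : 1 ≤ Module.finrank k (pow k (Abar k m) n) := by
      rw [finrank_pow, finrank_Abar]
      exact Nat.one_le_pow _ _ (by omega)
    have hQ : 2 ≤ q ^ n := le_trans hq2 (Nat.le_self_pow (by omega) q)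
    have h4 := omega_le hQ (by omega) h3
    have h5 : ((q ^ n : ℕ) : ℝ) ^ omega k = (q : ℝ) ^ (omega k * n) := by
      push_cast
      rw [← Real.rpow_natCast, ← Real.rpow_mul (Nat.cast_nonneg _), mul_comm]
    rw [h5] at h4
    refine h4.trans (le_of_eq ?_)
    rw [finrank_pow]
    push_cast
    rfl

/-- Below the exponent `ω / 2` the ratio does not tend to `0`. -/
theorem not_tendsto_Abar {k : Type} [Field k] [Infinite k] (h2 : (2 : k) ≠ 0) {s : ℝ} (hs1 : 1 ≤ s)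
    (hs : s < omega k / 2) :
    ∃ m₀ : ℕ, ∀ m ≥ m₀, ¬ Tendsto (fun n : ℕ => (defect k (pow k (Abar k m) n) : ℝ) /
      ((Module.finrank k (Abar k m) : ℝ) ^ (s * n))) atTop (𝓝 0) := by
  have hω := two_le_omega k
  -- for large `m`, `q ^ ω > d ^ s`
  have hlim : Tendsto (fun m : ℕ => (m : ℝ) ^ (omega k - 2 * s)) atTop atTop :=
    (tendsto_rpow_atTop (by linarith)).comp tendsto_natCast_atTop_atTop
  obtain ⟨m₀, hm₀⟩ := eventually_atTop.mp
    ((hlim.eventually_gt_atTop ((6 : ℝ) ^ omega k * 3 ^ s)).and (eventually_ge_atTop 4))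
  refine ⟨m₀, fun m hm htend => ?_⟩
  obtain ⟨hgt, hm4⟩ := hm₀ m hm
  have hm0 : (0 : ℝ) < m := by exact_mod_cast (by omega : 0 < m)
  have hm1 : (1 : ℝ) ≤ m := by exact_mod_cast (by omega : 1 ≤ m)
  set d : ℝ := (Module.finrank k (Abar k m) : ℝ) with hd
  have hd3 : d ≤ 3 * (m : ℝ) ^ (2 : ℝ) := by
    rw [hd, finrank_Abar]
    push_cast
    have : (m : ℝ) ^ (2 : ℝ) = (m : ℝ) ^ 2 := by norm_cast
    rw [this]
    nlinarith [sq_nonneg (m : ℝ)]
  have hd1 : 1 ≤ d := by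
    rw [hd, finrank_Abar]
    push_cast
    nlinarith [sq_nonneg (m : ℝ)]
  have hd0 : 0 < d := by linarith
  set q := m / 3 with hq
  have hq6 : (m : ℝ) / 6 ≤ q := by
    have h1 : m ≤ 6 * q := by omega
    have h3 : (m : ℝ) ≤ 6 * q := by exact_mod_cast h1
    linarith
  have hds : 0 < d ^ s := Real.rpow_pos_of_pos hd0 _
  have hratio : 1 < (q : ℝ) ^ omega k / d ^ s := by
    rw [lt_div_iff₀ hds, one_mul]
    have h1 : d ^ s ≤ 3 ^ s * (m : ℝ) ^ (2 * s) := by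
      calc d ^ s ≤ (3 * (m : ℝ) ^ (2 : ℝ)) ^ s := Real.rpow_le_rpow hd0.le hd3 (by linarith)
        _ = 3 ^ s * (m : ℝ) ^ (2 * s) := by
            rw [Real.mul_rpow (by norm_num) (by positivity), ← Real.rpow_mul hm0.le]
    have h3 : ((m : ℝ) / 6) ^ omega k ≤ (q : ℝ) ^ omega k :=
      Real.rpow_le_rpow (by positivity) hq6 (by linarith)
    have h4 : ((m : ℝ) / 6) ^ omega k = (m : ℝ) ^ (omega k - 2 * s) * (m : ℝ) ^ (2 * s) /
        6 ^ omega k := by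
      rw [Real.div_rpow hm0.le (by norm_num), ← Real.rpow_add hm0]
      ring_nf
    have h6 : (0 : ℝ) < (6 : ℝ) ^ omega k := by positivity
    have hms : 0 < (m : ℝ) ^ (2 * s) := Real.rpow_pos_of_pos hm0 _
    calc d ^ s ≤ 3 ^ s * (m : ℝ) ^ (2 * s) := h1
      _ < (m : ℝ) ^ (omega k - 2 * s) * (m : ℝ) ^ (2 * s) / 6 ^ omega k := by
          rw [lt_div_iff₀ h6]
          have := mul_lt_mul_of_pos_right hgt hms
          nlinarith
      _ = ((m : ℝ) / 6) ^ omega k := h4.symm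
      _ ≤ (q : ℝ) ^ omega k := h3
  -- but the limit bounds the powers of this ratio
  have hpow : ∀ᶠ n : ℕ in atTop, ((q : ℝ) ^ omega k / d ^ s) ^ n ≤ 2 := by
    filter_upwards [htend.eventually_lt_const (show (0 : ℝ) < 1 by norm_num)] with n hn
    have hdsn : 0 < d ^ (s * n) := Real.rpow_pos_of_pos hd0 _
    rw [div_lt_one hdsn] at hn
    have h1 := lower_Abar h2 m n
    rw [← hd, ← hq] at h1
    have h3 : d ^ n ≤ d ^ (s * n) := by
      rw [← Real.rpow_natCast]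
      apply Real.rpow_le_rpow_of_exponent_le hd1
      nlinarith [(Nat.cast_nonneg n : (0 : ℝ) ≤ n)]
    have h4 : (q : ℝ) ^ (omega k * n) ≤ 2 * d ^ (s * n) := by linarith
    rw [div_pow, ← Real.rpow_natCast, ← Real.rpow_natCast, ← Real.rpow_mul (Nat.cast_nonneg _),
      ← Real.rpow_mul hd0.le, div_le_iff₀ hdsn]
    exact h4
  have htop := tendsto_pow_atTop_atTop_of_one_lt hratio
  obtain ⟨n, h1, h3⟩ := (hpow.and (htop.eventually_gt_atTop 2)).exists
  linarith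

end Pool.Agent.H869R3
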