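import Pool.Agent.H869R3.TensorDefs
import Pool.Agent.H869R3.Thresh

set_option autoImplicit false

namespace Pool.Agent.H869R3

open QAlg Filter Topology

section basics

variable {k I J L : Type} [Field k]

lemma trank_exists [Fintype I] [Fintype J] [Fintype L] (T : I → J → L → k) :
    ∃ r, TRankLE T r := by
  classical
  refine ⟨_, trank_of_fintype (ι := I × J × L)
    (fun p i => if i = p.1 then T p.1 p.2.1 p.2.2 else 0) (fun p j => if j = p.2.1 then 1 else 0)
    (fun p l => if l = p.2.2 then 1 else 0) ?_⟩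
  intro i j l
  simp only [Fintype.sum_prod_type]
  rw [Finset.sum_eq_single i, Finset.sum_eq_single j, Finset.sum_eq_single l]
  · simp
  · intro b _ hb; simp [Ne.symm hb]
  · intro h; exact absurd (Finset.mem_univ _) h
  · intro b _ hb
    exact Finset.sum_eq_zero fun _ _ => by simp [Ne.symm hb]
  · intro h; exact absurd (Finset.mem_univ _) h
  · intro b _ hb
    exact Finset.sum_eq_zero fun _ _ => Finset.sum_eq_zero fun _ _ => by simp [Ne.symm hb]
  · intro h; exact absurd (Finset.mem_univ _) h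

lemma trank_spec [Fintype I] [Fintype J] [Fintype L] (T : I → J → L → k) :
    TRankLE T (trank T) := Nat.sInf_mem (s := {r | TRankLE T r}) (trank_exists T)

lemma trank_le {T : I → J → L → k} {r : ℕ} (h : TRankLE T r) : trank T ≤ r := Nat.sInf_le h

/-- Products of Kronecker powers. -/
lemma tpow_add_rank {T : I → J → L → k} {p q r s : ℕ} (hp : TRankLE (tpow T p) r)
    (hq : TRankLE (tpow T q) s) : TRankLE (tpow T (p + q)) (r * s) := by
  obtain ⟨a, b, c, h⟩ := hp
  obtain ⟨a', b', c', h'⟩ := hq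
  have := trank_of_fintype (T := tpow T (p + q)) (ι := Fin r × Fin s)
    (fun P i => a P.1 (fun ν => i (Fin.castAdd q ν)) * a' P.2 (fun ν => i (Fin.natAdd p ν)))
    (fun P i => b P.1 (fun ν => i (Fin.castAdd q ν)) * b' P.2 (fun ν => i (Fin.natAdd p ν)))
    (fun P i => c P.1 (fun ν => i (Fin.castAdd q ν)) * c' P.2 (fun ν => i (Fin.natAdd p ν))) (by
      intro i j l
      unfold tpow
      rw [Fin.prod_univ_add]
      have h1 := h (fun ν => i (Fin.castAdd q ν)) (fun ν => j (Fin.castAdd q ν))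
        (fun ν => l (Fin.castAdd q ν))
      have h2 := h' (fun ν => i (Fin.natAdd p ν)) (fun ν => j (Fin.natAdd p ν))
        (fun ν => l (Fin.natAdd p ν))
      unfold tpow at h1 h2
      rw [h1, h2, Finset.sum_mul_sum, Fintype.sum_prod_type]
      exact Finset.sum_congr rfl fun P _ => Finset.sum_congr rfl fun Q _ => by ring)
  simpa using this

lemma tpow_mul_rank {T : I → J → L → k} {p r : ℕ} (hp : TRankLE (tpow T p) r) (t : ℕ) :
    TRankLE (tpow T (p * t)) (r ^ t) := by
  induction t with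
  | zero =>
    rw [mul_zero, pow_zero]
    refine ⟨fun _ _ => 1, fun _ _ => 1, fun _ _ => 1, fun i j l => ?_⟩
    simp [tpow]
  | succ t ih =>
    rw [mul_add, mul_one, pow_succ]
    exact tpow_add_rank ih hp

/-- A Kronecker power of a Kronecker power. -/
lemma tpow_tpow_rank {T : I → J → L → k} {n N r : ℕ}
    (h : TRankLE (fun (i : Fin N → Fin n → I) (j : Fin N → Fin n → J) (l : Fin N → Fin n → L) =>
      ∏ ν, ∏ μ, T (i ν μ) (j ν μ) (l ν μ)) r) : TRankLE (tpow T (N * n)) r := by
  have h1 := h.comp (fun (i : Fin (N * n) → I) ν μ => i (finProdFinEquiv (ν, μ)))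
    (fun (i : Fin (N * n) → J) ν μ => i (finProdFinEquiv (ν, μ)))
    (fun (i : Fin (N * n) → L) ν μ => i (finProdFinEquiv (ν, μ)))
  have h2 : (fun (i : Fin (N * n) → I) (j : Fin (N * n) → J) (l : Fin (N * n) → L) =>
      ∏ ν, ∏ μ, T (i (finProdFinEquiv (ν, μ))) (j (finProdFinEquiv (ν, μ)))
        (l (finProdFinEquiv (ν, μ)))) = tpow T (N * n) := by
    funext i j l
    unfold tpow
    rw [← finProdFinEquiv.prod_comp, Fintype.prod_prod_type]
  rwa [h2] at h1

lemma asymRank_bddBelow (T : I → J → L → k) :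
    BddBelow {x : ℝ | ∃ N : ℕ, 1 ≤ N ∧ x = (trank (tpow T N) : ℝ) ^ ((N : ℝ)⁻¹)} :=
  ⟨0, by rintro _ ⟨N, _, rfl⟩; positivity⟩

lemma asymRank_nonneg (T : I → J → L → k) : 0 ≤ asymRank T :=
  Real.sInf_nonneg (by rintro _ ⟨N, _, rfl⟩; positivity)

lemma asymRank_pow_le (T : I → J → L → k) {N : ℕ} (hN : 1 ≤ N) {r : ℕ}
    (h : TRankLE (tpow T N) r) : asymRank T ^ N ≤ r := by
  have h1 : asymRank T ≤ (trank (tpow T N) : ℝ) ^ ((N : ℝ)⁻¹) :=
    csInf_le (asymRank_bddBelow T) ⟨N, hN, rfl⟩
  have h2 : asymRank T ^ N ≤ ((trank (tpow T N) : ℝ) ^ ((N : ℝ)⁻¹)) ^ N :=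
    pow_le_pow_left₀ (asymRank_nonneg T) h1 N
  rw [← Real.rpow_natCast, ← Real.rpow_natCast, ← Real.rpow_mul (Nat.cast_nonneg _),
    inv_mul_cancel₀ (by positivity), Real.rpow_one, Real.rpow_natCast] at h2
  exact h2.trans (by exact_mod_cast trank_le h)

/-- If the ranks of the powers `N n` are at most `(N + 1) ^ e D ^ N`, then `R̃(T) ^ n ≤ D`. -/
lemma asymRank_le_of_poly (T : I → J → L → k) {n e D : ℕ} (hn : 1 ≤ n) (hD : 1 ≤ D)
    (h : ∀ N : ℕ, TRankLE (tpow T (N * n)) ((N + 1) ^ e * D ^ N)) : asymRank T ^ n ≤ D := by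
  by_contra hlt
  push Not at hlt
  have hD0 : (0 : ℝ) < D := by exact_mod_cast hD
  have hA : 0 < asymRank T ^ n := lt_trans hD0 hlt
  set ρ : ℝ := D / asymRank T ^ n with hρ
  have hρ0 : 0 < ρ := by positivity
  have hρ1 : ρ < 1 := by rw [hρ, div_lt_one hA]; exact hlt
  have hlim := tendsto_pow_const_mul_const_pow_of_lt_one e hρ0.le hρ1
  have hlim2 := hlim.comp (tendsto_add_atTop_nat 1)
  obtain ⟨N, h1, h2⟩ := ((hlim2.eventually_lt_const hρ0).and (eventually_ge_atTop 1)).exists
  have h3 := asymRank_pow_le T (N := N * n) (Nat.mul_pos h2 hn) (h N)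
  have h4 : asymRank T ^ (N * n) = (asymRank T ^ n) ^ N := by rw [← pow_mul, mul_comm]
  rw [h4] at h3
  push_cast at h3
  simp only [Function.comp_apply, Nat.cast_add, Nat.cast_one, pow_succ] at h1
  have h5 : ((N : ℝ) + 1) ^ e * ρ ^ N < 1 := by
    have h6 : (((N : ℝ) + 1) ^ e * ρ ^ N) * ρ < 1 * ρ := by rw [one_mul]; linarith
    exact lt_of_mul_lt_mul_right h6 hρ0.le
  rw [hρ, div_pow, ← mul_div_assoc, div_lt_one (by positivity)] at h5
  linarith

end basics

section alg

variable {k I J L : Type} [Field k] [Fintype I] [Fintype J] [Fintype L]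

instance (T : I → J → L → k) : Module.Finite k (tensorAlg T) :=
  inferInstanceAs (Module.Finite k (QAlg (bil T) (bil_comm T)))

lemma finrank_tensorAlg (T : I → J → L → k) : Module.finrank k (tensorAlg T) =
    1 + (Fintype.card I + Fintype.card J) + Fintype.card L := by
  have h := QAlg.finrank_eq (bil T) (bil_comm T)
  have h2 : Module.finrank k (tensorAlg T) = Module.finrank k (QAlg (bil T) (bil_comm T)) := rfl
  rw [h2, h]
  simp

lemma realises_tensorAlg (T : I → J → L → k) : Realises k (tensorAlg T) T := by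
  classical
  let a : I → QAlg (bil T) (bil_comm T) := fun i =>
    ((0 : k), ((Pi.single i 1 : I → k), (0 : J → k)), (0 : L → k))
  let b : J → QAlg (bil T) (bil_comm T) := fun j =>
    ((0 : k), ((0 : I → k), (Pi.single j 1 : J → k)), (0 : L → k))
  let g : L → Module.Dual k (QAlg (bil T) (bil_comm T)) := fun l =>
    { toFun := fun x => x.2.2 l
      map_add' := fun _ _ => rfl
      map_smul' := fun _ _ => rfl }
  refine ⟨a, b, g, fun i j l => ?_⟩
  change T i j l = (0 : k) • (0 : k) + (0 : k) • (0 : k) +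
    ∑ i', ∑ j', T i' j' l * ((Pi.single i 1 : I → k) i' * (Pi.single j 1 : J → k) j' +
      (0 : I → k) i' * (0 : J → k) j')
  simp [Pi.single_apply, Finset.sum_ite_eq']

/-- **Lower bound.** -/
theorem lower_tensorAlg [Infinite k] (T : I → J → L → k) {n j : ℕ}
    (h : DefectLE k (pow k (tensorAlg T) n) j) :
    asymRank T ^ n ≤ (Module.finrank k (tensorAlg T) ^ n + j : ℕ) := by
  classical
  rcases Nat.eq_zero_or_pos n with rfl | hn
  · simp
  obtain ⟨a, b, g, hT⟩ := realises_pow (tensorAlg T) (realises_tensorAlg T) n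
  have h1 := defect_border h a b g
  have h2 : (fun i j l => g l (a i * b j)) = (fun (i : Fin n → I)
      (j : Fin n → J) (l : Fin n → L) => ∏ ν, T (i ν) (j ν) (l ν)) := by
    funext i j l
    exact (hT i j l).symm
  rw [h2, finrank_pow] at h1
  refine asymRank_le_of_poly T hn ?_ (fun N => tpow_tpow_rank (kronecker_rank h1 N))
  have : 1 ≤ Module.finrank k (tensorAlg T) ^ n := by
    rw [finrank_tensorAlg]
    exact Nat.one_le_pow _ _ (by omega)
  omega

/-- **Upper bound.** -/
lemma wit_tensorAlg (h2 : (2 : k) ≠ 0) (T : I → J → L → k) {r : ℕ} (h : TRankLE T r) :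
    Wit k (tensorAlg T) (1 + 2 * (Fintype.card I + Fintype.card J) + Fintype.card L + 2 * r) := by
  classical
  obtain ⟨a, b, c, h⟩ := h
  let V := (I → k) × (J → k)
  let fa : Fin r → Module.Dual k V := fun p =>
    ∑ i, a p i • (LinearMap.proj i ∘ₗ LinearMap.fst k (I → k) (J → k))
  let fb : Fin r → Module.Dual k V := fun p =>
    ∑ j, b p j • (LinearMap.proj j ∘ₗ LinearMap.snd k (I → k) (J → k))
  have hfa : ∀ p (v : V), fa p v = ∑ i, a p i * v.1 i := by
    intro p v
    simp only [fa, LinearMap.sum_apply, LinearMap.smul_apply, LinearMap.comp_apply,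
      LinearMap.proj_apply, smul_eq_mul]
    rfl
  have hfb : ∀ p (v : V), fb p v = ∑ j, b p j * v.2 j := by
    intro p v
    simp only [fb, LinearMap.sum_apply, LinearMap.smul_apply, LinearMap.comp_apply,
      LinearMap.proj_apply, smul_eq_mul]
    rfl
  let ι := (Fin r ⊕ Fin r) ⊕ ((I ⊕ J) ⊕ L)
  let l : ι → Module.Dual k V := Sum.elim
    (Sum.elim (fun p => fa p + fb p) (fun p => fa p - fb p))
    (Sum.elim (Sum.elim (fun i => LinearMap.proj i ∘ₗ LinearMap.fst k (I → k) (J → k))
      (fun j => LinearMap.proj j ∘ₗ LinearMap.snd k (I → k) (J → k))) (fun _ => 0))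
  let u : ι → (L → k) := Sum.elim
    (Sum.elim (fun p => (2 : k)⁻¹ • c p) (fun p => (-(2 : k)⁻¹) • c p))
    (Sum.elim (fun _ => 0) (fun l => Pi.single l 1))
  have hμ : ∃ μ : k, μ ≠ 0 ∧ μ ≠ 1 := ⟨-1, by simp, fun hc => h2 (by
      have : (1 : k) + 1 = 0 := by
        nth_rewrite 1 [← hc]; ring
      rw [← one_add_one_eq_two, this])⟩
  have hw := wit_quad' hμ (bil T) (bil_comm T) l u (by
    intro v w
    ext m
    simp only [ι, l, u, Fintype.sum_sum_type, Sum.elim_inl, Sum.elim_inr, smul_zero,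
      Finset.sum_const_zero, LinearMap.zero_apply, mul_zero, zero_smul, add_zero,
      LinearMap.add_apply, LinearMap.sub_apply, Pi.add_apply, Finset.sum_apply, Pi.smul_apply,
      smul_eq_mul, zero_mul, Pi.zero_apply]
    change (∑ i, ∑ j, T i j m * (v.1 i * w.2 j + w.1 i * v.2 j)) = _
    rw [← Finset.sum_add_distrib]
    have h3 : ∀ p, (fa p v + fb p v) * (fa p w + fb p w) * ((2 : k)⁻¹ * c p m) +
        (fa p v - fb p v) * (fa p w - fb p w) * (-(2 : k)⁻¹ * c p m) =
        ∑ i, ∑ j, (a p i * b p j * c p m) * (v.1 i * w.2 j + w.1 i * v.2 j) := by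
      intro p
      have h4 : (∑ i, ∑ j, (a p i * b p j * c p m) * (v.1 i * w.2 j + w.1 i * v.2 j)) =
          (fa p v * fb p w + fa p w * fb p v) * c p m := by
        rw [hfa, hfb, hfa, hfb, Finset.sum_mul_sum, Finset.sum_mul_sum, ← Finset.sum_add_distrib,
          Finset.sum_mul]
        refine Finset.sum_congr rfl fun i _ => ?_
        rw [← Finset.sum_add_distrib, Finset.sum_mul]
        exact Finset.sum_congr rfl fun j _ => by ring
      rw [h4]
      field_simp
      ring
    simp only [h3]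
    conv_rhs => rw [Finset.sum_comm]
    refine Finset.sum_congr rfl fun i _ => ?_
    conv_rhs => rw [Finset.sum_comm]
    refine Finset.sum_congr rfl fun j _ => ?_
    rw [h, Finset.sum_mul]) (by
    intro v hv
    refine Prod.ext ?_ ?_
    · ext i
      exact hv (Sum.inr (Sum.inl (Sum.inl i)))
    · ext j
      exact hv (Sum.inr (Sum.inl (Sum.inr j)))) (by
    rw [eq_top_iff]
    intro x _
    have hx : x = ∑ m, x m • (Pi.single m (1 : k) : L → k) := by
      ext m
      simp [Finset.sum_apply, Pi.single_apply]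
    rw [hx]
    exact Submodule.sum_mem _ fun m _ => Submodule.smul_mem _ _
      (Submodule.subset_span ⟨Sum.inr (Sum.inr m), rfl⟩))
  have hc : 1 + Module.finrank k V + Fintype.card ι =
      1 + 2 * (Fintype.card I + Fintype.card J) + Fintype.card L + 2 * r := by
    simp only [V, ι, Module.finrank_prod, Module.finrank_fintype_fun_eq_card, Fintype.card_sum,
      Fintype.card_fin]
    ring
  rw [hc] at hw
  exact hw

end alg

end Pool.Agent.H869R3
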