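import Pool.Agent.H869R3.Tensor

set_option autoImplicit false

namespace Pool.Agent.H869R3

open QAlg Filter Topology

/-- The limit statement of Q1 for `Spec A`, with the exponent `1 + ε` replaced by `s`. -/
def RatioTendsToZero (k : Type) [Field k] (A : CommAlgCat.{0} k) (s : ℝ) : Prop :=
  Tendsto (fun n : ℕ => (defect k (pow k A n) : ℝ) / (Module.finrank k A : ℝ) ^ (s * n))
    atTop (𝓝 0)

/-- The largest of the three dimensions of a tensor. -/
def maxDim (I J L : Type) [Fintype I] [Fintype J] [Fintype L] : ℕ :=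
  max (Fintype.card I) (max (Fintype.card J) (Fintype.card L))

section

variable {k I J L : Type} [Field k] [Fintype I] [Fintype J] [Fintype L]

/-- If an algebra has a witness `D` with `D / d ^ s ≤ 1 / 2`, the ratio tends to zero. -/
lemma ratio_of_wit (A : CommAlgCat.{0} k) [Module.Finite k A] {D : ℕ} (h : Wit k A D) {s : ℝ}
    (hd : 1 ≤ Module.finrank k A)
    (hratio : (D : ℝ) ≤ 1 / 2 * (Module.finrank k A : ℝ) ^ s) : RatioTendsToZero k A s := by
  have hd0 : (0 : ℝ) < (Module.finrank k A : ℝ) := by exact_mod_cast hd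
  set d : ℝ := (Module.finrank k A : ℝ) with hd_def
  have hθ0 : 0 < d ^ s := Real.rpow_pos_of_pos hd0 _
  have hr : (D : ℝ) / d ^ s ≤ 1 / 2 := by rwa [div_le_iff₀ hθ0]
  have hbound : ∀ n : ℕ, (defect k (pow k A n) : ℝ) / (d ^ (s * n)) ≤ (1 / 2 : ℝ) ^ n := by
    intro n
    have h3 : defect k (pow k A n) ≤ D ^ n :=
      (defect_le (pow_defectLE A h n)).trans (Nat.sub_le _ _)
    have h4 : (defect k (pow k A n) : ℝ) ≤ (D : ℝ) ^ n := by exact_mod_cast h3
    have h5 : d ^ (s * n) = (d ^ s) ^ n := by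
      rw [Real.rpow_mul hd0.le, Real.rpow_natCast]
    rw [h5]
    calc (defect k (pow k A n) : ℝ) / (d ^ s) ^ n ≤ (D : ℝ) ^ n / (d ^ s) ^ n := by gcongr
      _ = ((D : ℝ) / d ^ s) ^ n := by rw [div_pow]
      _ ≤ (1 / 2 : ℝ) ^ n := pow_le_pow_left₀ (by positivity) hr n
  exact squeeze_zero (fun n => by positivity) hbound
    (tendsto_pow_atTop_nhds_zero_of_lt_one (by norm_num) (by norm_num))

/-- The limit statement bounds the asymptotic rank. -/
lemma asymRank_le_of_ratio [Infinite k] (h2 : (2 : k) ≠ 0) (T : I → J → L → k) {s : ℝ}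
    (hs : 1 ≤ s) (h : RatioTendsToZero k (tensorAlg T) s) :
    asymRank T ≤ (Module.finrank k (tensorAlg T) : ℝ) ^ s := by
  by_contra hlt
  push Not at hlt
  set d : ℝ := (Module.finrank k (tensorAlg T) : ℝ) with hd
  have hd1 : 1 ≤ d := by
    rw [hd, finrank_tensorAlg]
    push_cast
    have : (0 : ℝ) ≤ (Fintype.card I : ℝ) + (Fintype.card J : ℝ) + (Fintype.card L : ℝ) := by
      positivity
    linarith
  have hd0 : 0 < d := by linarith
  have hds : 0 < d ^ s := Real.rpow_pos_of_pos hd0 _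
  have hratio : 1 < asymRank T / d ^ s := by rwa [lt_div_iff₀ hds, one_mul]
  have hpow : ∀ᶠ n : ℕ in atTop, (asymRank T / d ^ s) ^ n ≤ 2 := by
    filter_upwards [h.eventually_lt_const (show (0 : ℝ) < 1 by norm_num)] with n hn
    have hdsn : 0 < d ^ (s * n) := Real.rpow_pos_of_pos hd0 _
    rw [div_lt_one hdsn] at hn
    have hmem : DefectLE k (pow k (tensorAlg T) n) (defect k (pow k (tensorAlg T) n)) :=
      Nat.sInf_mem (s := {j | DefectLE k (pow k (tensorAlg T) n) j})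
        ⟨_, pow_defectLE (tensorAlg T) (wit_tensorAlg h2 T (trank_spec T)) n⟩
    have h1 := lower_tensorAlg T hmem
    push_cast at h1
    rw [← hd] at h1
    have h3 : d ^ n ≤ d ^ (s * n) := by
      rw [← Real.rpow_natCast]
      apply Real.rpow_le_rpow_of_exponent_le hd1
      nlinarith [(Nat.cast_nonneg n : (0 : ℝ) ≤ n)]
    have h4 : asymRank T ^ n ≤ 2 * d ^ (s * n) := by linarith
    have h5 : (d ^ s) ^ n = d ^ (s * n) := by
      rw [Real.rpow_mul hd0.le, Real.rpow_natCast]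
    rw [div_pow, h5, div_le_iff₀ hdsn]
    exact h4
  have htop := tendsto_pow_atTop_atTop_of_one_lt hratio
  obtain ⟨n, h1, h3⟩ := (hpow.and (htop.eventually_gt_atTop 2)).exists
  linarith

/-- `R̃(T) ^ j ≤ R̃(T ^ j)`. -/
lemma asymRank_pow_le_asymRank (T : I → J → L → k) {j : ℕ} (hj : 1 ≤ j) :
    asymRank T ^ j ≤ asymRank (tpow T j) := by
  refine le_csInf ⟨_, 1, le_rfl, rfl⟩ ?_
  rintro _ ⟨N, hN, rfl⟩
  have h1 : TRankLE (tpow (tpow T j) N) (trank (tpow (tpow T j) N)) := trank_spec _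
  have h2 : TRankLE (tpow T (N * j)) (trank (tpow (tpow T j) N)) := tpow_tpow_rank h1
  have h3 := asymRank_pow_le T (Nat.mul_pos hN hj) h2
  have h4 : asymRank T ^ (N * j) = (asymRank T ^ j) ^ N := by rw [← pow_mul, mul_comm]
  rw [h4] at h3
  have hN0 : (N : ℝ) ≠ 0 := by positivity
  have h5 : ((asymRank T ^ j) ^ N) ^ ((N : ℝ)⁻¹) = asymRank T ^ j := by
    rw [← Real.rpow_natCast (asymRank T ^ j) N, ← Real.rpow_mul (pow_nonneg (asymRank_nonneg T) _),
      mul_inv_cancel₀ hN0, Real.rpow_one]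
  rw [← h5]
  exact Real.rpow_le_rpow (pow_nonneg (pow_nonneg (asymRank_nonneg T) _) _) h3 (by positivity)

lemma finrank_tensorAlg_tpow (T : I → J → L → k) (j : ℕ) :
    Module.finrank k (tensorAlg (tpow T j)) =
      1 + (Fintype.card I ^ j + Fintype.card J ^ j) + Fintype.card L ^ j := by
  rw [finrank_tensorAlg]
  simp

/-- The limit statement for the algebras of the Kronecker powers of `T` bounds the asymptotic rank of
`T` by the largest dimension. -/
theorem asymRank_le_maxDim [Infinite k] (h2 : (2 : k) ≠ 0) (T : I → J → L → k)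
    (hM : 1 ≤ maxDim I J L)
    (h : ∀ ε > 0, ∃ j₀ : ℕ, ∀ j ≥ j₀, RatioTendsToZero k (tensorAlg (tpow T j)) (1 + ε)) :
    asymRank T ≤ maxDim I J L := by
  by_contra hlt
  push Not at hlt
  set M : ℝ := (maxDim I J L : ℝ) with hMdef
  have hM1 : 1 ≤ M := by rw [hMdef]; exact_mod_cast hM
  have hM0 : 0 < M := by linarith
  -- choose `ε`
  have hcont : Tendsto (fun ε : ℝ => M ^ (1 + ε)) (𝓝[>] 0) (𝓝 (M ^ (1 + (0 : ℝ)))) := by
    have h1 : Continuous fun ε : ℝ => M ^ (1 + ε) :=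
      Continuous.rpow continuous_const (continuous_const.add continuous_id) fun _ => Or.inl hM0.ne'
    exact (h1.tendsto 0).mono_left nhdsWithin_le_nhds
  rw [add_zero, Real.rpow_one] at hcont
  obtain ⟨ε, hε1, hε0⟩ := ((hcont.eventually_lt_const hlt).and self_mem_nhdsWithin).exists
  obtain ⟨j₀, hj₀⟩ := h ε hε0
  have hMε : 0 < M ^ (1 + ε) := Real.rpow_pos_of_pos hM0 _
  have hratio : 1 < asymRank T / M ^ (1 + ε) := by rwa [lt_div_iff₀ hMε, one_mul]
  have htop := tendsto_pow_atTop_atTop_of_one_lt hratio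
  obtain ⟨j, h1, h3, h4⟩ := ((htop.eventually_gt_atTop ((4 : ℝ) ^ (1 + ε))).and
    ((eventually_ge_atTop j₀).and (eventually_ge_atTop 1))).exists
  have h5 := asymRank_le_of_ratio h2 (tpow T j) (by linarith [show (0 : ℝ) < ε from hε0])
    (hj₀ j h3)
  have h6 := (asymRank_pow_le_asymRank T h4).trans h5
  have h7 : (Module.finrank k (tensorAlg (tpow T j)) : ℝ) ≤ 4 * M ^ j := by
    rw [finrank_tensorAlg_tpow]
    have ha : Fintype.card I ^ j ≤ maxDim I J L ^ j := Nat.pow_le_pow_left (le_max_left _ _) _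
    have hb : Fintype.card J ^ j ≤ maxDim I J L ^ j :=
      Nat.pow_le_pow_left ((le_max_left _ _).trans (le_max_right _ _)) _
    have hc : Fintype.card L ^ j ≤ maxDim I J L ^ j :=
      Nat.pow_le_pow_left ((le_max_right _ _).trans (le_max_right _ _)) _
    have hd : 1 ≤ maxDim I J L ^ j := Nat.one_le_pow _ _ hM
    have h8 : 1 + (Fintype.card I ^ j + Fintype.card J ^ j) + Fintype.card L ^ j ≤
        4 * maxDim I J L ^ j := by omega
    rw [hMdef]
    exact_mod_cast h8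
  have h8 : asymRank T ^ j ≤ (4 : ℝ) ^ (1 + ε) * (M ^ (1 + ε)) ^ j := by
    refine h6.trans ?_
    have h9 : (Module.finrank k (tensorAlg (tpow T j)) : ℝ) ^ (1 + ε) ≤ (4 * M ^ j) ^ (1 + ε) :=
      Real.rpow_le_rpow (Nat.cast_nonneg _) h7 (by linarith [show (0 : ℝ) < ε from hε0])
    refine h9.trans (le_of_eq ?_)
    rw [Real.mul_rpow (by norm_num) (by positivity), ← Real.rpow_natCast, ← Real.rpow_mul hM0.le,
      ← Real.rpow_natCast, ← Real.rpow_mul hM0.le, mul_comm (j : ℝ)]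
  rw [div_pow, lt_div_iff₀ (by positivity)] at h1
  linarith

/-- If `R̃(T)` is at most the largest dimension, the limit statement of Q1 holds, for every `ε`, for
the algebras of all large Kronecker powers of `T`. -/
theorem ratio_of_asymRank_le (h2 : (2 : k) ≠ 0) (T : I → J → L → k)
    (hM : 2 ≤ maxDim I J L) (hT : asymRank T ≤ maxDim I J L) {ε : ℝ} (hε : 0 < ε) :
    ∃ j₀ : ℕ, ∀ j ≥ j₀, RatioTendsToZero k (tensorAlg (tpow T j)) (1 + ε) := by
  set M : ℝ := (maxDim I J L : ℝ) with hMdef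
  have hM2 : 2 ≤ M := by rw [hMdef]; exact_mod_cast hM
  have hM0 : 0 < M := by linarith
  have hM1 : 1 < M := by linarith
  set B : ℝ := M ^ (1 + ε / 2) with hB
  have hMB : M < B := by
    rw [hB]
    nth_rewrite 1 [← Real.rpow_one M]
    exact (Real.rpow_lt_rpow_left_iff hM1).mpr (by linarith)
  have hB0 : 0 < B := by linarith
  have hB1 : 1 ≤ B := by linarith
  obtain ⟨_, ⟨N0, hN0, rfl⟩, hlt⟩ := exists_lt_of_csInf_lt
    (s := {x : ℝ | ∃ N : ℕ, 1 ≤ N ∧ x = (trank (tpow T N) : ℝ) ^ ((N : ℝ)⁻¹)})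
    ⟨_, 1, le_rfl, rfl⟩ (lt_of_le_of_lt hT hMB)
  set r0 := trank (tpow T N0) with hr0
  have hN0' : (N0 : ℝ) ≠ 0 := by positivity
  have hr0B : (r0 : ℝ) ≤ B ^ N0 := by
    have h1 : ((r0 : ℝ) ^ ((N0 : ℝ)⁻¹)) ^ N0 ≤ B ^ N0 :=
      pow_le_pow_left₀ (by positivity) hlt.le _
    rwa [← Real.rpow_natCast, ← Real.rpow_mul (Nat.cast_nonneg _), inv_mul_cancel₀ hN0',
      Real.rpow_one] at h1
  set R1 := trank T with hR1
  set C1 : ℝ := ((R1 : ℝ) + 1) ^ N0 with hC1
  have hC10 : 0 < C1 := by positivity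
  -- the ranks of the powers
  have hrank : ∀ j : ℕ, ∃ r : ℕ, TRankLE (tpow T j) r ∧ (r : ℝ) ≤ C1 * B ^ j := by
    intro j
    refine ⟨r0 ^ (j / N0) * R1 ^ (j % N0), ?_, ?_⟩
    · have h1 := tpow_mul_rank (trank_spec (tpow T N0)) (j / N0)
      have h3 : TRankLE (tpow T (j % N0)) (R1 ^ (j % N0)) := trank_pow (trank_spec T) _
      have h4 := tpow_add_rank h1 h3
      rwa [Nat.div_add_mod] at h4
    · push_cast
      have h1 : ((r0 : ℝ)) ^ (j / N0) ≤ B ^ j := by
        calc ((r0 : ℝ)) ^ (j / N0) ≤ (B ^ N0) ^ (j / N0) :=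
              pow_le_pow_left₀ (Nat.cast_nonneg _) hr0B _
          _ = B ^ (N0 * (j / N0)) := by rw [pow_mul]
          _ ≤ B ^ j := pow_le_pow_right₀ hB1 (Nat.mul_div_le j N0)
      have h3 : ((R1 : ℝ)) ^ (j % N0) ≤ C1 := by
        calc ((R1 : ℝ)) ^ (j % N0) ≤ ((R1 : ℝ) + 1) ^ (j % N0) :=
              pow_le_pow_left₀ (Nat.cast_nonneg _) (by linarith) _
          _ ≤ C1 := pow_le_pow_right₀ (by linarith [(Nat.cast_nonneg R1 : (0 : ℝ) ≤ R1)])
              (Nat.mod_lt _ hN0).le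
      calc ((r0 : ℝ)) ^ (j / N0) * ((R1 : ℝ)) ^ (j % N0) ≤ B ^ j * C1 :=
            mul_le_mul h1 h3 (by positivity) (by positivity)
        _ = C1 * B ^ j := mul_comm _ _
  -- the final comparison
  have hq0 : 0 ≤ M ^ (-(ε / 2)) := by positivity
  have hq1 : M ^ (-(ε / 2)) < 1 := Real.rpow_lt_one_of_one_lt_of_neg hM1 (by linarith)
  have hlim : Tendsto (fun j : ℕ => (6 + 2 * C1) * (M ^ (-(ε / 2))) ^ j) atTop
      (𝓝 ((6 + 2 * C1) * 0)) := (tendsto_pow_atTop_nhds_zero_of_lt_one hq0 hq1).const_mul _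
  rw [mul_zero] at hlim
  obtain ⟨j₀, hj₀⟩ := eventually_atTop.mp
    (hlim.eventually_lt_const (show (0 : ℝ) < 1 / 2 by norm_num))
  refine ⟨j₀, fun j hj => ?_⟩
  obtain ⟨r, hr, hrB⟩ := hrank j
  have hw := wit_tensorAlg h2 (tpow T j) hr
  refine ratio_of_wit _ hw (by rw [finrank_tensorAlg]; omega) ?_
  have hcI : Fintype.card (Fin j → I) = Fintype.card I ^ j := by simp
  have hcJ : Fintype.card (Fin j → J) = Fintype.card J ^ j := by simp
  have hcL : Fintype.card (Fin j → L) = Fintype.card L ^ j := by simp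
  have ha : Fintype.card I ^ j ≤ maxDim I J L ^ j := Nat.pow_le_pow_left (le_max_left _ _) _
  have hb : Fintype.card J ^ j ≤ maxDim I J L ^ j :=
    Nat.pow_le_pow_left ((le_max_left _ _).trans (le_max_right _ _)) _
  have hc : Fintype.card L ^ j ≤ maxDim I J L ^ j :=
    Nat.pow_le_pow_left ((le_max_right _ _).trans (le_max_right _ _)) _
  have hd : 1 ≤ maxDim I J L ^ j := Nat.one_le_pow _ _ (by omega)
  have hMB' : M ^ j ≤ B ^ j := pow_le_pow_left₀ hM0.le hMB.le _
  have hD : ((1 + 2 * (Fintype.card (Fin j → I) + Fintype.card (Fin j → J)) +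
      Fintype.card (Fin j → L) + 2 * r : ℕ) : ℝ) ≤ (6 + 2 * C1) * B ^ j := by
    rw [hcI, hcJ, hcL]
    have h1 : 1 + 2 * (Fintype.card I ^ j + Fintype.card J ^ j) + Fintype.card L ^ j + 2 * r ≤
        6 * maxDim I J L ^ j + 2 * r := by omega
    have h3 : ((1 + 2 * (Fintype.card I ^ j + Fintype.card J ^ j) + Fintype.card L ^ j + 2 * r : ℕ)
        : ℝ) ≤ 6 * M ^ j + 2 * r := by rw [hMdef]; exact_mod_cast h1
    have h4 : (6 : ℝ) * M ^ j + 2 * r ≤ 6 * B ^ j + 2 * (C1 * B ^ j) := by linarith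
    calc _ ≤ 6 * M ^ j + 2 * (r : ℝ) := h3
      _ ≤ 6 * B ^ j + 2 * (C1 * B ^ j) := h4
      _ = (6 + 2 * C1) * B ^ j := by ring
  have hdj : M ^ j ≤ (Module.finrank k (tensorAlg (tpow T j)) : ℝ) := by
    rw [finrank_tensorAlg_tpow]
    have h1 : maxDim I J L ^ j ≤
        1 + (Fintype.card I ^ j + Fintype.card J ^ j) + Fintype.card L ^ j := by
      unfold maxDim
      rcases max_choice (Fintype.card I) (max (Fintype.card J) (Fintype.card L)) with h3 | h3
      · rw [h3]; omega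
      · rw [h3]
        rcases max_choice (Fintype.card J) (Fintype.card L) with h4 | h4
        · rw [h4]; omega
        · rw [h4]; omega
    rw [hMdef]
    exact_mod_cast h1
  have hBM : B ^ j = (M ^ (-(ε / 2))) ^ j * (M ^ j) ^ (1 + ε) := by
    rw [hB, ← Real.rpow_natCast, ← Real.rpow_mul hM0.le, ← Real.rpow_natCast,
      ← Real.rpow_mul hM0.le, ← Real.rpow_natCast, ← Real.rpow_mul hM0.le, ← Real.rpow_add hM0]
    congr 1
    ring
  calc _ ≤ (6 + 2 * C1) * B ^ j := hD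
    _ = ((6 + 2 * C1) * (M ^ (-(ε / 2))) ^ j) * (M ^ j) ^ (1 + ε) := by rw [hBM]; ring
    _ ≤ 1 / 2 * (M ^ j) ^ (1 + ε) :=
        mul_le_mul_of_nonneg_right (hj₀ j hj).le (by positivity)
    _ ≤ 1 / 2 * (Module.finrank k (tensorAlg (tpow T j)) : ℝ) ^ (1 + ε) := by
        have := Real.rpow_le_rpow (by positivity) hdj (show 0 ≤ 1 + ε by linarith)
        linarith

end

end Pool.Agent.H869R3
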