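import Pool.Agent.H869R3.QAlg
import Pool.Agent.H869R3.Rank

set_option autoImplicit false

namespace Pool.Agent.H869R3

/-- The `N`-th Kronecker power of a tensor. -/
def tpow {k I J L : Type} [Field k] (T : I → J → L → k) (N : ℕ) :
    (Fin N → I) → (Fin N → J) → (Fin N → L) → k := fun i j l => ∏ ν, T (i ν) (j ν) (l ν)

/-- The rank of a tensor. -/
noncomputable def trank {k I J L : Type} [Field k] (T : I → J → L → k) : ℕ :=
  sInf {r | TRankLE T r}

/-- The asymptotic rank of a tensor: the infimum over `N ≥ 1` of `R(T ^ N) ^ (1 / N)`. -/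
noncomputable def asymRank {k I J L : Type} [Field k] (T : I → J → L → k) : ℝ :=
  sInf {x : ℝ | ∃ N : ℕ, 1 ≤ N ∧ x = (trank (tpow T N) : ℝ) ^ ((N : ℝ)⁻¹)}

/-- The symmetric bilinear map on `k ^ I × k ^ J` with values in `k ^ L` given by a tensor `T`: the
product of the basis vectors `e i` and `f j` is `∑ l, T i j l g l`, and `e i e i' = f j f j' = 0`. -/
def bil {k I J L : Type} [Field k] [Fintype I] [Fintype J] (T : I → J → L → k) :
    ((I → k) × (J → k)) →ₗ[k] ((I → k) × (J → k)) →ₗ[k] (L → k) :=
  LinearMap.mk₂ k (fun v w l => ∑ i, ∑ j, T i j l * (v.1 i * w.2 j + w.1 i * v.2 j))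
    (by
      intro v v' w; ext l
      simp only [Pi.add_apply, Prod.fst_add, Prod.snd_add, ← Finset.sum_add_distrib]
      exact Finset.sum_congr rfl fun i _ => Finset.sum_congr rfl fun j _ => by ring)
    (by
      intro c v w; ext l
      simp only [Pi.smul_apply, Prod.smul_fst, Prod.smul_snd, smul_eq_mul, Finset.mul_sum]
      exact Finset.sum_congr rfl fun i _ => Finset.sum_congr rfl fun j _ => by ring)
    (by
      intro v w w'; ext l
      simp only [Pi.add_apply, Prod.fst_add, Prod.snd_add, ← Finset.sum_add_distrib]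
      exact Finset.sum_congr rfl fun i _ => Finset.sum_congr rfl fun j _ => by ring)
    (by
      intro c v w; ext l
      simp only [Pi.smul_apply, Prod.smul_fst, Prod.smul_snd, smul_eq_mul, Finset.mul_sum]
      exact Finset.sum_congr rfl fun i _ => Finset.sum_congr rfl fun j _ => by ring)

lemma bil_comm {k I J L : Type} [Field k] [Fintype I] [Fintype J] (T : I → J → L → k)
    (v w : (I → k) × (J → k)) : bil T v w = bil T w v := by
  ext l
  change (∑ i, ∑ j, T i j l * (v.1 i * w.2 j + w.1 i * v.2 j)) =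
    ∑ i, ∑ j, T i j l * (w.1 i * v.2 j + v.1 i * w.2 j)
  exact Finset.sum_congr rfl fun i _ => Finset.sum_congr rfl fun j _ => by ring

/-- The algebra `k ⊕ (k ^ I ⊕ k ^ J) ⊕ k ^ L` of a tensor `T`, with `e i * f j = ∑ l, T i j l g l` and
all other products of `e`, `f`, `g` equal to `0`. -/
noncomputable def tensorAlg {k I J L : Type} [Field k] [Fintype I] [Fintype J]
    (T : I → J → L → k) : CommAlgCat.{0} k :=
  CommAlgCat.of k (QAlg (bil T) (bil_comm T))

end Pool.Agent.H869R3
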